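import Mathlib
import Pool.Agent.Y902.GN.Gct
import Pool.Agent.Y902.GN.Seq
import Pool.Agent.Y902.GN.Gc
import Pool.Agent.R849.FP.Blk

/-!
# Statements for the project HB

Sums of monomials with free exponents, in integers of polynomial size, which are high powers of an
integer of exponential size.
-/

set_option autoImplicit false

namespace Pool.Agent.N741.HB

open Filter MvPolynomial Pool.Agent.Y902.GN

/-! ## Polynomials on the generic fibre of a hypersurface `h = 0` over `t`-space -/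

/-- `p` vanishes on the generic fibre of `h = 0` (`h`, `p` are polynomials in `t_b = X (some b)` and
`Θ = X none`) -/
def InP {d : ℕ} (h p : MvPolynomial (Option (Fin d)) ℤ) : Prop :=
  ∃ c : MvPolynomial (Fin d) ℤ, c ≠ 0 ∧ h ∣ rename some c * p

/-- `h` has positive degree in `Θ` and is irreducible over the field of rational functions in the
`t_b` -/
structure Irr {d : ℕ} (h : MvPolynomial (Option (Fin d)) ℤ) : Prop where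
  ne : h ≠ 0
  one : ¬ InP h 1
  mul : ∀ p q, InP h (p * q) → InP h p ∨ InP h q

/-- V1: a power of the leading coefficient in `Θ` is a denominator. -/
def S_van : Prop := ∀ (d : ℕ) (h : MvPolynomial (Option (Fin d)) ℤ), h ≠ 0 → ¬ InP h 1 →
  ∃ l : MvPolynomial (Fin d) ℤ, l ≠ 0 ∧ l.totalDegree ≤ h.totalDegree ∧
    (∀ m, ∃ m', l.coeff m = h.coeff m') ∧ ∀ p, InP h p → ∃ k : ℕ, h ∣ rename some l ^ k * p

/-- V2: a vector in the kernel of an integral matrix is a linear combination of small integral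
vectors in the kernel. -/
def S_ker : Prop := ∀ (M : ℕ) (ι : Type) (a : ι → Fin M → ℤ) (B : ℤ), 1 ≤ B →
  (∀ i j, |a i j| ≤ B) → ∀ v : Fin M → ℚ, (∀ i, ∑ j, (a i j : ℚ) * v j = 0) →
    ∃ (k : ℕ) (w : Fin k → Fin M → ℤ) (lam : Fin k → ℚ),
      (∀ l, (∀ i, ∑ j, a i j * w l j = 0) ∧ ∀ j, |w l j| ≤ (M.factorial : ℤ) * B ^ M) ∧
      ∀ j, v j = ∑ l, lam l * (w l j : ℚ)

/-- V3: the determinant method with a further function `z` of large size. -/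
def S_det : Prop := ∀ d k : ℕ, ∃ I D X₀ : ℕ, 1 ≤ I ∧ ∀ X Y W r : ℕ, X₀ ≤ X → 1 ≤ Y → Y ≤ X ^ k →
  1 ≤ W → 1 ≤ r → I * (I * W) ^ d ≤ X →
  ∀ (H A F : MvPolynomial (Option (Fin d)) ℤ) (α : Type) (T : Finset α)
    (s : α → Option (Fin d) → ℤ) (z : α → ℤ),
    (∀ t ∈ T, eval (s t) H = 0 ∧ eval (s t) A * z t ^ r = eval (s t) F ∧
      (∀ b, |s t (some b)| ≤ (Y : ℤ)) ∧ |z t| ≤ (X : ℤ) ^ W ∧
      eval (s t) (pderiv none H * A) * ((r : ℤ) * z t) ≠ 0 ∧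
      |eval (s t) (pderiv none H * A) * ((r : ℤ) * z t)| < 2 ^ X) →
    ∃ T' ⊆ T, T.card ≤ X ^ (2 * d + 7) * T'.card ∧
      ∃ c : (Fin d → Fin (I * W)) → Fin I → ℤ, c ≠ 0 ∧ (∀ e l, |c e l| ≤ (X : ℤ) ^ (D * W)) ∧
        ∀ t ∈ T', ∑ e, ∑ l, c e l * ((∏ b, s t (some b) ^ (e b : ℕ)) * z t ^ (l : ℕ)) = 0

/-! ## Generic data -/

/-- bounded degree, coefficients of polynomial size -/
def PB (Y : ℕ → ℕ) {σ : Type} (p : ℕ → MvPolynomial σ ℤ) : Prop :=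
  ∃ C : ℕ, ∀ᶠ ν in (Uf : Filter ℕ), (p ν).totalDegree ≤ C ∧
    ∀ m, |(p ν).coeff m| ≤ ((Y ν : ℤ) + 2) ^ C

/-- degree and logarithms of the coefficients less than all powers of `Y` -/
def Mild (Y : ℕ → ℕ) {σ : Type} (p : ℕ → MvPolynomial σ ℤ) : Prop :=
  ∃ w : ℕ → ℕ, Few Y w ∧ ∀ᶠ ν in (Uf : Filter ℕ), (p ν).totalDegree ≤ w ν ∧
    ∀ m, |(p ν).coeff m| ≤ 2 ^ w ν

/-- function field data of a generic internal set, in terms of polynomials with integral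
coefficients for each index `ν` -/
structure GD (Y : ℕ → ℕ) {N : ℕ} (Om : ℕ → Finset (Fin N → ℤ)) where
  /-- the number of independent coordinates -/
  d : ℕ
  /-- the independent coordinates -/
  ι : Fin d → Fin N
  /-- the value of the generator `Θ` -/
  θ : ℕ → (Fin N → ℤ) → ℤ
  h : ℕ → MvPolynomial (Option (Fin d)) ℤ
  b0 : ℕ → MvPolynomial (Fin d) ℤ
  b : Fin N → ℕ → MvPolynomial (Option (Fin d)) ℤ
  hPB : PB Y h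
  b0PB : PB Y b0
  bPB : ∀ j, PB Y (b j)
  θbd : ∃ C : ℕ, ∀ᶠ ν in (Uf : Filter ℕ), ∀ t ∈ Om ν, |θ ν t| ≤ ((Y ν : ℤ) + 2) ^ C
  ev_h : ∀ᶠ ν in (Uf : Filter ℕ), ∀ t ∈ Om ν,
    eval (fun o => o.elim (θ ν t) fun b => t (ι b)) (h ν) = 0
  ev_b : ∀ᶠ ν in (Uf : Filter ℕ), ∀ t ∈ Om ν, ∀ j, eval (fun b => t (ι b)) (b0 ν) * t j =
    eval (fun o => o.elim (θ ν t) fun b => t (ι b)) (b j ν)
  hne : ∀ᶠ ν in (Uf : Filter ℕ), h ν ≠ 0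
  hone : ∀ᶠ ν in (Uf : Filter ℕ), ¬ InP (h ν) 1
  b0ne : ∀ᶠ ν in (Uf : Filter ℕ), b0 ν ≠ 0
  /-- the independent coordinates satisfy no equation on a large subset -/
  small : ∀ c : ℕ → MvPolynomial (Fin d) ℤ, PB Y c → (∀ᶠ ν in (Uf : Filter ℕ), c ν ≠ 0) →
    ¬ Big Y (fun ν => (Om ν).filter fun t => eval (fun b => t (ι b)) (c ν) = 0)
  sep : ¬ Big Y (fun ν => (Om ν).filter fun t =>
    eval (fun o => o.elim (θ ν t) fun b => t (ι b)) (pderiv none (h ν)) = 0)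
  /-- every equation on a large subset is a consequence of `h = 0` -/
  div : ∀ p : ℕ → MvPolynomial (Option (Fin d)) ℤ, PB Y p →
    Big Y (fun ν => (Om ν).filter fun t =>
      eval (fun o => o.elim (θ ν t) fun b => t (ι b)) (p ν) = 0) →
    ∀ᶠ ν in (Uf : Filter ℕ), InP (h ν) (p ν)

/-- the point of the hypersurface -/
def GD.sp {Y : ℕ → ℕ} {N : ℕ} {Om : ℕ → Finset (Fin N → ℤ)} (G : GD Y Om) (ν : ℕ)
    (t : Fin N → ℤ) : Option (Fin G.d) → ℤ := fun o => o.elim (G.θ ν t) fun b => t (G.ι b)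

/-- G1: a generic set has generic data. -/
def S_gd : Prop := ∀ (Y : ℕ → ℕ) (N : ℕ) (Om : ℕ → Finset (Fin N → ℤ)),
  (∀ m : ℕ, ∀ᶠ ν in (Uf : Filter ℕ), m ≤ Y ν) → Gen Y Om → Bdd Y Om → Nonempty (GD Y Om)

/-- G2: the independent coordinates satisfy no mild equation on a large subset. -/
def S_start : Prop := ∀ (Y : ℕ → ℕ) (N : ℕ) (Om : ℕ → Finset (Fin N → ℤ)),
  (∀ m : ℕ, ∀ᶠ ν in (Uf : Filter ℕ), m ≤ Y ν) → Bdd Y Om → ∀ G : GD Y Om,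
  ∀ p : ℕ → MvPolynomial (Fin G.d) ℤ, Mild Y p → (∀ᶠ ν in (Uf : Filter ℕ), p ν ≠ 0) →
    ¬ Big Y (fun ν => (Om ν).filter fun t => eval (fun b => t (G.ι b)) (p ν) = 0)

/-- G3: `h` is irreducible. -/
def S_irr : Prop := ∀ (Y : ℕ → ℕ) (N : ℕ) (Om : ℕ → Finset (Fin N → ℤ)),
  (∀ m : ℕ, ∀ᶠ ν in (Uf : Filter ℕ), m ≤ Y ν) → Big Y Om → Bdd Y Om → ∀ G : GD Y Om,
    ∀ᶠ ν in (Uf : Filter ℕ), Irr (G.h ν)

/-- G4: a mild polynomial which vanishes on a large subset vanishes on the generic fibre. -/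
def S_starL : Prop := ∀ (Y : ℕ → ℕ) (N : ℕ) (Om : ℕ → Finset (Fin N → ℤ)),
  (∀ m : ℕ, ∀ᶠ ν in (Uf : Filter ℕ), m ≤ Y ν) → Big Y Om → Bdd Y Om → ∀ G : GD Y Om,
  ∀ p : ℕ → MvPolynomial (Option (Fin G.d)) ℤ, Mild Y p →
    Big Y (fun ν => (Om ν).filter fun t => eval (G.sp ν t) (p ν) = 0) →
    ∀ᶠ ν in (Uf : Filter ℕ), InP (G.h ν) (p ν)

/-- G5: if `A z ^ r = F` at the points, with `r` infinite, then a bounded power of `F / A` is an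
`r`-th power in the function field. -/
def S_rel : Prop := ∀ (Y : ℕ → ℕ) (N : ℕ) (Om : ℕ → Finset (Fin N → ℤ)),
  (∀ m : ℕ, ∀ᶠ ν in (Uf : Filter ℕ), m ≤ Y ν) → Big Y Om → Bdd Y Om → ∀ G : GD Y Om,
  ∀ A F : ℕ → MvPolynomial (Option (Fin G.d)) ℤ, Mild Y A → Mild Y F →
  ¬ Big Y (fun ν => (Om ν).filter fun t => eval (G.sp ν t) (A ν) = 0) →
  ∀ (r w : ℕ → ℕ) (z : ℕ → (Fin N → ℤ) → ℤ), (∀ m : ℕ, ∀ᶠ ν in (Uf : Filter ℕ), m ≤ r ν) →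
  Few Y r → Few Y w → (∀ᶠ ν in (Uf : Filter ℕ), ∀ t ∈ Om ν, z ν t ≠ 0 ∧ |z ν t| ≤ 2 ^ w ν ∧
    eval (G.sp ν t) (A ν) * z ν t ^ r ν = eval (G.sp ν t) (F ν)) →
  ∃ K : ℕ, ∀ᶠ ν in (Uf : Filter ℕ), ∃ κ : ℕ, 1 ≤ κ ∧ κ ≤ K ∧
    ∃ g₁ g₂ : MvPolynomial (Option (Fin G.d)) ℤ, ¬ InP (G.h ν) g₁ ∧ ¬ InP (G.h ν) g₂ ∧
      InP (G.h ν) (F ν ^ κ * g₂ ^ r ν - A ν ^ κ * g₁ ^ r ν)

/-- V4: a common root of `A Z ^ r - F` and of a polynomial with coefficients in `t`. -/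
def S_root : Prop := ∀ (d : ℕ) (h : MvPolynomial (Option (Fin d)) ℤ), Irr h →
  ∀ (P : Polynomial (MvPolynomial (Fin d) ℤ)) (A F : MvPolynomial (Option (Fin d)) ℤ) (r : ℕ),
  P ≠ 0 → 1 ≤ r → ¬ InP h A → ¬ InP h F →
  InP h (Polynomial.resultant (P.map (rename some).toRingHom)
    (Polynomial.C A * Polynomial.X ^ r - Polynomial.C F)) →
  ∃ κ : ℕ, 1 ≤ κ ∧ κ ≤ P.natDegree ∧ ∃ g₁ g₂ : MvPolynomial (Option (Fin d)) ℤ,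
    ¬ InP h g₁ ∧ ¬ InP h g₂ ∧ InP h (F ^ κ * g₂ ^ r - A ^ κ * g₁ ^ r)

/-! ## Function fields -/

/-- the value of a polynomial in two variables of degrees at most `C` in both -/
def ev2 {k K : Type} [CommRing k] [CommRing K] [Algebra k K] (C : ℕ) (P : ℕ → ℕ → k) (x y : K) :
    K := ∑ i ∈ Finset.range (C + 1), ∑ j ∈ Finset.range (C + 1),
      algebraMap k K (P i j) * (x ^ i * y ^ j)

/-- nonzero -/
def ne2 {k : Type} [CommRing k] (C : ℕ) (P : ℕ → ℕ → k) : Prop := ∃ i ≤ C, ∃ j ≤ C, P i j ≠ 0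

/-- F0: function fields generated by two elements: height and genus. -/
def S_can : Prop := ∀ (C : ℕ) (k K : Type) [Field k] [Field K] [Algebra k K]
  [CharZero k] [IsAlgClosed k] (x θ : K), Transcendental k x →
  IntermediateField.adjoin k {x, θ} = ⊤ → ∀ (H : ℕ → ℕ → k), ne2 C H → ev2 C H x θ = 0 →
  FF.IsFF k K ∧ Pool.Agent.W603.LV.canDeg k K ≤ 2 * C * C ∧ Pool.Agent.W603.LV.hgt k x ≤ C ∧
    Pool.Agent.W603.LV.hgt k θ ≤ C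

/-- F1: function fields of one variable over an algebraically closed field: if a bounded power of a
sum of `n` monomials without vanishing partial sum is an `r`-th power, then the ratios of the
monomials are bounded. -/
def S_dir : Prop := ∀ N C n k₀ : ℕ, ∃ R₀ B : ℕ, ∀ (k K : Type) [Field k] [Field K] [Algebra k K]
  [CharZero k] [IsAlgClosed k] (x θ : K), Transcendental k x →
  IntermediateField.adjoin k {x, θ} = ⊤ →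
  ∀ (H B0 : ℕ → ℕ → k) (Bj : Fin N → ℕ → ℕ → k), ne2 C H → ev2 C H x θ = 0 → ev2 C B0 x θ ≠ 0 →
  ∀ y : Fin N → K, (∀ j, y j ≠ 0 ∧ ev2 C B0 x θ * y j = ev2 C (Bj j) x θ) →
  ∀ (e : Fin n → Fin N → ℕ) (u : Fin n → k), (∀ i, u i ≠ 0) →
  (∀ J : Finset (Fin n), J.Nonempty → ∑ i ∈ J, algebraMap k K (u i) * ∏ j, y j ^ e i j ≠ 0) →
  ∀ (κ r : ℕ) (η : K), 1 ≤ κ → κ ≤ k₀ → R₀ ≤ r →
  (∑ i, algebraMap k K (u i) * ∏ j, y j ^ e i j) ^ κ = η ^ r →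
  ∀ i i' : Fin n, ∃ P : ℕ → ℕ → k, ne2 B P ∧ ev2 B P x
    ((algebraMap k K (u i) * ∏ j, y j ^ e i j) / (algebraMap k K (u i') * ∏ j, y j ^ e i' j)) = 0

/-- F2: bounded degree over all directions -/
def S_conv : Prop := ∀ (d C B : ℕ) (L : Type) [Field L] [CharZero L] (t : Fin d → L) (f : L),
  AlgebraicIndependent ℤ t →
  (∀ y : L, ∃ P : Polynomial (MvPolynomial (Fin d) ℤ), P ≠ 0 ∧
    P.eval₂ (aeval t).toRingHom y = 0) →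
  (∃ P : Polynomial (MvPolynomial (Fin d) ℤ), P ≠ 0 ∧ P.natDegree ≤ C ∧
    P.eval₂ (aeval t).toRingHom f = 0) →
  (∀ (b : Fin d) (σ : L →+* AlgebraicClosure L), (∀ c, σ (t c) = algebraMap L _ (t c)) →
    ∃ P : ℕ → ℕ → AlgebraicClosure L, (∀ i j, IsAlgebraic (IntermediateField.adjoin ℚ
      {x : AlgebraicClosure L | ∃ c, c ≠ b ∧ x = algebraMap L _ (t c)}) (P i j)) ∧
      ne2 B P ∧ ev2 B P (algebraMap L (AlgebraicClosure L) (t b)) (σ f) = 0) →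
  ∃ G : (Fin d → Fin (C * (B + 1) + 1)) → Fin (C * (B + 1) + 1) → ℤ, G ≠ 0 ∧
    ∑ α, ∑ j, (G α j : L) * ((∏ b, t b ^ (α b : ℕ)) * f ^ (j : ℕ)) = 0

/-- F3: the same for polynomials on the generic fibre of `h = 0`. -/
def S_alg : Prop := ∀ d N c₀ n k₀ : ℕ, ∃ R₀ B : ℕ, ∀ (h : MvPolynomial (Option (Fin d)) ℤ)
  (b0 : MvPolynomial (Fin d) ℤ) (b : Fin N → MvPolynomial (Option (Fin d)) ℤ), Irr h →
  h.totalDegree ≤ c₀ → b0 ≠ 0 → b0.totalDegree ≤ c₀ →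
  (∀ j, (b j).totalDegree ≤ c₀ ∧ ¬ InP h (b j)) →
  ∀ (e : Fin n → Fin N → ℕ) (u : Fin n → ℤ) (M : ℕ), (∀ i, u i ≠ 0 ∧ ∑ j, e i j ≤ M) →
  (∀ J : Finset (Fin n), J.Nonempty →
    ¬ InP h (∑ i ∈ J, C (u i) * mon (rename some b0) b (e i) M)) →
  ∀ (κ r : ℕ) (g₁ g₂ : MvPolynomial (Option (Fin d)) ℤ), 1 ≤ κ → κ ≤ k₀ → R₀ ≤ r →
  ¬ InP h g₁ → ¬ InP h g₂ →
  InP h ((∑ i, C (u i) * mon (rename some b0) b (e i) M) ^ κ * g₂ ^ r -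
    (rename some b0 ^ M) ^ κ * g₁ ^ r) →
  ∀ i i' : Fin n, ∃ a : (Fin d → Fin (B + 1)) → Fin (B + 1) → ℤ, a ≠ 0 ∧
    InP h (∑ α, ∑ j : Fin (B + 1), C (a α j) * ((∏ q, X (some q) ^ (α q : ℕ)) *
      ((C (u i) * mon (rename some b0) b (e i) M) ^ (j : ℕ) *
        (C (u i') * mon (rename some b0) b (e i') M) ^ (B - j))))

/-! ## Terms -/

/-- systems of terms (without any equation) -/
structure TD (Y : ℕ → ℕ) (N n : ℕ) where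
  e : ℕ → Fin n → Fin N → ℕ
  u : ℕ → Fin n → ℤ
  w : ℕ → ℕ
  he : ∀ c : ℕ, ∀ᶠ ν in (Uf : Filter ℕ), (∑ i, ∑ j, e ν i j) ^ c ≤ Y ν
  hu : ∀ᶠ ν in (Uf : Filter ℕ), ∀ i, u ν i ≠ 0 ∧ |u ν i| ≤ 2 ^ w ν
  hw : ∀ c : ℕ, ∀ᶠ ν in (Uf : Filter ℕ), w ν ^ c ≤ Y ν

/-- the terms -/
def TD.T {Y : ℕ → ℕ} {N n : ℕ} (S : TD Y N n) (ν : ℕ) (i : Fin n) (t : Fin N → ℤ) : ℤ :=
  S.u ν i * ∏ j, t j ^ S.e ν i j

/-- the total degree -/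
def TD.M {Y : ℕ → ℕ} {N n : ℕ} (S : TD Y N n) (ν : ℕ) : ℕ := ∑ i, ∑ j, S.e ν i j

/-- the ratio of two terms is nearly constant -/
def NCt {Y : ℕ → ℕ} {N n : ℕ} (S : TD Y N n) (Om : ℕ → Finset (Fin N → ℤ)) (i i0 : Fin n) : Prop :=
  ∃ C : ℕ, ∀ᶠ ν in (Uf : Filter ℕ), ∀ t ∈ Om ν, ∀ t' ∈ Om ν, ∃ r r' : ℤ, r ≠ 0 ∧ r' ≠ 0 ∧
    |r| ≤ ((Y ν : ℤ) + 2) ^ C ∧ |r'| ≤ ((Y ν : ℤ) + 2) ^ C ∧
    r * (S.T ν i t * S.T ν i0 t') = r' * (S.T ν i t' * S.T ν i0 t)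

/-- T1: if the ratio of two terms is algebraic of bounded degree over the rational functions of
bounded degree (coefficients of any size), then it is nearly constant. -/
def S_ratio : Prop := ∀ (Y : ℕ → ℕ) (N n : ℕ) (Om : ℕ → Finset (Fin N → ℤ)),
  (∀ m : ℕ, ∀ᶠ ν in (Uf : Filter ℕ), m ≤ Y ν) → Bdd Y Om → ∀ (G : GD Y Om) (S : TD Y N n)
  (i i' : Fin n) (B : ℕ), (∀ᶠ ν in (Uf : Filter ℕ),
    ∃ a : (Fin G.d → Fin (B + 1)) → Fin (B + 1) → ℤ, a ≠ 0 ∧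
      InP (G.h ν) (∑ α, ∑ j : Fin (B + 1), C (a α j) * ((∏ q, X (some q) ^ (α q : ℕ)) *
        ((C (S.u ν i) * mon (rename some (G.b0 ν)) (fun j => G.b j ν) (S.e ν i) (S.M ν)) ^ (j : ℕ) *
        (C (S.u ν i') * mon (rename some (G.b0 ν)) (fun j => G.b j ν) (S.e ν i') (S.M ν)) ^
          (B - j))))) →
  ∀ Om₁ : ℕ → Finset (Fin N → ℤ), (∀ᶠ ν in (Uf : Filter ℕ), Om₁ ν ⊆ Om ν) → Big Y Om₁ →
    ∃ Om₂ : ℕ → Finset (Fin N → ℤ), (∀ᶠ ν in (Uf : Filter ℕ), Om₂ ν ⊆ Om₁ ν) ∧ Big Y Om₂ ∧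
      NCt S Om₂ i i'

/-- T2: **the core theorem**: if a sum of terms without vanishing partial sum is an `r`-th power of
an integer, `r` infinite, then all ratios of terms are nearly constant on a large subset. -/
def S_core : Prop := ∀ (Y : ℕ → ℕ) (N n : ℕ) (Om : ℕ → Finset (Fin N → ℤ)),
  (∀ m : ℕ, ∀ᶠ ν in (Uf : Filter ℕ), m ≤ Y ν) → Big Y Om → Bdd Y Om → ∀ S : TD Y N n,
  (∀ᶠ ν in (Uf : Filter ℕ), ∀ t ∈ Om ν, ∀ J : Finset (Fin n), J.Nonempty →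
    ∑ i ∈ J, S.T ν i t ≠ 0) →
  ∀ (r w : ℕ → ℕ) (z : ℕ → (Fin N → ℤ) → ℤ), (∀ m : ℕ, ∀ᶠ ν in (Uf : Filter ℕ), m ≤ r ν) →
  Few Y r → Few Y w → (∀ᶠ ν in (Uf : Filter ℕ), ∀ t ∈ Om ν, |z ν t| ≤ 2 ^ w ν ∧
    ∑ i, S.T ν i t = z ν t ^ r ν) →
  ∃ Om' : ℕ → Finset (Fin N → ℤ), (∀ᶠ ν in (Uf : Filter ℕ), Om' ν ⊆ Om ν) ∧ Big Y Om' ∧
    ∀ i i', NCt S Om' i i'

/-! ## The counting theorem -/

/-- the data of a solution: a primitive vector `a` of products of powers of `N` integers up to `Y`,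
without vanishing partial sum, such that `∑ u i * a i` is an `r`-th power, `R ≤ r`, times a product
of powers -/
structure HbPt (n N E R : ℕ) (δ : ℝ) (Y : ℕ) (u : Fin n → ℤ) (v : ℤ) (a : Fin n → ℤ) : Prop where
  gcd : ∀ d : ℕ, (∀ i, (d : ℤ) ∣ a i) → d = 1
  nvs : ∀ J : Finset (Fin n), J.Nonempty → ∑ i ∈ J, u i * a i ≠ 0
  hi : ∀ i, ((|a i| : ℤ) : ℝ) ≤ Real.exp ((Y : ℝ) ^ δ)
  rep : ∃ (s : Fin n → ℤ) (x : Fin N → ℕ) (e : Fin n → Fin N → ℕ) (s₀ : ℤ) (e₀ : Fin N → ℕ) (z : ℤ)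
    (r : ℕ), (∀ j, 1 ≤ x j ∧ x j ≤ Y) ∧ (∀ i, |s i| ≤ (Y : ℤ) ^ E) ∧ |s₀| ≤ (Y : ℤ) ^ E ∧
    (∀ i, a i = s i * ∏ j, (x j : ℤ) ^ e i j) ∧
    ((∏ j, (x j : ℝ) ^ e₀ j) ≤ Real.exp ((Y : ℝ) ^ δ)) ∧ R ≤ r ∧
    ((|z| : ℤ) : ℝ) ≤ Real.exp ((Y : ℝ) ^ δ) ∧
    ∑ i, u i * a i = v * ((s₀ * ∏ j, (x j : ℤ) ^ e₀ j) * z ^ r)

/-- T3: **few classes** -/
def S_hb : Prop := ∀ (n N E : ℕ) (ε : ℝ), 0 < ε → ∃ (C R : ℕ) (δ : ℝ), 0 < δ ∧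
    ∀ (Y : ℕ), 1 ≤ Y → ∀ (u : Fin n → ℤ) (v : ℤ), (∀ i, u i ≠ 0 ∧
      ((|u i| : ℤ) : ℝ) ≤ Real.exp ((Y : ℝ) ^ δ)) → v ≠ 0 →
      ((|v| : ℤ) : ℝ) ≤ Real.exp ((Y : ℝ) ^ δ) → ∀ (T : Finset (Fin n → ℤ)),
      (∀ a ∈ T, HbPt n N E R δ Y u v a) → (∀ a ∈ T, ∀ a' ∈ T, a ≠ a' → ¬ Near C Y a a') →
      (T.card : ℝ) ≤ (Y : ℝ) ^ ε

end Pool.Agent.N741.HB
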