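import Mathlib
import Pool.Agent.N741.HB.Stm

/-!
# Sizes of polynomials: closure properties of bounded and of mild families
-/

set_option autoImplicit false

namespace Pool.Agent.N741.HB

open Filter MvPolynomial Pool.Agent.Y902.GN

/-- the sum of the absolute values of the coefficients -/
noncomputable def L1 {σ : Type*} (p : MvPolynomial σ ℤ) : ℤ := ∑ m ∈ p.support, |p.coeff m|

section L1

variable {σ τ : Type*}

theorem L1_eq {p : MvPolynomial σ ℤ} {s : Finset (σ →₀ ℕ)} (h : p.support ⊆ s) :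
    L1 p = ∑ m ∈ s, |p.coeff m| := by
  unfold L1
  refine Finset.sum_subset h fun m _ hm => ?_
  rw [notMem_support_iff.1 hm, abs_zero]

theorem L1_nonneg (p : MvPolynomial σ ℤ) : 0 ≤ L1 p := Finset.sum_nonneg fun _ _ => abs_nonneg _

theorem abs_coeff_le (p : MvPolynomial σ ℤ) (m : σ →₀ ℕ) : |p.coeff m| ≤ L1 p := by
  by_cases hm : m ∈ p.support
  · exact Finset.single_le_sum (f := fun m => |p.coeff m|) (fun _ _ => abs_nonneg _) hm
  · rw [notMem_support_iff.1 hm, abs_zero]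
    exact L1_nonneg p

theorem L1_add (p q : MvPolynomial σ ℤ) : L1 (p + q) ≤ L1 p + L1 q := by
  classical
  rw [L1_eq (s := p.support ∪ q.support) support_add, L1_eq (p := p) (s := p.support ∪ q.support)
    Finset.subset_union_left, L1_eq (p := q) (s := p.support ∪ q.support)
    Finset.subset_union_right, ← Finset.sum_add_distrib]
  exact Finset.sum_le_sum fun m _ => by rw [coeff_add]; exact abs_add_le _ _

theorem L1_zero : L1 (0 : MvPolynomial σ ℤ) = 0 := by simp [L1]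

theorem L1_neg (p : MvPolynomial σ ℤ) : L1 (-p) = L1 p := by
  unfold L1
  rw [support_neg]
  exact Finset.sum_congr rfl fun m _ => by rw [coeff_neg, abs_neg]

theorem L1_sum {ι : Type*} (s : Finset ι) (p : ι → MvPolynomial σ ℤ) :
    L1 (∑ i ∈ s, p i) ≤ ∑ i ∈ s, L1 (p i) := by
  classical
  induction s using Finset.induction_on with
  | empty => simp [L1_zero]
  | insert a s ha ih =>
    rw [Finset.sum_insert ha, Finset.sum_insert ha]
    exact (L1_add _ _).trans (by linarith)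

theorem L1_monomial (m : σ →₀ ℕ) (a : ℤ) : L1 (monomial m a) = |a| := by
  classical
  rw [L1_eq (s := {m}) support_monomial_subset, Finset.sum_singleton, coeff_monomial, if_pos rfl]

theorem L1_C (a : ℤ) : L1 (C a : MvPolynomial σ ℤ) = |a| := L1_monomial 0 a

theorem L1_one : L1 (1 : MvPolynomial σ ℤ) = 1 := by
  rw [← C_1, L1_C, abs_one]

theorem L1_X (i : σ) : L1 (X i : MvPolynomial σ ℤ) = 1 := by
  rw [X, L1_monomial, abs_one]

theorem L1_mul (p q : MvPolynomial σ ℤ) : L1 (p * q) ≤ L1 p * L1 q := by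
  rw [MvPolynomial.mul_def]
  refine (L1_sum _ _).trans ?_
  rw [L1, Finset.sum_mul]
  refine Finset.sum_le_sum fun m _ => ?_
  refine (L1_sum _ _).trans ?_
  rw [L1, Finset.mul_sum]
  refine Finset.sum_le_sum fun n _ => ?_
  rw [L1_monomial, abs_mul]
  exact le_rfl

theorem L1_pow (p : MvPolynomial σ ℤ) (n : ℕ) : L1 (p ^ n) ≤ L1 p ^ n := by
  induction n with
  | zero => rw [pow_zero, pow_zero, L1_one]
  | succ n ih =>
    rw [pow_succ, pow_succ]
    exact (L1_mul _ _).trans (mul_le_mul_of_nonneg_right ih (L1_nonneg _))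

theorem L1_prod {ι : Type*} (s : Finset ι) (p : ι → MvPolynomial σ ℤ) :
    L1 (∏ i ∈ s, p i) ≤ ∏ i ∈ s, L1 (p i) := by
  classical
  induction s using Finset.induction_on with
  | empty => simp [L1_one]
  | insert a s ha ih =>
    rw [Finset.prod_insert ha, Finset.prod_insert ha]
    exact (L1_mul _ _).trans (mul_le_mul_of_nonneg_left ih (L1_nonneg _))

theorem L1_rename (f : σ → τ) (p : MvPolynomial σ ℤ) : L1 (rename f p) ≤ L1 p := by
  conv_lhs => rw [← support_sum_monomial_coeff p, map_sum]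
  refine (L1_sum _ _).trans ?_
  refine Finset.sum_le_sum fun m _ => ?_
  rw [rename_monomial, L1_monomial]

theorem L1_le [Fintype σ] {p : MvPolynomial σ ℤ} {D : ℕ} {B : ℤ} (hD : p.totalDegree ≤ D)
    (hB : ∀ m, |p.coeff m| ≤ B) : L1 p ≤ ((D : ℤ) + 1) ^ Fintype.card σ * B := by
  classical
  have hB0 : 0 ≤ B := (abs_nonneg _).trans (hB 0)
  unfold L1
  refine (Finset.sum_le_card_nsmul _ _ B fun m _ => hB m).trans ?_
  rw [nsmul_eq_mul]
  refine mul_le_mul_of_nonneg_right ?_ hB0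
  have h1 : p.support.card ≤ (Fintype.piFinset fun _ : σ => Finset.range (D + 1)).card := by
    refine Finset.card_le_card_of_injOn (fun m i => m i) ?_ ?_
    · intro m hm
      rw [Finset.mem_coe, Fintype.mem_piFinset]
      intro i
      rw [Finset.mem_range]
      have h2 : m.sum (fun _ e => e) ≤ p.totalDegree := le_totalDegree hm
      have h3 : m i ≤ m.sum (fun _ e => e) := by
        rw [Finsupp.sum_fintype _ _ (fun _ => rfl)]
        exact Finset.single_le_sum (f := fun i => m i) (fun _ _ => Nat.zero_le _)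
          (Finset.mem_univ i)
      show m i < D + 1
      omega
    · intro m _ m' _ h
      exact DFunLike.coe_injective h
  rw [Fintype.card_piFinset, Finset.prod_const, Finset.card_range, Finset.card_univ] at h1
  exact_mod_cast h1

theorem eval_le {p : MvPolynomial σ ℤ} {s : σ → ℤ} {b : ℤ} (hb : 1 ≤ b) (hs : ∀ i, |s i| ≤ b) :
    |eval s p| ≤ L1 p * b ^ p.totalDegree := by
  rw [eval_eq]
  refine (Finset.abs_sum_le_sum_abs _ _).trans ?_
  rw [L1, Finset.sum_mul]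
  refine Finset.sum_le_sum fun m hm => ?_
  rw [abs_mul]
  refine mul_le_mul_of_nonneg_left ?_ (abs_nonneg _)
  rw [Finset.abs_prod]
  calc ∏ i ∈ m.support, |s i ^ m i| ≤ ∏ i ∈ m.support, b ^ m i := by
        refine Finset.prod_le_prod (fun _ _ => abs_nonneg _) fun i _ => ?_
        rw [abs_pow]
        exact pow_le_pow_left₀ (abs_nonneg _) (hs i) _
    _ = b ^ (∑ i ∈ m.support, m i) := by rw [Finset.prod_pow_eq_pow_sum]
    _ ≤ b ^ p.totalDegree := pow_le_pow_right₀ hb (le_totalDegree hm)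

theorem L1_pderiv (i : σ) (p : MvPolynomial σ ℤ) : L1 (pderiv i p) ≤ (p.totalDegree : ℤ) * L1 p := by
  conv_lhs => rw [← support_sum_monomial_coeff p, map_sum]
  refine (L1_sum _ _).trans ?_
  rw [L1, Finset.mul_sum]
  refine Finset.sum_le_sum fun m hm => ?_
  rw [pderiv_monomial, L1_monomial, abs_mul, mul_comm]
  refine mul_le_mul_of_nonneg_right ?_ (abs_nonneg _)
  rw [Nat.abs_cast]
  have h2 : m.sum (fun _ e => e) ≤ p.totalDegree := le_totalDegree hm
  have h3 : m i ≤ m.sum (fun _ e => e) := by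
    by_cases hi : i ∈ m.support
    · exact Finset.single_le_sum (f := fun i => m i) (fun _ _ => Nat.zero_le _) hi
    · rw [Finsupp.notMem_support_iff.1 hi]; exact Nat.zero_le _
  exact_mod_cast h3.trans h2

theorem totalDegree_pderiv (i : σ) (p : MvPolynomial σ ℤ) :
    (pderiv i p).totalDegree ≤ p.totalDegree := by
  conv_lhs => rw [← support_sum_monomial_coeff p, map_sum]
  refine totalDegree_finsetSum_le fun m hm => ?_
  rw [pderiv_monomial]
  refine (totalDegree_monomial_le _ _).trans ?_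
  refine le_trans ?_ (le_totalDegree hm)
  have h : (m - Finsupp.single i 1).sum (fun _ e => e) ≤ m.sum (fun _ e => e) := by
    rw [Finsupp.sum_of_support_subset _ (Finsupp.support_tsub) _ (fun _ _ => rfl)]
    exact Finset.sum_le_sum fun j _ => by rw [Finsupp.tsub_apply]; exact Nat.sub_le _ _
  exact h

end L1

/-- total degree at most `w`, coefficient sum at most `2 ^ w` -/
def Sz {σ : Type*} (w : ℕ) (p : MvPolynomial σ ℤ) : Prop := p.totalDegree ≤ w ∧ L1 p ≤ 2 ^ w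

section Sz

variable {σ τ : Type*} {w w' : ℕ} {p q : MvPolynomial σ ℤ}

theorem Sz.mono (h : Sz w p) (hw : w ≤ w') : Sz w' p :=
  ⟨h.1.trans hw, h.2.trans (pow_le_pow_right₀ (by norm_num) hw)⟩

theorem Sz.zero : Sz w (0 : MvPolynomial σ ℤ) := ⟨by simp, by rw [L1_zero]; positivity⟩

theorem Sz.C {a : ℤ} (h : |a| ≤ 2 ^ w) : Sz w (C a : MvPolynomial σ ℤ) :=
  ⟨by rw [totalDegree_C]; exact Nat.zero_le _, by rw [L1_C]; exact h⟩

theorem Sz.one : Sz w (1 : MvPolynomial σ ℤ) :=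
  ⟨by simp, by rw [L1_one]; exact one_le_pow₀ (by norm_num)⟩

theorem Sz.X (i : σ) : Sz 1 (X i : MvPolynomial σ ℤ) :=
  ⟨by simp, by rw [L1_X]; norm_num⟩

theorem Sz.add (h : Sz w p) (h' : Sz w' q) : Sz (w + w' + 1) (p + q) := by
  refine ⟨(totalDegree_add _ _).trans (max_le (h.1.trans (by omega)) (h'.1.trans (by omega))), ?_⟩
  refine (L1_add _ _).trans ?_
  have h1 : (2 : ℤ) ^ w ≤ 2 ^ (w + w') := pow_le_pow_right₀ (by norm_num) (by omega)
  have h2 : (2 : ℤ) ^ w' ≤ 2 ^ (w + w') := pow_le_pow_right₀ (by norm_num) (by omega)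
  rw [pow_succ]
  linarith [h.2, h'.2]

theorem Sz.neg (h : Sz w p) : Sz w (-p) := ⟨by rw [totalDegree_neg]; exact h.1, by
  rw [L1_neg]; exact h.2⟩

theorem Sz.sub (h : Sz w p) (h' : Sz w' q) : Sz (w + w' + 1) (p - q) := by
  rw [sub_eq_add_neg]
  exact h.add h'.neg

theorem Sz.mul (h : Sz w p) (h' : Sz w' q) : Sz (w + w') (p * q) := by
  refine ⟨(totalDegree_mul _ _).trans (Nat.add_le_add h.1 h'.1), (L1_mul _ _).trans ?_⟩
  rw [pow_add]
  exact mul_le_mul h.2 h'.2 (L1_nonneg _) (by positivity)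

theorem Sz.pow (h : Sz w p) (n : ℕ) : Sz (n * w) (p ^ n) := by
  refine ⟨(totalDegree_pow _ _).trans (Nat.mul_le_mul_left _ h.1), (L1_pow _ _).trans ?_⟩
  rw [mul_comm, pow_mul]
  exact pow_le_pow_left₀ (L1_nonneg _) h.2 _

theorem Sz.sum {ι : Type*} {s : Finset ι} {f : ι → MvPolynomial σ ℤ} (h : ∀ i ∈ s, Sz w (f i)) :
    Sz (w + s.card) (∑ i ∈ s, f i) := by
  refine ⟨totalDegree_finsetSum_le fun i hi => (h i hi).1.trans (by omega), ?_⟩
  refine (L1_sum _ _).trans ?_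
  refine (Finset.sum_le_card_nsmul _ _ _ fun i hi => (h i hi).2).trans ?_
  rw [nsmul_eq_mul, pow_add, mul_comm]
  refine mul_le_mul_of_nonneg_left ?_ (by positivity)
  exact_mod_cast Nat.lt_two_pow_self.le

theorem Sz.prod {ι : Type*} {s : Finset ι} {f : ι → MvPolynomial σ ℤ} (h : ∀ i ∈ s, Sz w (f i)) :
    Sz (s.card * w) (∏ i ∈ s, f i) := by
  classical
  induction s using Finset.induction_on with
  | empty => simpa using Sz.one
  | insert a s ha ih =>
    rw [Finset.prod_insert ha, Finset.card_insert_of_notMem ha]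
    exact ((h a (Finset.mem_insert_self _ _)).mul
      (ih fun i hi => h i (Finset.mem_insert_of_mem hi))).mono (by ring_nf; omega)

theorem Sz.rename (f : σ → τ) (h : Sz w p) : Sz w (rename f p) :=
  ⟨(totalDegree_rename_le _ _).trans h.1, (L1_rename _ _).trans h.2⟩

theorem Sz.pderiv (i : σ) (h : Sz w p) : Sz (2 * w) (pderiv i p) := by
  refine ⟨(totalDegree_pderiv _ _).trans (h.1.trans (by omega)), (L1_pderiv _ _).trans ?_⟩
  rw [two_mul, pow_add]
  refine mul_le_mul ?_ h.2 (L1_nonneg _) (by positivity)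
  have h1 : p.totalDegree ≤ 2 ^ w := h.1.trans Nat.lt_two_pow_self.le
  exact_mod_cast h1

theorem Sz.det {n : ℕ} {M : Matrix (Fin n) (Fin n) (MvPolynomial σ ℤ)} (h : ∀ i j, Sz w (M i j)) :
    Sz (n * w + n * n) M.det := by
  rw [Matrix.det_apply]
  have h1 : ∀ g ∈ (Finset.univ : Finset (Equiv.Perm (Fin n))),
      Sz (n * w) (Equiv.Perm.sign g • ∏ i, M (g i) i) := by
    intro g _
    have h2 : Sz (n * w) (∏ i, M (g i) i) := by
      have := Sz.prod (s := Finset.univ) (f := fun i => M (g i) i) fun i _ => h (g i) i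
      rwa [Finset.card_univ, Fintype.card_fin] at this
    rcases Int.units_eq_one_or (Equiv.Perm.sign g) with h3 | h3
    · rw [h3, one_smul]; exact h2
    · rw [h3, Units.neg_smul, one_smul]; exact h2.neg
  refine ⟨totalDegree_finsetSum_le fun g hg => (h1 g hg).1.trans (by omega), ?_⟩
  refine (L1_sum _ _).trans ?_
  refine (Finset.sum_le_card_nsmul _ _ _ fun i hi => (h1 i hi).2).trans ?_
  rw [nsmul_eq_mul, pow_add, mul_comm, Finset.card_univ, Fintype.card_perm, Fintype.card_fin]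
  refine mul_le_mul_of_nonneg_left ?_ (by positivity)
  have h4 : n.factorial ≤ 2 ^ (n * n) := by
    calc n.factorial ≤ n ^ n := Nat.factorial_le_pow n
      _ ≤ (2 ^ n) ^ n := Nat.pow_le_pow_left Nat.lt_two_pow_self.le n
      _ = 2 ^ (n * n) := by rw [pow_mul]
  exact_mod_cast h4

theorem Sz.resultant {f g : Polynomial (MvPolynomial σ ℤ)} (hf : ∀ k, Sz w (f.coeff k))
    (hg : ∀ k, Sz w (g.coeff k)) (m n : ℕ) :
    Sz ((m + n) * w + (m + n) * (m + n)) (Polynomial.resultant f g m n) := by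
  apply Sz.det
  intro i j
  induction j using Fin.addCases with
  | left j =>
    rw [Polynomial.sylvester, Matrix.of_apply, Fin.addCases_left]
    split_ifs
    · exact hg _
    · exact Sz.zero
  | right j =>
    rw [Polynomial.sylvester, Matrix.of_apply, Fin.addCases_right]
    split_ifs
    · exact hf _
    · exact Sz.zero

theorem Sz.coeff_option {d : ℕ} {p : MvPolynomial (Option (Fin d)) ℤ} (h : Sz w p) (k : ℕ) :
    Sz w ((optionEquivLeft ℤ (Fin d) p).coeff k) := by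
  classical
  refine ⟨(totalDegree_coeff_optionEquivLeft_le _ _ _ _).trans h.1, le_trans ?_ h.2⟩
  unfold L1
  have h1 : ∀ m : Fin d →₀ ℕ, coeff m ((optionEquivLeft ℤ (Fin d) p).coeff k) =
      p.coeff (m.optionElim k) := fun m => optionEquivLeft_coeff_coeff _ _ _ _
  calc ∑ m ∈ ((optionEquivLeft ℤ (Fin d) p).coeff k).support,
        |coeff m ((optionEquivLeft ℤ (Fin d) p).coeff k)|
      = ∑ m' ∈ (((optionEquivLeft ℤ (Fin d) p).coeff k).support.image
          fun m : Fin d →₀ ℕ => m.optionElim k), |p.coeff m'| := by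
        rw [Finset.sum_image]
        · exact Finset.sum_congr rfl fun m _ => by rw [h1]
        · intro m _ m' _ h2
          ext i
          have h3 := DFunLike.congr_fun h2 (some i)
          simpa using h3
    _ ≤ ∑ m ∈ p.support, |p.coeff m| := by
        refine Finset.sum_le_sum_of_subset_of_nonneg ?_ fun _ _ _ => abs_nonneg _
        intro m' hm'
        obtain ⟨m, hm, rfl⟩ := Finset.mem_image.1 hm'
        rw [mem_support_iff, ← h1]
        exact mem_support_iff.1 hm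

theorem natDegree_option_le {d : ℕ} {p : MvPolynomial (Option (Fin d)) ℤ} (h : Sz w p) :
    (optionEquivLeft ℤ (Fin d) p).natDegree ≤ w := by
  rw [natDegree_optionEquivLeft]
  exact (degreeOf_le_totalDegree _ _).trans h.1

end Sz

/-! ## Mild families -/

section Mild

variable {Y : ℕ → ℕ} {σ τ : Type} {p q : ℕ → MvPolynomial σ ℤ}

theorem Mild.of_Sz {w : ℕ → ℕ} (hw : Few Y w) (h : ∀ᶠ ν in (Uf : Filter ℕ), Sz (w ν) (p ν)) :
    Mild Y p := by
  refine ⟨w, hw, ?_⟩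
  filter_upwards [h] with ν hν
  exact ⟨hν.1, fun m => (abs_coeff_le _ _).trans hν.2⟩

variable (hY : ∀ m : ℕ, ∀ᶠ ν in (Uf : Filter ℕ), m ≤ Y ν)

theorem Mild.congr (h : Mild Y p) (hpq : ∀ᶠ ν in (Uf : Filter ℕ), p ν = q ν) : Mild Y q := by
  obtain ⟨w, hw, h⟩ := h
  refine ⟨w, hw, ?_⟩
  filter_upwards [h, hpq] with ν h1 h2
  rw [← h2]
  exact h1

include hY

/-- the number `log (Y + 2)` is `Few` -/
theorem few_log : Few Y (fun ν => Nat.log 2 (Y ν + 2) + 1) := fun m => ev_log_pow hY m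

theorem Few.mul_const {w : ℕ → ℕ} (hw : Few Y w) (c : ℕ) : Few Y (fun ν => c * w ν) :=
  (Few.const hY c).mul hw

theorem Mild.Sz [Finite σ] (h : Mild Y p) : ∃ w : ℕ → ℕ, Few Y w ∧
    ∀ᶠ ν in (Uf : Filter ℕ), Sz (w ν) (p ν) := by
  have := Fintype.ofFinite σ
  obtain ⟨w, hw, h⟩ := h
  refine ⟨fun ν => (w ν + 1) * Fintype.card σ + w ν, ?_, ?_⟩
  · exact ((hw.add hY (Few.const hY 1)).mul (Few.const hY _)).add hY hw
  · filter_upwards [h] with ν hν
    refine ⟨hν.1.trans (by omega), ?_⟩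
    refine (L1_le hν.1 hν.2).trans ?_
    rw [pow_add]
    refine mul_le_mul_of_nonneg_right ?_ (by positivity)
    rw [pow_mul]
    refine pow_le_pow_left₀ (by positivity) ?_ _
    have h1 : w ν + 1 ≤ 2 ^ (w ν + 1) := Nat.lt_two_pow_self.le
    exact_mod_cast h1

omit hY in
/-- `(Y + 2) ^ C` is at most `2 ^ (C (log (Y+2) + 1))` -/
theorem pow_le_two_pow (y C : ℕ) : ((y : ℤ) + 2) ^ C ≤ 2 ^ (C * (Nat.log 2 (y + 2) + 1)) := by
  have h1 : y + 2 ≤ 2 ^ (Nat.log 2 (y + 2) + 1) := (Nat.lt_pow_succ_log_self (by norm_num) _).le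
  rw [mul_comm, pow_mul]
  refine pow_le_pow_left₀ (by positivity) ?_ _
  exact_mod_cast h1

theorem PB.mild (h : PB Y p) : Mild Y p := by
  obtain ⟨C, h⟩ := h
  refine ⟨fun ν => C + C * (Nat.log 2 (Y ν + 2) + 1), (Few.const hY C).add hY
    (Few.mul_const hY (few_log hY) C), ?_⟩
  filter_upwards [h] with ν hν
  refine ⟨hν.1.trans (by omega), fun m => (hν.2 m).trans ?_⟩
  exact (pow_le_two_pow (Y ν) C).trans (pow_le_pow_right₀ (by norm_num) (by omega))

theorem Mild.add [Finite σ] (h : Mild Y p) (h' : Mild Y q) : Mild Y (fun ν => p ν + q ν) := by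
  obtain ⟨w, hw, h⟩ := h.Sz hY
  obtain ⟨w', hw', h'⟩ := h'.Sz hY
  refine Mild.of_Sz ((hw.add hY hw').add hY (Few.const hY 1)) ?_
  filter_upwards [h, h'] with ν h1 h2
  exact h1.add h2

theorem Mild.mul [Finite σ] (h : Mild Y p) (h' : Mild Y q) : Mild Y (fun ν => p ν * q ν) := by
  obtain ⟨w, hw, h⟩ := h.Sz hY
  obtain ⟨w', hw', h'⟩ := h'.Sz hY
  refine Mild.of_Sz (hw.add hY hw') ?_
  filter_upwards [h, h'] with ν h1 h2
  exact h1.mul h2

theorem Mild.pow [Finite σ] (h : Mild Y p) {r : ℕ → ℕ} (hr : Few Y r) :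
    Mild Y (fun ν => p ν ^ r ν) := by
  obtain ⟨w, hw, h⟩ := h.Sz hY
  refine Mild.of_Sz (hr.mul hw) ?_
  filter_upwards [h] with ν h1
  exact h1.pow _

theorem Mild.neg [Finite σ] (h : Mild Y p) : Mild Y (fun ν => -p ν) := by
  obtain ⟨w, hw, h⟩ := h.Sz hY
  refine Mild.of_Sz hw ?_
  filter_upwards [h] with ν h1
  exact h1.neg

theorem Mild.sub [Finite σ] (h : Mild Y p) (h' : Mild Y q) : Mild Y (fun ν => p ν - q ν) :=
  ((h.add hY (h'.neg hY)).congr (Filter.Eventually.of_forall fun ν => (sub_eq_add_neg _ _).symm))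

theorem Mild.zero : Mild Y (fun _ => (0 : MvPolynomial σ ℤ)) :=
  Mild.of_Sz (w := fun _ => 0) (Few.const hY 0) (Filter.Eventually.of_forall fun _ => HB.Sz.zero)

theorem Mild.one : Mild Y (fun _ => (1 : MvPolynomial σ ℤ)) :=
  Mild.of_Sz (w := fun _ => 0) (Few.const hY 0) (Filter.Eventually.of_forall fun _ => HB.Sz.one)

theorem Mild.X (i : σ) : Mild Y (fun _ => (MvPolynomial.X i : MvPolynomial σ ℤ)) :=
  Mild.of_Sz (w := fun _ => 1) (Few.const hY 1) (Filter.Eventually.of_forall fun _ => HB.Sz.X i)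

omit hY in
theorem Mild.C {u : ℕ → ℤ} {w : ℕ → ℕ} (hw : Few Y w)
    (hu : ∀ᶠ ν in (Uf : Filter ℕ), |u ν| ≤ 2 ^ w ν) :
    Mild Y (fun ν => (MvPolynomial.C (u ν) : MvPolynomial σ ℤ)) :=
  Mild.of_Sz hw (hu.mono fun _ h => HB.Sz.C h)

theorem Mild.sum [Finite σ] {ι : Type*} (s : Finset ι) {f : ι → ℕ → MvPolynomial σ ℤ}
    (h : ∀ i ∈ s, Mild Y (f i)) : Mild Y (fun ν => ∑ i ∈ s, f i ν) := by
  classical
  induction s using Finset.induction_on with
  | empty => simpa using Mild.zero hY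
  | insert a s ha ih =>
    refine ((h a (Finset.mem_insert_self _ _)).add hY
      (ih fun i hi => h i (Finset.mem_insert_of_mem hi))).congr
        (Filter.Eventually.of_forall fun ν => ?_)
    rw [Finset.sum_insert ha]

theorem Mild.prod [Finite σ] {ι : Type*} (s : Finset ι) {f : ι → ℕ → MvPolynomial σ ℤ}
    (h : ∀ i ∈ s, Mild Y (f i)) : Mild Y (fun ν => ∏ i ∈ s, f i ν) := by
  classical
  induction s using Finset.induction_on with
  | empty => simpa using Mild.one hY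
  | insert a s ha ih =>
    refine ((h a (Finset.mem_insert_self _ _)).mul hY
      (ih fun i hi => h i (Finset.mem_insert_of_mem hi))).congr
        (Filter.Eventually.of_forall fun ν => ?_)
    rw [Finset.prod_insert ha]

theorem Mild.rename [Finite σ] (f : σ → τ) (h : Mild Y p) :
    Mild Y (fun ν => rename f (p ν)) := by
  obtain ⟨w, hw, h⟩ := h.Sz hY
  refine Mild.of_Sz hw ?_
  filter_upwards [h] with ν h1
  exact h1.rename f

theorem Mild.pderiv [Finite σ] (i : σ) (h : Mild Y p) : Mild Y (fun ν => pderiv i (p ν)) := by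
  obtain ⟨w, hw, h⟩ := h.Sz hY
  refine Mild.of_Sz (Few.mul_const hY hw 2) ?_
  filter_upwards [h] with ν h1
  exact h1.pderiv i

/-- resultants of polynomials with mild coefficients -/
theorem Mild.resultant {f g : ℕ → Polynomial (MvPolynomial σ ℤ)} {w m n : ℕ → ℕ} (hw : Few Y w)
    (hm : Few Y m) (hn : Few Y n)
    (hf : ∀ᶠ ν in (Uf : Filter ℕ), ∀ k, HB.Sz (w ν) ((f ν).coeff k))
    (hg : ∀ᶠ ν in (Uf : Filter ℕ), ∀ k, HB.Sz (w ν) ((g ν).coeff k)) :
    Mild Y (fun ν => Polynomial.resultant (f ν) (g ν) (m ν) (n ν)) := by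
  have h1 : Few Y (fun ν => m ν + n ν) := hm.add hY hn
  refine Mild.of_Sz ((h1.mul hw).add hY (h1.mul h1)) ?_
  filter_upwards [hf, hg] with ν h2 h3
  exact HB.Sz.resultant h2 h3 _ _

/-- the values of a mild family -/
theorem Mild.eval_bd [Finite σ] {α : Type*} (h : Mild Y p) {Om : ℕ → Finset α}
    {s : ℕ → α → σ → ℤ} {C : ℕ} (hs : ∀ᶠ ν in (Uf : Filter ℕ), ∀ t ∈ Om ν, ∀ i,
      |s ν t i| ≤ ((Y ν : ℤ) + 2) ^ C) : ∃ w : ℕ → ℕ, Few Y w ∧
    ∀ᶠ ν in (Uf : Filter ℕ), ∀ t ∈ Om ν, |eval (s ν t) (p ν)| ≤ 2 ^ w ν := by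
  obtain ⟨w, hw, h⟩ := h.Sz hY
  refine ⟨fun ν => w ν + (C * (Nat.log 2 (Y ν + 2) + 1)) * w ν,
    hw.add hY ((Few.mul_const hY (few_log hY) C).mul hw), ?_⟩
  filter_upwards [h, hs] with ν h1 h2 t ht
  refine (eval_le (b := 2 ^ (C * (Nat.log 2 (Y ν + 2) + 1))) (one_le_pow₀ (by norm_num))
    fun i => (h2 t ht i).trans (pow_le_two_pow _ _)).trans ?_
  rw [pow_add]
  refine mul_le_mul h1.2 ?_ (by positivity) (by positivity)
  rw [pow_mul (2 : ℤ) (C * (Nat.log 2 (Y ν + 2) + 1))]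
  exact pow_le_pow_right₀ (one_le_pow₀ (by norm_num)) h1.1

end Mild

/-! ## Bounded families -/

section PB

variable {Y : ℕ → ℕ} {σ τ : Type} {p q : ℕ → MvPolynomial σ ℤ}

theorem PB.of_L1 {C : ℕ} (h : ∀ᶠ ν in (Uf : Filter ℕ), (p ν).totalDegree ≤ C ∧
    L1 (p ν) ≤ ((Y ν : ℤ) + 2) ^ C) : PB Y p := by
  refine ⟨C, ?_⟩
  filter_upwards [h] with ν hν
  exact ⟨hν.1, fun m => (abs_coeff_le _ _).trans hν.2⟩

theorem PB.L1 [Finite σ] (h : PB Y p) : ∃ C : ℕ, ∀ᶠ ν in (Uf : Filter ℕ),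
    (p ν).totalDegree ≤ C ∧ L1 (p ν) ≤ ((Y ν : ℤ) + 2) ^ C := by
  have := Fintype.ofFinite σ
  obtain ⟨C, h⟩ := h
  refine ⟨(C + 1) * Fintype.card σ + C, ?_⟩
  filter_upwards [h] with ν hν
  refine ⟨hν.1.trans (by omega), ?_⟩
  refine (L1_le hν.1 hν.2).trans ?_
  rw [pow_add]
  refine mul_le_mul_of_nonneg_right ?_ (by positivity)
  rw [pow_mul]
  refine pow_le_pow_left₀ (by positivity) ?_ _
  have h1 : C + 1 ≤ 2 ^ (C + 1) := Nat.lt_two_pow_self.le
  calc (C : ℤ) + 1 ≤ 2 ^ (C + 1) := by exact_mod_cast h1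
    _ ≤ ((Y ν : ℤ) + 2) ^ (C + 1) := pow_le_pow_left₀ (by norm_num) (by omega) _

theorem PB.congr (h : PB Y p) (hpq : ∀ᶠ ν in (Uf : Filter ℕ), p ν = q ν) : PB Y q := by
  obtain ⟨C, h⟩ := h
  refine ⟨C, ?_⟩
  filter_upwards [h, hpq] with ν h1 h2
  rw [← h2]
  exact h1

theorem PB.add [Finite σ] (h : PB Y p) (h' : PB Y q) : PB Y (fun ν => p ν + q ν) := by
  obtain ⟨C, h⟩ := h.L1
  obtain ⟨C', h'⟩ := h'.L1
  refine PB.of_L1 (C := C + C' + 1) ?_
  filter_upwards [h, h'] with ν h1 h2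
  refine ⟨(totalDegree_add _ _).trans (max_le (h1.1.trans (by omega)) (h2.1.trans (by omega))), ?_⟩
  refine (L1_add _ _).trans ?_
  have e1 : ((Y ν : ℤ) + 2) ^ C ≤ ((Y ν : ℤ) + 2) ^ (C + C') :=
    pow_le_pow_right₀ (by omega) (by omega)
  have e2 : ((Y ν : ℤ) + 2) ^ C' ≤ ((Y ν : ℤ) + 2) ^ (C + C') :=
    pow_le_pow_right₀ (by omega) (by omega)
  have e3 : (0 : ℤ) ≤ ((Y ν : ℤ) + 2) ^ (C + C') * (Y ν : ℤ) := by positivity
  rw [pow_succ]
  nlinarith [h1.2, h2.2]

theorem PB.mul [Finite σ] (h : PB Y p) (h' : PB Y q) : PB Y (fun ν => p ν * q ν) := by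
  obtain ⟨C, h⟩ := h.L1
  obtain ⟨C', h'⟩ := h'.L1
  refine PB.of_L1 (C := C + C') ?_
  filter_upwards [h, h'] with ν h1 h2
  refine ⟨(totalDegree_mul _ _).trans (Nat.add_le_add h1.1 h2.1), (L1_mul _ _).trans ?_⟩
  rw [pow_add]
  exact mul_le_mul h1.2 h2.2 (L1_nonneg _) (by positivity)

theorem PB.neg [Finite σ] (h : PB Y p) : PB Y (fun ν => -p ν) := by
  obtain ⟨C, h⟩ := h.L1
  refine PB.of_L1 (C := C) ?_
  filter_upwards [h] with ν h1
  rw [totalDegree_neg, L1_neg]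
  exact h1

theorem PB.sub [Finite σ] (h : PB Y p) (h' : PB Y q) : PB Y (fun ν => p ν - q ν) :=
  ((h.add h'.neg).congr (Filter.Eventually.of_forall fun ν => (sub_eq_add_neg _ _).symm))

theorem PB.C {u : ℕ → ℤ} {C : ℕ} (hu : ∀ᶠ ν in (Uf : Filter ℕ), |u ν| ≤ ((Y ν : ℤ) + 2) ^ C) :
    PB Y (fun ν => (MvPolynomial.C (u ν) : MvPolynomial σ ℤ)) := by
  refine PB.of_L1 (C := C) ?_
  filter_upwards [hu] with ν h1
  rw [totalDegree_C, L1_C]
  exact ⟨Nat.zero_le _, h1⟩

theorem PB.zero : PB Y (fun _ => (0 : MvPolynomial σ ℤ)) := by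
  refine PB.of_L1 (C := 0) (Filter.Eventually.of_forall fun ν => ?_)
  rw [L1_zero]
  simp

theorem PB.one : PB Y (fun _ => (1 : MvPolynomial σ ℤ)) := by
  refine PB.of_L1 (C := 0) (Filter.Eventually.of_forall fun ν => ?_)
  rw [L1_one]
  simp

theorem PB.X (i : σ) : PB Y (fun _ => (MvPolynomial.X i : MvPolynomial σ ℤ)) := by
  refine PB.of_L1 (C := 1) (Filter.Eventually.of_forall fun ν => ?_)
  rw [L1_X]
  refine ⟨by simp, ?_⟩
  rw [pow_one]
  omega

theorem PB.sum [Finite σ] {ι : Type*} (s : Finset ι) {f : ι → ℕ → MvPolynomial σ ℤ}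
    (h : ∀ i ∈ s, PB Y (f i)) : PB Y (fun ν => ∑ i ∈ s, f i ν) := by
  classical
  induction s using Finset.induction_on with
  | empty => simpa using PB.zero
  | insert a s ha ih =>
    refine ((h a (Finset.mem_insert_self _ _)).add
      (ih fun i hi => h i (Finset.mem_insert_of_mem hi))).congr
        (Filter.Eventually.of_forall fun ν => ?_)
    rw [Finset.sum_insert ha]

theorem PB.prod [Finite σ] {ι : Type*} (s : Finset ι) {f : ι → ℕ → MvPolynomial σ ℤ}
    (h : ∀ i ∈ s, PB Y (f i)) : PB Y (fun ν => ∏ i ∈ s, f i ν) := by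
  classical
  induction s using Finset.induction_on with
  | empty => simpa using PB.one
  | insert a s ha ih =>
    refine ((h a (Finset.mem_insert_self _ _)).mul
      (ih fun i hi => h i (Finset.mem_insert_of_mem hi))).congr
        (Filter.Eventually.of_forall fun ν => ?_)
    rw [Finset.prod_insert ha]

theorem PB.pow [Finite σ] (h : PB Y p) (c : ℕ) : PB Y (fun ν => p ν ^ c) := by
  have := PB.prod (Y := Y) (σ := σ) (Finset.range c) (f := fun _ ν => p ν) (fun _ _ => h)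
  refine this.congr (Filter.Eventually.of_forall fun ν => ?_)
  rw [Finset.prod_const, Finset.card_range]

theorem PB.rename [Finite σ] (f : σ → τ) (h : PB Y p) : PB Y (fun ν => rename f (p ν)) := by
  obtain ⟨C, h⟩ := h.L1
  refine PB.of_L1 (C := C) ?_
  filter_upwards [h] with ν h1
  exact ⟨(totalDegree_rename_le _ _).trans h1.1, (L1_rename _ _).trans h1.2⟩

theorem PB.pderiv [Finite σ] (i : σ) (h : PB Y p) : PB Y (fun ν => pderiv i (p ν)) := by
  obtain ⟨C, h⟩ := h.L1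
  refine PB.of_L1 (C := C + C) ?_
  filter_upwards [h] with ν h1
  refine ⟨(totalDegree_pderiv _ _).trans (h1.1.trans (by omega)), (L1_pderiv _ _).trans ?_⟩
  rw [pow_add]
  refine mul_le_mul ?_ h1.2 (L1_nonneg _) (by positivity)
  have h2 : C ≤ 2 ^ C := Nat.lt_two_pow_self.le
  calc ((p ν).totalDegree : ℤ) ≤ C := by exact_mod_cast h1.1
    _ ≤ 2 ^ C := by exact_mod_cast h2
    _ ≤ ((Y ν : ℤ) + 2) ^ C := pow_le_pow_left₀ (by norm_num) (by omega) _

/-- the values of a bounded family -/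
theorem PB.eval_bd [Finite σ] {α : Type*} (h : PB Y p) {Om : ℕ → Finset α}
    {s : ℕ → α → σ → ℤ} {C : ℕ} (hs : ∀ᶠ ν in (Uf : Filter ℕ), ∀ t ∈ Om ν, ∀ i,
      |s ν t i| ≤ ((Y ν : ℤ) + 2) ^ C) : ∃ C' : ℕ,
    ∀ᶠ ν in (Uf : Filter ℕ), ∀ t ∈ Om ν, |eval (s ν t) (p ν)| ≤ ((Y ν : ℤ) + 2) ^ C' := by
  obtain ⟨D, h⟩ := h.L1
  refine ⟨D + C * D, ?_⟩
  filter_upwards [h, hs] with ν h1 h2 t ht
  refine (eval_le (b := ((Y ν : ℤ) + 2) ^ C) (one_le_pow₀ (by omega)) (h2 t ht)).trans ?_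
  rw [pow_add]
  refine mul_le_mul h1.2 ?_ (by positivity) (by positivity)
  rw [pow_mul ((Y ν : ℤ) + 2) C]
  exact pow_le_pow_right₀ (one_le_pow₀ (by omega)) h1.1

/-- the points of the hypersurface are bounded -/
theorem GD.sp_bd {N : ℕ} {Om : ℕ → Finset (Fin N → ℤ)} (hb : Bdd Y Om) (G : GD Y Om) :
    ∃ C : ℕ, ∀ᶠ ν in (Uf : Filter ℕ), ∀ t ∈ Om ν, ∀ o, |G.sp ν t o| ≤ ((Y ν : ℤ) + 2) ^ C := by
  obtain ⟨C, hC⟩ := G.θbd
  refine ⟨C + 1, ?_⟩
  filter_upwards [hC, hb] with ν h1 h2 t ht o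
  cases o with
  | none => exact (h1 t ht).trans (pow_le_pow_right₀ (by omega) (by omega))
  | some b =>
    have h3 := (h2 t ht (G.ι b)).2
    have h4 : |t (G.ι b)| ≤ (Y ν : ℤ) + 2 := by linarith
    show |t (G.ι b)| ≤ _
    refine h4.trans ?_
    exact le_self_pow₀ (by omega) (by omega)

end PB

end Pool.Agent.N741.HB
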