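import Mathlib
import Pool.Agent.N741.HB.Mild

/-!
# The core theorem: assembly
-/

set_option autoImplicit false

namespace Pool.Agent.N741.HB

open Filter MvPolynomial Pool.Agent.Y902.GN

section

variable {Y : ℕ → ℕ} {N n : ℕ}

theorem NCt.mono {S : TD Y N n} {Om Om' : ℕ → Finset (Fin N → ℤ)} {i i0 : Fin n}
    (h : NCt S Om i i0) (hO : ∀ᶠ ν in (Uf : Filter ℕ), Om' ν ⊆ Om ν) : NCt S Om' i i0 := by
  obtain ⟨C, h⟩ := h
  refine ⟨C, ?_⟩
  filter_upwards [h, hO] with ν h1 h2 t ht t' ht'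
  exact h1 t (h2 ht) t' (h2 ht')

theorem TD.le_M (S : TD Y N n) (ν : ℕ) (i : Fin n) : ∑ j, S.e ν i j ≤ S.M ν :=
  Finset.single_le_sum (f := fun i => ∑ j, S.e ν i j) (fun _ _ => Nat.zero_le _)
    (Finset.mem_univ i)

theorem TD.e_le (S : TD Y N n) (ν : ℕ) (i : Fin n) (j : Fin N) : S.e ν i j ≤ S.M ν :=
  (Finset.single_le_sum (f := fun j => S.e ν i j) (fun _ _ => Nat.zero_le _)
    (Finset.mem_univ j)).trans (S.le_M ν i)

/-- the polynomials representing the terms -/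
noncomputable def GD.tm {Om : ℕ → Finset (Fin N → ℤ)} (G : GD Y Om) (S : TD Y N n) (ν : ℕ)
    (i : Fin n) : MvPolynomial (Option (Fin G.d)) ℤ :=
  C (S.u ν i) * mon (rename some (G.b0 ν)) (fun j => G.b j ν) (S.e ν i) (S.M ν)

theorem GD.eval_b0 {Om : ℕ → Finset (Fin N → ℤ)} (G : GD Y Om) (ν : ℕ) (t : Fin N → ℤ) :
    eval (G.sp ν t) (rename some (G.b0 ν)) = eval (fun b => t (G.ι b)) (G.b0 ν) := by
  rw [eval_rename]
  rfl

theorem GD.eval_tm {Om : ℕ → Finset (Fin N → ℤ)} (G : GD Y Om) (S : TD Y N n) :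
    ∀ᶠ ν in (Uf : Filter ℕ), ∀ t ∈ Om ν, ∀ i, eval (G.sp ν t) (G.tm S ν i) =
      eval (fun b => t (G.ι b)) (G.b0 ν) ^ S.M ν * S.T ν i t := by
  filter_upwards [G.ev_b] with ν h t ht i
  unfold GD.tm
  rw [map_mul, eval_C, eval_mon (s := G.sp ν t) (t := t) (fun j => by
    rw [G.eval_b0]; exact h t ht j) (S.le_M ν i) (), G.eval_b0]
  unfold TD.T
  ring

variable (hY : ∀ m : ℕ, ∀ᶠ ν in (Uf : Filter ℕ), m ≤ Y ν)

include hY

/-- the good points -/
theorem GD.good {Om : ℕ → Finset (Fin N → ℤ)} (G : GD Y Om) (hv : S_van)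
    {Om₁ : ℕ → Finset (Fin N → ℤ)} (h1 : ∀ᶠ ν in (Uf : Filter ℕ), Om₁ ν ⊆ Om ν)
    (hB : Big Y Om₁) : ∃ Om₂ : ℕ → Finset (Fin N → ℤ), (∀ᶠ ν in (Uf : Filter ℕ), Om₂ ν ⊆ Om₁ ν) ∧
      Big Y Om₂ ∧ ∀ᶠ ν in (Uf : Filter ℕ), ∀ t ∈ Om₂ ν,
        eval (fun b => t (G.ι b)) (G.b0 ν) ≠ 0 ∧
        ∀ p, InP (G.h ν) p → eval (G.sp ν t) p = 0 := by
  classical
  have hl : ∀ᶠ ν in (Uf : Filter ℕ), ∃ l : MvPolynomial (Fin G.d) ℤ, l ≠ 0 ∧
      l.totalDegree ≤ (G.h ν).totalDegree ∧ (∀ m, ∃ m', l.coeff m = (G.h ν).coeff m') ∧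
      ∀ p, InP (G.h ν) p → ∃ k : ℕ, G.h ν ∣ rename some l ^ k * p := by
    filter_upwards [G.hne, G.hone] with ν a b
    exact hv G.d (G.h ν) a b
  obtain ⟨l, hl⟩ := hl.choice
  have hlPB : PB Y l := by
    obtain ⟨C, hC⟩ := G.hPB
    refine ⟨C, ?_⟩
    filter_upwards [hC, hl] with ν a b
    refine ⟨b.2.1.trans a.1, fun m => ?_⟩
    obtain ⟨m', hm'⟩ := b.2.2.1 m
    rw [hm']
    exact a.2 m'
  have hc : PB Y (fun ν => l ν * G.b0 ν) := hlPB.mul G.b0PB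
  have hc0 : ∀ᶠ ν in (Uf : Filter ℕ), l ν * G.b0 ν ≠ 0 := by
    filter_upwards [hl, G.b0ne] with ν a b
    exact mul_ne_zero a.1 b
  have hsm := G.small _ hc hc0
  refine ⟨fun ν => (Om₁ ν).filter fun t => eval (fun b => t (G.ι b)) (l ν * G.b0 ν) ≠ 0,
    Filter.Eventually.of_forall fun ν => Finset.filter_subset _ _, ?_, ?_⟩
  · rcases hB.or hY (B := fun ν => (Om₁ ν).filter fun t =>
        eval (fun b => t (G.ι b)) (l ν * G.b0 ν) ≠ 0)
      (C := fun ν => (Om ν).filter fun t => eval (fun b => t (G.ι b)) (l ν * G.b0 ν) = 0)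
      (by
        filter_upwards [h1] with ν hν t ht
        by_cases h0 : eval (fun b => t (G.ι b)) (l ν * G.b0 ν) = 0
        · exact Finset.mem_union_right _ (Finset.mem_filter.2 ⟨hν ht, h0⟩)
        · exact Finset.mem_union_left _ (Finset.mem_filter.2 ⟨ht, h0⟩)) with h | h
    · exact h
    · exact absurd h hsm
  · filter_upwards [hl, h1, G.ev_h] with ν a b c t ht
    obtain ⟨ht1, ht2⟩ := Finset.mem_filter.1 ht
    rw [map_mul] at ht2
    refine ⟨right_ne_zero_of_mul ht2, fun p hp => ?_⟩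
    obtain ⟨k, q, hq⟩ := a.2.2.2 p hp
    have e1 := congrArg (eval (G.sp ν t)) hq
    rw [map_mul, map_mul, map_pow, eval_rename] at e1
    have e2 : eval (G.sp ν t) (G.h ν) = 0 := c t (b ht1)
    rw [e2, zero_mul] at e1
    rcases mul_eq_zero.1 e1 with e3 | e3
    · exact absurd e3 (pow_ne_zero k (left_ne_zero_of_mul ht2))
    · exact e3

theorem GD.tm_mild {Om : ℕ → Finset (Fin N → ℤ)} (G : GD Y Om) (S : TD Y N n) (i : Fin n) :
    Mild Y (fun ν => G.tm S ν i) := by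
  have h1 : Mild Y (fun ν => rename (some : Fin G.d → Option (Fin G.d)) (G.b0 ν)) :=
    (PB.mild hY G.b0PB).rename hY some
  have h2 : Few Y (fun ν => S.M ν - ∑ j, S.e ν i j) := Few.mono (g := S.M) (fun c => S.he c)
    (Filter.Eventually.of_forall fun ν => Nat.sub_le _ _)
  have h3 : ∀ j, Few Y (fun ν => S.e ν i j) := fun j => Few.mono (g := S.M) (fun c => S.he c)
    (Filter.Eventually.of_forall fun ν => S.e_le ν i j)
  have h4 : Mild Y (fun ν => ∏ j, G.b j ν ^ S.e ν i j) := by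
    refine Mild.prod hY Finset.univ (f := fun j ν => G.b j ν ^ S.e ν i j) fun j _ => ?_
    exact (PB.mild hY (G.bPB j)).pow hY (h3 j)
  have h5 : Mild Y (fun ν => (C (S.u ν i) : MvPolynomial (Option (Fin G.d)) ℤ)) := by
    refine Mild.C (w := S.w) S.hw ?_
    filter_upwards [S.hu] with ν h
    exact (h i).2
  exact h5.mul hY (h4.mul hY (h1.pow hY h2))

end

/-- **The core theorem**, from its parts. -/
theorem core_of (hv : S_van) (hgd : S_gd) (hirr : S_irr) (hrel : S_rel) (halg : S_alg)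
    (hratio : S_ratio) : S_core := by
  classical
  intro Y N n Om hY hbig hbd S hnvs r w z hr hrF hwF hz
  rcases Nat.eq_zero_or_pos n with hn | hn
  · subst hn
    exact ⟨Om, Filter.Eventually.of_forall fun _ => subset_rfl, hbig, fun i => i.elim0⟩
  obtain ⟨Om1, hO1, hG1⟩ := Gen.ex hbig
  have hbd1 : Bdd Y Om1 := by
    filter_upwards [hbd, hO1] with ν a b t ht
    exact a t (b ht)
  obtain ⟨G⟩ := hgd Y N Om1 hY hG1 hbd1
  have hB1 : Big Y Om1 := hG1.1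
  -- the polynomials
  set A : ℕ → MvPolynomial (Option (Fin G.d)) ℤ := fun ν => rename some (G.b0 ν) ^ S.M ν with hA
  set F : ℕ → MvPolynomial (Option (Fin G.d)) ℤ := fun ν => ∑ i, G.tm S ν i with hF
  have hAm : Mild Y A := ((PB.mild hY G.b0PB).rename hY some).pow hY (fun c => S.he c)
  have hFm : Mild Y F := Mild.sum hY Finset.univ fun i _ => G.tm_mild hY S i
  have hAs : ¬ Big Y (fun ν => (Om1 ν).filter fun t => eval (G.sp ν t) (A ν) = 0) := by
    intro hcon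
    refine G.small G.b0 G.b0PB G.b0ne (hcon.mono (Filter.Eventually.of_forall fun ν t ht => ?_))
    obtain ⟨ht1, ht2⟩ := Finset.mem_filter.1 ht
    refine Finset.mem_filter.2 ⟨ht1, ?_⟩
    rw [hA] at ht2
    simp only [map_pow, G.eval_b0] at ht2
    exact pow_eq_zero_iff (n := S.M ν) (by
      intro h0
      rw [h0, pow_zero] at ht2
      exact one_ne_zero ht2) |>.1 ht2
  have huniv : (Finset.univ : Finset (Fin n)).Nonempty := ⟨⟨0, hn⟩, Finset.mem_univ _⟩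
  have hzz : ∀ᶠ ν in (Uf : Filter ℕ), ∀ t ∈ Om1 ν, z ν t ≠ 0 ∧ |z ν t| ≤ 2 ^ w ν ∧
      eval (G.sp ν t) (A ν) * z ν t ^ r ν = eval (G.sp ν t) (F ν) := by
    filter_upwards [hz, hO1, hnvs, hr 1, G.eval_tm S] with ν h1 h2 h3 h4 h5 t ht
    have h6 := h1 t (h2 ht)
    refine ⟨?_, h6.1, ?_⟩
    · intro h0
      have h7 := h3 t (h2 ht) Finset.univ huniv
      rw [h6.2, h0, zero_pow (by omega)] at h7
      exact h7 rfl
    · rw [hA, hF]
      simp only [map_pow, map_sum, G.eval_b0]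
      rw [← h6.2, Finset.mul_sum]
      exact Finset.sum_congr rfl fun i _ => (h5 t ht i).symm
  obtain ⟨K, hK⟩ := hrel Y N Om1 hY hB1 hbd1 G A F hAm hFm hAs r w z hr hrF hwF hzz
  -- bounds for the degrees
  obtain ⟨c1, hc1⟩ := G.hPB
  obtain ⟨c2, hc2⟩ := G.b0PB
  have hc3 : ∃ c3, ∀ᶠ ν in (Uf : Filter ℕ), ∀ j, (G.b j ν).totalDegree ≤ c3 := by
    choose c hc using fun j => G.bPB j
    refine ⟨∑ j, c j, ?_⟩
    filter_upwards [Filter.eventually_all.2 hc] with ν h j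
    exact (h j).1.trans (Finset.single_le_sum (f := c) (fun _ _ => Nat.zero_le _)
      (Finset.mem_univ j))
  obtain ⟨c3, hc3⟩ := hc3
  set c₀ := c1 + c2 + c3 with hc₀
  obtain ⟨R₀, B, hRB⟩ := halg G.d N c₀ n K
  obtain ⟨Om2, hO2, hB2, hgood⟩ := G.good hY hv (Filter.Eventually.of_forall fun _ => subset_rfl)
    hB1
  have key : ∀ᶠ ν in (Uf : Filter ℕ), ∀ i i' : Fin n,
      ∃ a : (Fin G.d → Fin (B + 1)) → Fin (B + 1) → ℤ, a ≠ 0 ∧
      InP (G.h ν) (∑ α, ∑ j : Fin (B + 1), C (a α j) * ((∏ q, X (some q) ^ (α q : ℕ)) *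
        ((C (S.u ν i) * mon (rename some (G.b0 ν)) (fun j => G.b j ν) (S.e ν i) (S.M ν)) ^ (j : ℕ) *
        (C (S.u ν i') * mon (rename some (G.b0 ν)) (fun j => G.b j ν) (S.e ν i') (S.M ν)) ^
          (B - j)))) := by
    filter_upwards [hK, hirr Y N Om1 hY hB1 hbd1 G, hc1, hc2, hc3, G.b0ne, hgood, hB2.nonempty,
      hO2, hO1, hbd1, hnvs, hr R₀, G.eval_tm S, G.ev_b, S.hu] with ν g1 g2 g3 g4 g5 g6 g7 g8 g9
        g10 g11 g12 g13 g14 g15 g16
    obtain ⟨κ, hκ1, hκ2, g₁, g₂, hg1, hg2, hg3⟩ := g1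
    obtain ⟨t, ht⟩ := g8
    have ht1 : t ∈ Om1 ν := g9 ht
    obtain ⟨hb0, hgd⟩ := g7 t ht
    refine hRB (G.h ν) (G.b0 ν) (fun j => G.b j ν) g2 (g3.1.trans (by omega)) g6
      (g4.1.trans (by omega)) (fun j => ⟨(g5 j).trans (by omega), fun hcon => ?_⟩) (S.e ν)
      (S.u ν) (S.M ν) (fun i => ⟨(g16 i).1, S.le_M ν i⟩) (fun J hJ hcon => ?_) κ (r ν) g₁ g₂
      hκ1 hκ2 g13 hg1 hg2 hg3
    · have e1 := hgd _ hcon
      have e2 := g15 t ht1 j
      have e3 : eval (fun o : Option (Fin G.d) => o.elim (G.θ ν t) fun b => t (G.ι b)) (G.b j ν)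
        = 0 := e1
      rw [e3] at e2
      rcases mul_eq_zero.1 e2 with e4 | e4
      · exact hb0 e4
      · exact (g11 t ht1 j).1 e4
    · have e1 := hgd _ hcon
      rw [map_sum] at e1
      have e2 : ∑ i ∈ J, eval (G.sp ν t) (C (S.u ν i) * mon (rename some (G.b0 ν))
          (fun j => G.b j ν) (S.e ν i) (S.M ν)) = eval (fun b => t (G.ι b)) (G.b0 ν) ^ S.M ν *
            ∑ i ∈ J, S.T ν i t := by
        rw [Finset.mul_sum]
        exact Finset.sum_congr rfl fun i _ => g14 t ht1 i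
      rw [e2] at e1
      rcases mul_eq_zero.1 e1 with e3 | e3
      · exact pow_ne_zero _ hb0 e3
      · exact g12 t (g10 ht1) J hJ e3
  -- all pairs
  have hall : ∀ P : Finset (Fin n × Fin n), ∃ Om3 : ℕ → Finset (Fin N → ℤ),
      (∀ᶠ ν in (Uf : Filter ℕ), Om3 ν ⊆ Om1 ν) ∧ Big Y Om3 ∧ ∀ q ∈ P, NCt S Om3 q.1 q.2 := by
    intro P
    induction P using Finset.induction_on with
    | empty => exact ⟨Om1, Filter.Eventually.of_forall fun _ => subset_rfl, hB1, by simp⟩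
    | insert q P _ ih =>
      obtain ⟨Om3, h1, h2, h3⟩ := ih
      obtain ⟨Om4, h4, h5, h6⟩ := hratio Y N n Om1 hY hbd1 G S q.1 q.2 B
        (key.mono fun ν h => h q.1 q.2) Om3 h1 h2
      refine ⟨Om4, ?_, h5, fun q' hq' => ?_⟩
      · filter_upwards [h1, h4] with ν a b
        exact b.trans a
      · rcases Finset.mem_insert.1 hq' with h7 | h7
        · rw [h7]; exact h6
        · exact (h3 q' h7).mono h4
  obtain ⟨Om3, h1, h2, h3⟩ := hall Finset.univ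
  refine ⟨Om3, ?_, h2, fun i i' => h3 (i, i') (Finset.mem_univ _)⟩
  filter_upwards [h1, hO1] with ν a b
  exact a.trans b

end Pool.Agent.N741.HB
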