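import Mathlib
import Pool.Agent.N741.HB.Mild

/-!
# Statements for the project HB, second part

Structure of the rational points on finite covers, power values of polynomials, large parts,
abc triples.
-/

set_option autoImplicit false

namespace Pool.Agent.N741.HB

open Filter MvPolynomial Pool.Agent.Y902.GN

/-! ## Covering lemma -/

/-- C1: if a finite set is not covered by few members of a family of sets then it has a large subset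
which meets each member in few points. -/
def S_cover : Prop := ∀ (α : Type) [DecidableEq α] (S : Finset α) (F : Finset (Finset α)) (M : ℕ),
  1 ≤ M → (∀ x ∈ S, ∃ V ∈ F, x ∈ V) →
  (∀ W ⊆ F, W.card ≤ M * (Nat.log 2 S.card + 1) → ¬ S ⊆ W.biUnion id) →
  ∃ T ⊆ S, M ≤ T.card * (Nat.log 2 F.card + 2) ∧ ∀ V ∈ F, (T ∩ V).card ≤ Nat.log 2 F.card + 2

/-! ## Finite covers -/

/-- C2: the determinant method with a root `z` of a polynomial of any degree. -/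
def S_detP : Prop := ∀ d k : ℕ, ∃ I D X₀ : ℕ, 1 ≤ I ∧ ∀ X Y W : ℕ, X₀ ≤ X → 1 ≤ Y → Y ≤ X ^ k →
  1 ≤ W → I * (I * W) ^ d ≤ X →
  ∀ (H : MvPolynomial (Option (Fin d)) ℤ) (P : Polynomial (MvPolynomial (Option (Fin d)) ℤ))
    (α : Type) (T : Finset α) (s : α → Option (Fin d) → ℤ) (z : α → ℤ),
    (∀ t ∈ T, eval (s t) H = 0 ∧ (P.map (eval (s t))).eval (z t) = 0 ∧
      (∀ b, |s t (some b)| ≤ (Y : ℤ)) ∧ |z t| ≤ (X : ℤ) ^ W ∧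
      eval (s t) (pderiv none H) * (P.derivative.map (eval (s t))).eval (z t) ≠ 0 ∧
      |eval (s t) (pderiv none H) * (P.derivative.map (eval (s t))).eval (z t)| < 2 ^ X) →
    ∃ T' ⊆ T, T.card ≤ X ^ (2 * d + 7) * T'.card ∧
      ∃ c : (Fin d → Fin (I * W)) → Fin I → ℤ, c ≠ 0 ∧ (∀ e l, |c e l| ≤ (X : ℤ) ^ (D * W)) ∧
        ∀ t ∈ T', ∑ e, ∑ l, c e l * ((∏ b, s t (some b) ^ (e b : ℕ)) * z t ^ (l : ℕ)) = 0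

/-- C3: if the points of a large set are unramified points on a finite cover, given by a mild
polynomial `P` in `Z`, then `P` has a factor of bounded degree over the function field. -/
def S_relP : Prop := ∀ (Y : ℕ → ℕ) (N : ℕ) (Om : ℕ → Finset (Fin N → ℤ)),
  (∀ m : ℕ, ∀ᶠ ν in (Uf : Filter ℕ), m ≤ Y ν) → Big Y Om → Bdd Y Om → ∀ G : GD Y Om,
  ∀ (P : ℕ → Polynomial (MvPolynomial (Option (Fin G.d)) ℤ)) (w : ℕ → ℕ)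
    (z : ℕ → (Fin N → ℤ) → ℤ), Few Y w →
  (∀ᶠ ν in (Uf : Filter ℕ), (P ν).natDegree ≤ w ν ∧ ∀ k, Sz (w ν) ((P ν).coeff k)) →
  (∀ᶠ ν in (Uf : Filter ℕ), ∀ t ∈ Om ν, |z ν t| ≤ 2 ^ w ν ∧
    ((P ν).map (eval (G.sp ν t))).eval (z ν t) = 0) →
  ¬ Big Y (fun ν => (Om ν).filter fun t =>
    ((P ν).derivative.map (eval (G.sp ν t))).eval (z ν t) = 0) →
  ∃ K : ℕ, ∀ᶠ ν in (Uf : Filter ℕ),
    ∃ (M M' : Polynomial (MvPolynomial (Option (Fin G.d)) ℤ))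
      (c : MvPolynomial (Option (Fin G.d)) ℤ), 1 ≤ M.natDegree ∧ M.natDegree ≤ K ∧
      ¬ InP (G.h ν) M.leadingCoeff ∧ ¬ InP (G.h ν) c ∧
      ∀ k, InP (G.h ν) ((Polynomial.C c * P ν - M * M').coeff k)

/-- an irreducible subvariety of affine `n`-space of dimension `d`, birational to the hypersurface
`h (t, Θ) = 0`: `t` are the coordinates `x (ι b)` and `x j = b j (t, Θ) / b0 (t)` -/
structure Chart (n : ℕ) where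
  d : ℕ
  ι : Fin d → Fin n
  h : MvPolynomial (Option (Fin d)) ℤ
  b0 : MvPolynomial (Fin d) ℤ
  b : Fin n → MvPolynomial (Option (Fin d)) ℤ

/-- integral points on the subvariety -/
def Chart.Pt {n : ℕ} (V : Chart n) (x : Fin n → ℤ) : Prop :=
  eval (fun b => x (V.ι b)) V.b0 ≠ 0 ∧ ∃ θ : ℤ,
    eval (fun o => o.elim θ fun b => x (V.ι b)) V.h = 0 ∧
    ∀ j, eval (fun b => x (V.ι b)) V.b0 * x j =
      eval (fun o => o.elim θ fun b => x (V.ι b)) (V.b j)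

/-- irreducible, degrees at most `K` and coefficients at most `(Y + 2) ^ K` -/
structure Chart.Cx {n : ℕ} (V : Chart n) (K Y : ℕ) : Prop where
  d : V.d ≤ n
  irr : Irr V.h
  b0 : V.b0 ≠ 0
  hd : V.h.totalDegree ≤ K
  b0d : V.b0.totalDegree ≤ K
  bd : ∀ j, (V.b j).totalDegree ≤ K
  hc : ∀ m, |V.h.coeff m| ≤ ((Y : ℤ) + 2) ^ K
  b0c : ∀ m, |V.b0.coeff m| ≤ ((Y : ℤ) + 2) ^ K
  bc : ∀ j m, |(V.b j).coeff m| ≤ ((Y : ℤ) + 2) ^ K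

/-- `P` has a factor of degree between `1` and `K` over the function field of `V` -/
def Chart.Factor {n : ℕ} (V : Chart n) (P : Polynomial (MvPolynomial (Fin n) ℤ)) (K : ℕ) : Prop :=
  ∀ (L : Type) [Field L] (φ : MvPolynomial (Option (Fin V.d)) ℤ →+* L),
    (∀ p, φ p = 0 ↔ InP V.h p) →
    P.map (eval₂Hom (Int.castRingHom L) fun j => φ (V.b j) / φ (rename some V.b0)) ≠ 0 ∧
    ∃ M : Polynomial L, 1 ≤ M.natDegree ∧ M.natDegree ≤ K ∧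
      M ∣ P.map (eval₂Hom (Int.castRingHom L) fun j => φ (V.b j) / φ (rename some V.b0))

/-- C4: the unramified points on fibre products of `q` finite covers of affine `n`-space, of any
degrees, lie over few subvarieties of bounded degree over which the covers have components of
bounded degree. -/
def S_gdm : Prop := ∀ (n q : ℕ) (ε : ℝ), 0 < ε → ∃ (K : ℕ) (δ : ℝ), 0 < δ ∧ ∀ Y : ℕ, 1 ≤ Y →
  ∀ P : Fin q → Polynomial (MvPolynomial (Fin n) ℤ),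
    (∀ k, ((P k).natDegree : ℝ) ≤ (Y : ℝ) ^ δ ∧ ∀ l,
      (((P k).coeff l).totalDegree : ℝ) ≤ (Y : ℝ) ^ δ ∧
      ∀ m, ((|((P k).coeff l).coeff m| : ℤ) : ℝ) ≤ Real.exp ((Y : ℝ) ^ δ)) →
    ∃ (r : ℕ) (V : Fin r → Chart n), (r : ℝ) ≤ (Y : ℝ) ^ ε ∧
      (∀ i, (V i).Cx K Y ∧ ∀ k, (V i).Factor (P k) K) ∧
      ∀ (x : Fin n → ℤ) (z : Fin q → ℤ), (∀ j, 1 ≤ x j ∧ x j ≤ (Y : ℤ)) →
        (∀ k, ((|z k| : ℤ) : ℝ) ≤ Real.exp ((Y : ℝ) ^ δ) ∧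
          ((P k).map (eval x)).eval (z k) = 0 ∧ ((P k).derivative.map (eval x)).eval (z k) ≠ 0) →
        ∃ i, (V i).Pt x

/-! ## Power values of polynomials -/

/-- P1: if `F / A` has a bounded power which is an `r`-th power, `r` large compared with the
degrees, then `F / A` is algebraic over the rational numbers. -/
def S_const : Prop := ∀ d c₀ k₀ : ℕ, ∃ R₀ B : ℕ, ∀ (h : MvPolynomial (Option (Fin d)) ℤ), Irr h →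
  h.totalDegree ≤ c₀ → ∀ (D : ℕ) (A F : MvPolynomial (Option (Fin d)) ℤ), 1 ≤ D →
  A.totalDegree ≤ c₀ * D → F.totalDegree ≤ c₀ * D → ¬ InP h A → ¬ InP h F →
  ∀ (κ r : ℕ) (g₁ g₂ : MvPolynomial (Option (Fin d)) ℤ), 1 ≤ κ → κ ≤ k₀ → R₀ * D ≤ r →
  ¬ InP h g₁ → ¬ InP h g₂ → InP h (F ^ κ * g₂ ^ r - A ^ κ * g₁ ^ r) →
  ∃ p : Fin (B + 1) → ℤ, p ≠ 0 ∧ InP h (∑ j : Fin (B + 1), C (p j) * (F ^ (j : ℕ) * A ^ (B - j)))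

/-- P2: few powers `w = z ^ r` such that `s * w` is a value of a polynomial `F` of degree at most
`D`, `r ≥ R * D`. -/
def S_pv : Prop := ∀ (n E : ℕ) (ε : ℝ), 0 < ε → ∃ (R : ℕ) (δ : ℝ), 0 < δ ∧ ∀ Y : ℕ, 1 ≤ Y →
  ∀ (D : ℕ) (F : MvPolynomial (Fin n) ℤ), 1 ≤ D → (D : ℝ) ≤ (Y : ℝ) ^ δ → F.totalDegree ≤ D →
    (∀ m, ((|F.coeff m| : ℤ) : ℝ) ≤ Real.exp ((Y : ℝ) ^ δ)) →
    ∀ T : Finset ℤ, (∀ w ∈ T, ∃ (x : Fin n → ℤ) (s z : ℤ) (r : ℕ),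
      (∀ j, |x j| ≤ (Y : ℤ)) ∧ s ≠ 0 ∧ |s| ≤ (Y : ℤ) ^ E ∧ 2 ≤ |z| ∧ R * D ≤ r ∧ w = z ^ r ∧
      eval x F = s * w) → (T.card : ℝ) ≤ (Y : ℝ) ^ ε

/-! ## Large parts -/

/-- the data of a solution with large parts `A` -/
def LhPt (n N E R : ℕ) (δ : ℝ) (Y : ℕ) (u : Fin n → ℤ) (v : ℤ) (A : Fin n → ℕ) : Prop :=
  ∃ (a s : Fin n → ℤ) (x : Fin N → ℕ) (e : Fin n → Fin N → ℕ) (s₀ : ℤ) (e₀ : Fin N → ℕ) (z : ℤ)
    (r : ℕ), (∀ d : ℕ, (∀ i, (d : ℤ) ∣ a i) → d = 1) ∧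
    (∀ J : Finset (Fin n), J.Nonempty → ∑ i ∈ J, u i * a i ≠ 0) ∧
    (∀ i, ((|a i| : ℤ) : ℝ) ≤ Real.exp ((Y : ℝ) ^ δ)) ∧
    (∀ j, 1 ≤ x j ∧ x j ≤ Y) ∧ (∀ i, |s i| ≤ (Y : ℤ) ^ E) ∧ |s₀| ≤ (Y : ℤ) ^ E ∧
    (∀ i, a i = s i * ∏ j, (x j : ℤ) ^ e i j) ∧
    (∀ i, A i = ∏ j, if R ≤ e i j then x j ^ e i j else 1) ∧
    ((∏ j, (x j : ℝ) ^ e₀ j) ≤ Real.exp ((Y : ℝ) ^ δ)) ∧ R ≤ r ∧
    ((|z| : ℤ) : ℝ) ≤ Real.exp ((Y : ℝ) ^ δ) ∧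
    ∑ i, u i * a i = v * ((s₀ * ∏ j, (x j : ℤ) ^ e₀ j) * z ^ r)

/-- L1: **few vectors of large parts** -/
def S_lp : Prop := ∀ (n N E : ℕ) (ε : ℝ), 0 < ε → ∃ (R : ℕ) (δ : ℝ), 0 < δ ∧
    ∀ (Y : ℕ), 1 ≤ Y → ∀ (u : Fin n → ℤ) (v : ℤ), (∀ i, u i ≠ 0 ∧
      ((|u i| : ℤ) : ℝ) ≤ Real.exp ((Y : ℝ) ^ δ)) → v ≠ 0 →
      ((|v| : ℤ) : ℝ) ≤ Real.exp ((Y : ℝ) ^ δ) → ∀ (T : Finset (Fin n → ℕ)),
      (∀ A ∈ T, LhPt n N E R δ Y u v A) → (T.card : ℝ) ≤ (Y : ℝ) ^ ε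

/-! ## abc triples -/

/-- three positive integers in any order, two of which are products of powers of `N` integers up to
`Y` times an integer up to `Y ^ E`, the third is an `r`-th power times an integer up to `Y ^ E` -/
def Lop (N E R Y : ℕ) (m₁ m₂ m₃ : ℕ) : Prop :=
  ∃ (x : Fin N → ℕ) (e₁ e₂ : Fin N → ℕ) (s₁ s₂ s₃ z r : ℕ), (∀ j, 1 ≤ x j ∧ x j ≤ Y) ∧
    s₁ ≤ Y ^ E ∧ s₂ ≤ Y ^ E ∧ s₃ ≤ Y ^ E ∧ R ≤ r ∧ m₁ = s₁ * ∏ j, x j ^ e₁ j ∧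
    m₂ = s₂ * ∏ j, x j ^ e₂ j ∧ m₃ = s₃ * z ^ r

/-- A1: **few abc triples** -/
def S_abc : Prop := ∀ (N E : ℕ) (ε : ℝ), 0 < ε → ∃ (R : ℕ) (δ : ℝ), 0 < δ ∧ ∀ (Y : ℕ), 1 ≤ Y →
  ∀ T : Finset (ℕ × ℕ × ℕ), (∀ t ∈ T, 0 < t.1 ∧ 0 < t.2.1 ∧ Nat.Coprime t.1 t.2.1 ∧
    t.1 + t.2.1 = t.2.2 ∧ Y ^ R ≤ t.2.2 ∧ (t.2.2 : ℝ) ≤ Real.exp ((Y : ℝ) ^ δ) ∧
    (Lop N E R Y t.1 t.2.1 t.2.2 ∨ Lop N E R Y t.1 t.2.2 t.2.1 ∨ Lop N E R Y t.2.1 t.2.2 t.1)) →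
  (T.card : ℝ) ≤ (Y : ℝ) ^ ε

end Pool.Agent.N741.HB
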