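import Mathlib
import Pool.Agent.N741.HB.Mild

/-!
# Statements for the project HB, third part: algebraic points of bounded degree

Sums of monomials with free exponents in algebraic integers of bounded degree and polynomial size,
which are high powers of algebraic integers of exponential size.
-/

set_option autoImplicit false

namespace Pool.Agent.N741.HC

open Filter MvPolynomial Pool.Agent.Y902.GN Pool.Agent.N741.HB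

/-! ## The determinant method for systems of equations -/

/-- D1: the determinant method for the integral points `(s, z)` of a system of equations with
`s` of polynomial size and `z` of exponential size, for vectors `g` of functions. -/
def S_detV : Prop := ∀ d k κ : ℕ, ∃ I D X₀ : ℕ, 1 ≤ I ∧ ∀ X Y W : ℕ, X₀ ≤ X → 1 ≤ Y → Y ≤ X ^ k →
  1 ≤ W → I * (I * W) ^ d ≤ X → ∀ (τ : Type) [Fintype τ] [DecidableEq τ]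
  (F : τ → MvPolynomial (Fin d ⊕ τ) ℤ) (g : Fin I → Fin κ → MvPolynomial (Fin d ⊕ τ) ℤ)
    (α : Type) (T : Finset α) (s : α → Fin d → ℤ) (z : α → τ → ℤ),
    (∀ t ∈ T, (∀ i, eval (Sum.elim (s t) (z t)) (F i) = 0) ∧ (∀ b, |s t b| ≤ (Y : ℤ)) ∧
      (∀ j l, |eval (Sum.elim (s t) (z t)) (g j l)| ≤ (X : ℤ) ^ W) ∧
      (Matrix.of fun i j => eval (Sum.elim (s t) (z t)) (pderiv (Sum.inr j) (F i))).det ≠ 0 ∧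
      |(Matrix.of fun i j => eval (Sum.elim (s t) (z t)) (pderiv (Sum.inr j) (F i))).det| <
        2 ^ X) →
    ∃ T' ⊆ T, T.card ≤ X ^ (2 * (d + Fintype.card τ) + 3) * T'.card ∧
      ∃ c : (Fin d → Fin (I * W)) → Fin I → ℤ, c ≠ 0 ∧ (∀ e l, |c e l| ≤ (X : ℤ) ^ (D * W)) ∧
        ∀ t ∈ T', ∀ l, ∑ e, ∑ j, c e j * ((∏ b, s t b ^ (e b : ℕ)) *
          eval (Sum.elim (s t) (z t)) (g j l)) = 0

/-! ## Algebraic integers of degree `κ` -/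

/-- the value of the vector `v` of integers -/
noncomputable def vl {κ : ℕ} (a : ℂ) (v : Fin κ → ℤ) : ℂ := ∑ l, (v l : ℂ) * a ^ (l : ℕ)

/-- the vector `t (ξ l) - t o` (so vectors with coordinates zero can be given by points `t` without
coordinate zero) -/
def cv {N κ : ℕ} (o : Fin N) (ξ : Fin κ → Fin N) (t : Fin N → ℤ) : Fin κ → ℤ :=
  fun l => t (ξ l) - t o

/-- algebraic integers `α ν t`, `t ∈ Om ν`, of degree `κ`: the minimal polynomial is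
`A ^ κ + ∑ (t (μ l) - t o) * A ^ l` -/
structure AD {N : ℕ} (Om : ℕ → Finset (Fin N → ℤ)) (κ : ℕ) where
  o : Fin N
  μ : Fin κ → Fin N
  α : ℕ → (Fin N → ℤ) → ℂ
  pos : 1 ≤ κ
  root : ∀ᶠ ν in (Uf : Filter ℕ), ∀ t ∈ Om ν, α ν t ^ κ + vl (α ν t) (cv o μ t) = 0
  lin : ∀ᶠ ν in (Uf : Filter ℕ), ∀ t ∈ Om ν, ∀ c : Fin κ → ℤ, vl (α ν t) c = 0 → c = 0

/-- restriction to a subset -/
def AD.res {N : ℕ} {Om Om' : ℕ → Finset (Fin N → ℤ)} {κ : ℕ} (A : AD Om κ)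
    (h : ∀ᶠ ν in (Uf : Filter ℕ), Om' ν ⊆ Om ν) : AD Om' κ where
  o := A.o
  μ := A.μ
  α := A.α
  pos := A.pos
  root := by
    filter_upwards [A.root, h] with ν a b t ht using a t (b ht)
  lin := by
    filter_upwards [A.lin, h] with ν a b t ht using a t (b ht)

/-- D2: the determinant method for an algebraic integer `z = ∑ ζ l * a ^ l` with
`z ^ r = ∑ F l (t) * a ^ l`. -/
def S_relF : Prop := ∀ d k κ N : ℕ, 1 ≤ κ → ∃ I D X₀ C : ℕ, 1 ≤ I ∧ ∀ X Y W B r : ℕ, X₀ ≤ X →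
  1 ≤ Y → Y ≤ X ^ k → 1 ≤ W → 1 ≤ r → I * (I * W) ^ d ≤ X → Y ≤ 2 ^ B →
  C * (B + 1) * (r + 1) ≤ X → 2 ^ (C * (B + 1)) ≤ X ^ W →
  ∀ (ι : Fin d → Fin N) (o : Fin N) (μ : Fin κ → Fin N) (H : MvPolynomial (Option (Fin d)) ℤ)
    (b0 : MvPolynomial (Fin d) ℤ) (b : Fin N → MvPolynomial (Option (Fin d)) ℤ)
    (F : Fin κ → MvPolynomial (Fin N) ℤ) (T : Finset (Fin N → ℤ)) (θ : (Fin N → ℤ) → ℤ)
    (a : (Fin N → ℤ) → ℂ) (ζ : (Fin N → ℤ) → Fin κ → ℤ),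
    (∀ t ∈ T, (∀ j, |t j| ≤ (Y : ℤ)) ∧ (∀ l, |ζ t l| ≤ 2 ^ B) ∧ ζ t ≠ 0 ∧
      a t ^ κ + vl (a t) (cv o μ t) = 0 ∧ (∀ c : Fin κ → ℤ, vl (a t) c = 0 → c = 0) ∧
      vl (a t) (ζ t) ^ r = vl (a t) (fun l => eval t (F l)) ∧
      eval (fun o => o.elim (θ t) fun b => t (ι b)) H = 0 ∧
      (∀ j, eval (fun b => t (ι b)) b0 * t j =
        eval (fun o => o.elim (θ t) fun b => t (ι b)) (b j)) ∧
      eval (fun o => o.elim (θ t) fun b => t (ι b)) (pderiv none H) ≠ 0 ∧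
      |eval (fun o => o.elim (θ t) fun b => t (ι b)) (pderiv none H)| ≤ 2 ^ B ∧
      eval (fun b => t (ι b)) b0 ≠ 0 ∧ |eval (fun b => t (ι b)) b0| ≤ 2 ^ B) →
    ∃ T' ⊆ T, T.card ≤ X ^ (2 * (d + N + κ) + 5) * T'.card ∧
      ∃ c : (Fin d → Fin (I * W)) → Fin I → ℤ, c ≠ 0 ∧ (∀ e l, |c e l| ≤ (X : ℤ) ^ (D * W)) ∧
        ∀ t ∈ T', ∑ e, ∑ j : Fin I, (c e j : ℂ) * ((∏ b, (t (ι b) : ℂ) ^ (e b : ℕ)) *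
          vl (a t) (ζ t) ^ (j : ℕ)) = 0

/-- D3: if `z ^ r = F (t)` at the points of a large set, then `z` satisfies an equation of bounded
degree with mild coefficients on a large subset. -/
def S_relZ : Prop := ∀ (Y : ℕ → ℕ) (N : ℕ) (Om : ℕ → Finset (Fin N → ℤ)),
  (∀ m : ℕ, ∀ᶠ ν in (Uf : Filter ℕ), m ≤ Y ν) → Big Y Om → Bdd Y Om → ∀ (G : GD Y Om) (κ : ℕ)
  (A : AD Om κ) (F : ℕ → Fin κ → MvPolynomial (Fin N) ℤ), (∀ l, Mild Y fun ν => F ν l) →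
  ∀ (r w : ℕ → ℕ) (ζ : ℕ → (Fin N → ℤ) → Fin κ → ℤ), (∀ᶠ ν in (Uf : Filter ℕ), 1 ≤ r ν) →
  Few Y r → Few Y w → (∀ᶠ ν in (Uf : Filter ℕ), ∀ t ∈ Om ν, (∀ l, |ζ ν t l| ≤ 2 ^ w ν) ∧
    ζ ν t ≠ 0 ∧ vl (A.α ν t) (ζ ν t) ^ r ν = vl (A.α ν t) (fun l => eval t (F ν l))) →
  ∃ (I : ℕ) (Om' : ℕ → Finset (Fin N → ℤ)) (c : ℕ → Fin I → MvPolynomial (Fin G.d) ℤ),
    (∀ᶠ ν in (Uf : Filter ℕ), Om' ν ⊆ Om ν) ∧ Big Y Om' ∧ (∀ j, Mild Y fun ν => c ν j) ∧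
    (∀ᶠ ν in (Uf : Filter ℕ), ∃ j, c ν j ≠ 0) ∧ ∀ᶠ ν in (Uf : Filter ℕ), ∀ t ∈ Om' ν,
      ∑ j : Fin I, ((eval (fun q => t (G.ι q)) (c ν j) : ℤ) : ℂ) *
        vl (A.α ν t) (ζ ν t) ^ (j : ℕ) = 0

/-! ## The function field of the algebraic points -/

/-- the value at a point of the hypersurface with complex coordinate `θ` -/
noncomputable def evC {d : ℕ} (θ : ℂ) (s : Fin d → ℤ) : MvPolynomial (Option (Fin d)) ℤ →+* ℂ :=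
  eval₂Hom (Int.castRingHom ℂ) (fun o => o.elim θ fun b => (s b : ℂ))

/-- function field data of the points `(t, α ν t)`; the independent coordinates are given -/
structure GDA (Y : ℕ → ℕ) {N : ℕ} (Om : ℕ → Finset (Fin N → ℤ)) {κ : ℕ} (A : AD Om κ) (d : ℕ)
    (ι : Fin d → Fin N) where
  /-- the value of the generator `Θ` -/
  θ : ℕ → (Fin N → ℤ) → ℂ
  θv : ℕ → (Fin N → ℤ) → Fin κ → ℤ
  h : ℕ → MvPolynomial (Option (Fin d)) ℤ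
  b0 : ℕ → MvPolynomial (Fin d) ℤ
  /-- `some j` for `t j` and `none` for `α` -/
  b : Option (Fin N) → ℕ → MvPolynomial (Option (Fin d)) ℤ
  hPB : PB Y h
  b0PB : PB Y b0
  bPB : ∀ j, PB Y (b j)
  θbd : ∃ C : ℕ, ∀ᶠ ν in (Uf : Filter ℕ), ∀ t ∈ Om ν, ∀ l, |θv ν t l| ≤ ((Y ν : ℤ) + 2) ^ C
  θeq : ∀ᶠ ν in (Uf : Filter ℕ), ∀ t ∈ Om ν, θ ν t = vl (A.α ν t) (θv ν t)
  ev_h : ∀ᶠ ν in (Uf : Filter ℕ), ∀ t ∈ Om ν, evC (θ ν t) (fun b => t (ι b)) (h ν) = 0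
  ev_b : ∀ᶠ ν in (Uf : Filter ℕ), ∀ t ∈ Om ν, ∀ j : Option (Fin N),
    ((eval (fun b => t (ι b)) (b0 ν) : ℤ) : ℂ) * j.elim (A.α ν t) (fun j => (t j : ℂ)) =
      evC (θ ν t) (fun b => t (ι b)) (b j ν)
  hne : ∀ᶠ ν in (Uf : Filter ℕ), h ν ≠ 0
  hone : ∀ᶠ ν in (Uf : Filter ℕ), ¬ InP (h ν) 1
  b0ne : ∀ᶠ ν in (Uf : Filter ℕ), b0 ν ≠ 0
  /-- every equation on a large subset is a consequence of `h = 0` -/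
  div : ∀ p : ℕ → MvPolynomial (Option (Fin d)) ℤ, PB Y p → ∀ Om' : ℕ → Finset (Fin N → ℤ),
    (∀ᶠ ν in (Uf : Filter ℕ), Om' ν ⊆ Om ν) → Big Y Om' →
    (∀ᶠ ν in (Uf : Filter ℕ), ∀ t ∈ Om' ν, evC (θ ν t) (fun b => t (ι b)) (p ν) = 0) →
    ∀ᶠ ν in (Uf : Filter ℕ), InP (h ν) (p ν)

/-- E1: a generic set with algebraic integers has function field data. -/
def S_gda : Prop := ∀ (Y : ℕ → ℕ) (N : ℕ) (Om : ℕ → Finset (Fin N → ℤ)),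
  (∀ m : ℕ, ∀ᶠ ν in (Uf : Filter ℕ), m ≤ Y ν) → Gen Y Om → Bdd Y Om → ∀ (κ : ℕ) (A : AD Om κ),
  ∃ G : GD Y Om, Nonempty (GDA Y Om A G.d G.ι)

/-- E2: `h` is irreducible. -/
def S_irrA : Prop := ∀ (Y : ℕ → ℕ) (N : ℕ) (Om : ℕ → Finset (Fin N → ℤ)),
  (∀ m : ℕ, ∀ᶠ ν in (Uf : Filter ℕ), m ≤ Y ν) → Big Y Om → Bdd Y Om → ∀ (κ : ℕ) (A : AD Om κ)
  (d : ℕ) (ι : Fin d → Fin N) (G : GDA Y Om A d ι), ∀ᶠ ν in (Uf : Filter ℕ), Irr (G.h ν)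

/-- E3: a mild polynomial which vanishes on a large subset vanishes on the generic fibre. -/
def S_starA : Prop := ∀ (Y : ℕ → ℕ) (N : ℕ) (Om : ℕ → Finset (Fin N → ℤ)),
  (∀ m : ℕ, ∀ᶠ ν in (Uf : Filter ℕ), m ≤ Y ν) → Big Y Om → Bdd Y Om → ∀ (G : GD Y Om) (κ : ℕ)
  (A : AD Om κ) (G' : GDA Y Om A G.d G.ι) (p : ℕ → MvPolynomial (Option (Fin G.d)) ℤ), Mild Y p →
  ∀ Om' : ℕ → Finset (Fin N → ℤ), (∀ᶠ ν in (Uf : Filter ℕ), Om' ν ⊆ Om ν) → Big Y Om' →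
    (∀ᶠ ν in (Uf : Filter ℕ), ∀ t ∈ Om' ν, evC (G'.θ ν t) (fun b => t (G.ι b)) (p ν) = 0) →
    ∀ᶠ ν in (Uf : Filter ℕ), InP (G'.h ν) (p ν)

/-- E4: if `z ^ r = F` at the points, with `r` arbitrary, then a bounded power of `F` is an `r`-th
power in the function field. -/
def S_rtA : Prop := ∀ (Y : ℕ → ℕ) (N : ℕ) (Om : ℕ → Finset (Fin N → ℤ)),
  (∀ m : ℕ, ∀ᶠ ν in (Uf : Filter ℕ), m ≤ Y ν) → Big Y Om → Bdd Y Om → ∀ (G : GD Y Om) (κ : ℕ)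
  (A : AD Om κ) (G' : GDA Y Om A G.d G.ι) (F : ℕ → Fin κ → MvPolynomial (Fin N) ℤ),
  (∀ l, Mild Y fun ν => F ν l) → ∀ Ac Fc : ℕ → MvPolynomial (Option (Fin G.d)) ℤ, Mild Y Ac →
  Mild Y Fc → (∀ᶠ ν in (Uf : Filter ℕ), ¬ InP (G'.h ν) (Ac ν)) →
  (∀ᶠ ν in (Uf : Filter ℕ), ∀ t ∈ Om ν, evC (G'.θ ν t) (fun b => t (G.ι b)) (Ac ν) *
    vl (A.α ν t) (fun l => eval t (F ν l)) = evC (G'.θ ν t) (fun b => t (G.ι b)) (Fc ν)) →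
  ∀ (r w : ℕ → ℕ) (ζ : ℕ → (Fin N → ℤ) → Fin κ → ℤ), (∀ᶠ ν in (Uf : Filter ℕ), 1 ≤ r ν) →
  Few Y r → Few Y w → (∀ᶠ ν in (Uf : Filter ℕ), ∀ t ∈ Om ν, (∀ l, |ζ ν t l| ≤ 2 ^ w ν) ∧
    ζ ν t ≠ 0 ∧ vl (A.α ν t) (ζ ν t) ^ r ν = vl (A.α ν t) (fun l => eval t (F ν l))) →
  ∃ K : ℕ, ∀ᶠ ν in (Uf : Filter ℕ), ∃ κ' : ℕ, 1 ≤ κ' ∧ κ' ≤ K ∧
    ∃ g₁ g₂ : MvPolynomial (Option (Fin G.d)) ℤ, ¬ InP (G'.h ν) g₁ ∧ ¬ InP (G'.h ν) g₂ ∧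
      InP (G'.h ν) (Fc ν ^ κ' * g₂ ^ r ν - Ac ν ^ κ' * g₁ ^ r ν)

/-! ## Heights -/

/-- F1: heights on the function field: if a bounded power of a sum of monomials without vanishing
partial sum is an `r`-th power, `r` large, then the ratios of the monomials have bounded height. -/
def S_algH : Prop := ∀ d N c₀ n k₀ : ℕ, ∃ R₀ B : ℕ, ∀ (h : MvPolynomial (Option (Fin d)) ℤ)
  (b0 : MvPolynomial (Fin d) ℤ) (b : Fin N → MvPolynomial (Option (Fin d)) ℤ), Irr h →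
  h.totalDegree ≤ c₀ → b0 ≠ 0 → b0.totalDegree ≤ c₀ →
  (∀ j, (b j).totalDegree ≤ c₀ ∧ ¬ InP h (b j)) →
  ∀ (L : Type) [Field L] (φ : MvPolynomial (Option (Fin d)) ℤ →+* L),
  (∀ p, φ p = 0 ↔ InP h p) → (∀ y : L, ∃ p q, φ q ≠ 0 ∧ y = φ p / φ q) →
  ∃ H : L → ℕ, (∀ f g, f ≠ 0 → g ≠ 0 → H (f * g) ≤ H f + H g) ∧
    (∀ f (k : ℕ), f ≠ 0 → H (f ^ k) = k * H f) ∧ (∀ f, H f⁻¹ = H f) ∧
    (∀ j, H (φ (b j) / φ (rename some b0)) ≤ B) ∧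
    (∀ f, H f = 0 → ∃ p : Polynomial ℤ, p ≠ 0 ∧ p.natDegree ≤ B ∧
      p.eval₂ (Int.castRingHom L) f = 0) ∧
    ∀ (e : Fin n → Fin N → ℕ) (u : Fin n → ℤ), (∀ i, u i ≠ 0) →
      (∀ J : Finset (Fin n), J.Nonempty →
        ∑ i ∈ J, (u i : L) * ∏ j, (φ (b j) / φ (rename some b0)) ^ e i j ≠ 0) →
      ∀ (κ r : ℕ) (η : L), 1 ≤ κ → κ ≤ k₀ → R₀ ≤ r →
      (∑ i, (u i : L) * ∏ j, (φ (b j) / φ (rename some b0)) ^ e i j) ^ κ = η ^ r →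
      ∀ i i', H ((∏ j, (φ (b j) / φ (rename some b0)) ^ e i j) /
        ∏ j, (φ (b j) / φ (rename some b0)) ^ e i' j) ≤ B

/-! ## Terms -/

/-- the values of the terms -/
noncomputable def TA {Y : ℕ → ℕ} {N' n : ℕ} (S : TD Y N' n) {N κ : ℕ}
    (α : ℕ → (Fin N → ℤ) → ℂ) (o : Fin N) (ξ : Fin N' → Fin κ → Fin N) (ν : ℕ) (i : Fin n)
    (t : Fin N → ℤ) : ℂ :=
  (S.u ν i : ℂ) * ∏ j, vl (α ν t) (cv o (ξ j) t) ^ S.e ν i j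

/-- G1: coordinates of powers of sums of terms. -/
def S_coord : Prop := ∀ (Y : ℕ → ℕ), (∀ m : ℕ, ∀ᶠ ν in (Uf : Filter ℕ), m ≤ Y ν) →
  ∀ (N N' n κ : ℕ) (o : Fin N) (μ : Fin κ → Fin N) (ξ : Fin N' → Fin κ → Fin N)
  (S : TD Y N' n) (e₀ : ℕ),
  1 ≤ κ → ∃ F : ℕ → Fin κ → MvPolynomial (Fin N) ℤ, (∀ l, Mild Y fun ν => F ν l) ∧
    ∀ (ν : ℕ) (t : Fin N → ℤ) (α : ℕ → (Fin N → ℤ) → ℂ),
      α ν t ^ κ + vl (α ν t) (cv o μ t) = 0 →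
      vl (α ν t) (fun l => eval t (F ν l)) = (∑ i, TA S α o ξ ν i t) ^ e₀

/-- G2: **the core theorem for algebraic points**: if a bounded power of a sum of terms without
vanishing partial sum is an `r`-th power of an algebraic integer of exponential size, `r` infinite,
then there are heights `H` on the monomials such that the ratios of the terms have bounded height,
and monomials of height zero are constant on large subsets. -/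
def S_coreH : Prop := ∀ (Y : ℕ → ℕ) (N : ℕ) (Om : ℕ → Finset (Fin N → ℤ)),
  (∀ m : ℕ, ∀ᶠ ν in (Uf : Filter ℕ), m ≤ Y ν) → Big Y Om → Bdd Y Om → ∀ (κ : ℕ) (A : AD Om κ)
  (N' n : ℕ) (ξ : Fin N' → Fin κ → Fin N) (S : TD Y N' n), 1 ≤ n →
  (∀ᶠ ν in (Uf : Filter ℕ), ∀ t ∈ Om ν, ∀ j, vl (A.α ν t) (cv A.o (ξ j) t) ≠ 0) →
  (∀ᶠ ν in (Uf : Filter ℕ), ∀ t ∈ Om ν, ∀ J : Finset (Fin n), J.Nonempty →
    ∑ i ∈ J, TA S A.α A.o ξ ν i t ≠ 0) →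
  ∀ (e₀ : ℕ) (r w : ℕ → ℕ) (ζ : ℕ → (Fin N → ℤ) → Fin κ → ℤ), 1 ≤ e₀ →
  (∀ m : ℕ, ∀ᶠ ν in (Uf : Filter ℕ), m ≤ r ν) → Few Y r → Few Y w →
  (∀ᶠ ν in (Uf : Filter ℕ), ∀ t ∈ Om ν, (∀ l, |ζ ν t l| ≤ 2 ^ w ν) ∧
    (∑ i, TA S A.α A.o ξ ν i t) ^ e₀ = vl (A.α ν t) (ζ ν t) ^ r ν) →
  ∃ (Om₁ : ℕ → Finset (Fin N → ℤ)) (C : ℕ) (H : ℕ → (Fin N' → ℤ) → ℕ),
    (∀ᶠ ν in (Uf : Filter ℕ), Om₁ ν ⊆ Om ν) ∧ Big Y Om₁ ∧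
    (∀ᶠ ν in (Uf : Filter ℕ), (∀ a b, H ν (a + b) ≤ H ν a + H ν b) ∧
      (∀ (k : ℕ) a, H ν (k • a) = k * H ν a) ∧ (∀ a, H ν (-a) = H ν a) ∧
      (∀ j, H ν (Pi.single j 1) ≤ C) ∧
      ∀ i i', H ν (fun j => (S.e ν i j : ℤ) - (S.e ν i' j : ℤ)) ≤ C) ∧
    ∀ a : ℕ → Fin N' → ℤ, (∀ᶠ ν in (Uf : Filter ℕ), H ν (a ν) = 0) →
      ∀ Om₂ : ℕ → Finset (Fin N → ℤ), (∀ᶠ ν in (Uf : Filter ℕ), Om₂ ν ⊆ Om₁ ν) → Big Y Om₂ →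
      ∃ Om₃ : ℕ → Finset (Fin N → ℤ), (∀ᶠ ν in (Uf : Filter ℕ), Om₃ ν ⊆ Om₂ ν) ∧ Big Y Om₃ ∧
        ∀ᶠ ν in (Uf : Filter ℕ), ∀ t ∈ Om₃ ν, ∀ t' ∈ Om₃ ν,
          ∏ j, vl (A.α ν t) (cv A.o (ξ j) t) ^ (a ν j) =
            ∏ j, vl (A.α ν t') (cv A.o (ξ j) t') ^ (a ν j)

/-- G3: **blocks of equal powers.** -/
def S_blkA : Prop := ∀ (Y : ℕ → ℕ) (N : ℕ) (Om : ℕ → Finset (Fin N → ℤ)),
  (∀ m : ℕ, ∀ᶠ ν in (Uf : Filter ℕ), m ≤ Y ν) → Big Y Om → Bdd Y Om → ∀ (κ : ℕ) (A : AD Om κ)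
  (m N' : ℕ) (ξb ξs : Fin m → Fin κ → Fin N) (ξc : Fin N' → Fin κ → Fin N),
  (∀ᶠ ν in (Uf : Filter ℕ), ∀ t ∈ Om ν, (∀ i, vl (A.α ν t) (cv A.o (ξb i) t) ≠ 0) ∧
    (∀ i, vl (A.α ν t) (cv A.o (ξs i) t) ≠ 0) ∧
    ∀ j, vl (A.α ν t) (cv A.o (ξc j) t) ≠ 0) →
  ∀ (d w r : ℕ → ℕ) (f : ℕ → Fin N' → ℕ) (u : ℕ → Fin m → ℤ), Few Y d → Few Y w → Few Y r →
  (∀ j, Few Y fun ν => f ν j) → (∀ c : ℕ, ∀ᶠ ν in (Uf : Filter ℕ), c ≤ d ν) →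
  (∀ c : ℕ, ∀ᶠ ν in (Uf : Filter ℕ), c ≤ r ν) →
  (∀ᶠ ν in (Uf : Filter ℕ), ∀ i, u ν i ≠ 0 ∧ |u ν i| ≤ 2 ^ w ν) →
  (∀ᶠ ν in (Uf : Filter ℕ), ∀ t ∈ Om ν, ∀ J : Finset (Fin m), J.Nonempty →
    ∑ i ∈ J, (u ν i : ℂ) * (vl (A.α ν t) (cv A.o (ξs i) t) *
      vl (A.α ν t) (cv A.o (ξb i) t) ^ d ν) ≠ 0) →
  ∀ (e₀ : ℕ) (ζ : ℕ → (Fin N → ℤ) → Fin κ → ℤ), 1 ≤ e₀ →
  (∀ᶠ ν in (Uf : Filter ℕ), ∀ t ∈ Om ν, (∀ l, |ζ ν t l| ≤ 2 ^ w ν) ∧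
    ((∏ j, vl (A.α ν t) (cv A.o (ξc j) t) ^ f ν j) * ∑ i, (u ν i : ℂ) *
      (vl (A.α ν t) (cv A.o (ξs i) t) * vl (A.α ν t) (cv A.o (ξb i) t) ^ d ν)) ^ e₀ =
        vl (A.α ν t) (ζ ν t) ^ r ν) →
  ∃ Om' : ℕ → Finset (Fin N → ℤ), (∀ᶠ ν in (Uf : Filter ℕ), Om' ν ⊆ Om ν) ∧ Big Y Om' ∧
    ∀ i i', ∀ᶠ ν in (Uf : Filter ℕ), ∀ t ∈ Om' ν, ∀ t' ∈ Om' ν,
      vl (A.α ν t) (cv A.o (ξb i) t) * vl (A.α ν t') (cv A.o (ξb i') t') =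
        vl (A.α ν t') (cv A.o (ξb i) t') * vl (A.α ν t) (cv A.o (ξb i') t)

/-! ## Number fields -/

/-- H1: coordinates of elements of small height of a number field. -/
def S_code : Prop := ∀ P κ : ℕ, ∃ C : ℕ, ∀ (K : Type) [Field K] [NumberField K] (Y : ℕ)
  (y : Fin P → K), Module.finrank ℚ K ≤ κ → 1 ≤ Y →
  (∀ j, Height.mulHeight₁ (y j) ≤ (Y : ℝ)) →
  ∃ (k : ℕ) (K₀ : IntermediateField ℚ K) (α : K₀) (m : Fin k → ℤ) (D D₁ : ℕ)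
    (v : Fin P → Fin k → ℤ), 1 ≤ k ∧ k ≤ κ ∧ (∀ j, y j ∈ K₀) ∧ D ≠ 0 ∧ D₁ ≠ 0 ∧
    D ≤ (Y + 1) ^ C ∧ D₁ ≤ (Y + 1) ^ C ∧ (∀ l, |m l| ≤ ((Y : ℤ) + 1) ^ C) ∧
    (∀ j l, |v j l| ≤ ((Y : ℤ) + 1) ^ C) ∧ α ^ k + ∑ l, (m l : K₀) * α ^ (l : ℕ) = 0 ∧
    (∀ c : Fin k → ℤ, ∑ l, (c l : K₀) * α ^ (l : ℕ) = 0 → c = 0) ∧
    (∀ j, (D : K) * (D₁ * y j) = ∑ l, (v j l : K) * (α : K) ^ (l : ℕ)) ∧
    ∀ (z : K₀) (B : ℝ), IsIntegral ℤ z → (∀ τ : K₀ →+* ℂ, ‖τ z‖ ≤ B) →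
      ∃ ζ : Fin k → ℤ, (D : K₀) * z = ∑ l, (ζ l : K₀) * α ^ (l : ℕ) ∧
        ∀ l, ((|ζ l| : ℤ) : ℝ) ≤ B * ((Y : ℝ) + 1) ^ C

end Pool.Agent.N741.HC
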