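import Mathlib
import Pool.Agent.N741.HB.Stm3

/-!
# Statements for the project HB, fourth part: solutions in number fields of bounded degree
-/

set_option autoImplicit false

namespace Pool.Agent.N741.HC

open Filter MvPolynomial Pool.Agent.Y902.GN Pool.Agent.N741.HB

/-- integral coordinates, with respect to the powers of an algebraic integer `α` of degree
`k ≤ κ`, of complex numbers proportional to `b i` and to `s i` -/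
structure Code (κ C Y m : ℕ) (b s : Fin m → ℂ) where
  k : ℕ
  α : ℂ
  lam : ℂ
  mu : ℂ
  D : ℕ
  mm : Fin k → ℤ
  vb : Fin m → Fin k → ℤ
  vs : Fin m → Fin k → ℤ
  vp : Fin m → Fin k → ℤ
  v0 : Fin k → ℤ
  hk1 : 1 ≤ k
  hk : k ≤ κ
  lam0 : lam ≠ 0
  mu0 : mu ≠ 0
  D0 : D ≠ 0
  Dbd : D ≤ (Y + 2) ^ C
  mbd : ∀ l, |mm l| ≤ ((Y : ℤ) + 2) ^ C
  vbbd : ∀ i l, |vb i l| ≤ ((Y : ℤ) + 2) ^ C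
  vsbd : ∀ i l, |vs i l| ≤ ((Y : ℤ) + 2) ^ C
  vpbd : ∀ i l, |vp i l| ≤ ((Y : ℤ) + 2) ^ C
  v0bd : ∀ l, |v0 l| ≤ ((Y : ℤ) + 2) ^ C
  root : α ^ k + vl α mm = 0
  lin : ∀ c : Fin k → ℤ, vl α c = 0 → c = 0
  evb : ∀ i, vl α (vb i) = lam * b i
  evs : ∀ i, vl α (vs i) = mu * s i
  evp : ∀ i, vl α (vp i) = D * (vl α (vs i) * vl α (vb i))
  ev0 : vl α v0 ≠ 0

/-- I1: coordinates of the solutions in number fields of degree at most `κ`. -/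
def S_sol : Prop := ∀ n m κ E : ℕ, ∃ C : ℕ, ∀ (K : Type) [Field K] [NumberField K] (σ : K →+* ℂ)
  (Y : ℕ) (x : Fin n → K) (s : Fin m → K) (s0 z : K) (u : Fin m → ℤ) (v : ℤ)
  (h : Fin m → Fin n → ℤ) (r w U : ℕ), Module.finrank ℚ K ≤ κ → 1 ≤ Y → x ≠ 0 →
  Height.mulHeight x ≤ (Y : ℝ) → (∀ i, s i ≠ 0 ∧ Height.mulHeight₁ (s i) ≤ (Y : ℝ) ^ E) →
  s0 ≠ 0 → Height.mulHeight₁ s0 ≤ (Y : ℝ) ^ E → (∀ i j, |h i j| ≤ (Y : ℤ) ^ E) →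
  (∀ i, |u i| ≤ (U : ℤ)) → |v| ≤ (U : ℤ) → 1 ≤ U → 1 ≤ r →
  (v : K) * s0 * z ^ r = ∑ i, (u i : K) * (s i * (∑ j, (h i j : K) * x j) ^ (r * w)) →
  ∃ (Q : Code κ C Y m (fun i => σ (∑ j, (h i j : K) * x j)) (fun i => σ (s i))) (e : ℕ)
    (ζ : Fin Q.k → ℤ), 1 ≤ e ∧ e ≤ κ ∧
    (∀ l, |ζ l| ≤ ((U : ℤ) * ((Y : ℤ) + 2)) ^ (C * (r * w + r))) ∧
    ((Q.D : ℂ) ^ r * vl Q.α Q.v0 ^ (r - 1) * ∑ i, ((v ^ (r - 1) * u i : ℤ) : ℂ) *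
      (vl Q.α (Q.vs i) * vl Q.α (Q.vb i) ^ (r * w))) ^ e = vl Q.α ζ ^ r

/-- I2: constant ratios in a block whose sum is, up to small factors, a high power. -/
def S_cstP : Prop := ∀ (Y : ℕ → ℕ), (∀ m : ℕ, ∀ᶠ ν in (Uf : Filter ℕ), m ≤ Y ν) →
  ∀ (ι : Type) (T : ℕ → Finset ι), Big Y T → ∀ (κ C m : ℕ) (b s : ℕ → ι → Fin m → ℂ)
  (d w r : ℕ → ℕ) (u : ℕ → Fin m → ℤ), Few Y d → Few Y w → Few Y r →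
  (∀ c : ℕ, ∀ᶠ ν in (Uf : Filter ℕ), c ≤ d ν) → (∀ c : ℕ, ∀ᶠ ν in (Uf : Filter ℕ), c ≤ r ν) →
  (∀ᶠ ν in (Uf : Filter ℕ), ∀ i, u ν i ≠ 0 ∧ |u ν i| ≤ 2 ^ w ν) →
  (∀ᶠ ν in (Uf : Filter ℕ), ∀ τ ∈ T ν, (∀ i, b ν τ i ≠ 0 ∧ s ν τ i ≠ 0) ∧
    (∀ J : Finset (Fin m), J.Nonempty → ∑ i ∈ J, (u ν i : ℂ) * (s ν τ i * b ν τ i ^ d ν) ≠ 0) ∧
    ∃ (Q : Code κ C (Y ν) m (b ν τ) (s ν τ)) (e : ℕ) (ζ : Fin Q.k → ℤ), 1 ≤ e ∧ e ≤ κ ∧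
      (∀ l, |ζ l| ≤ 2 ^ w ν) ∧ ((Q.D : ℂ) ^ r ν * vl Q.α Q.v0 ^ (r ν - 1) * ∑ i, (u ν i : ℂ) *
        (vl Q.α (Q.vs i) * vl Q.α (Q.vb i) ^ d ν)) ^ e = vl Q.α ζ ^ r ν) →
  ∃ T' : ℕ → Finset ι, (∀ᶠ ν in (Uf : Filter ℕ), T' ν ⊆ T ν) ∧ Big Y T' ∧
    ∀ i i', ∀ᶠ ν in (Uf : Filter ℕ), ∀ τ ∈ T' ν, ∀ τ' ∈ T' ν,
      b ν τ i * b ν τ' i' = b ν τ' i * b ν τ i'

/-- I3: constant ratios in a minimal vanishing block. -/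
def S_cst0 : Prop := ∀ (Y : ℕ → ℕ), (∀ m : ℕ, ∀ᶠ ν in (Uf : Filter ℕ), m ≤ Y ν) →
  ∀ (ι : Type) (T : ℕ → Finset ι), Big Y T → ∀ (κ C m : ℕ) (b s : ℕ → ι → Fin m → ℂ)
  (d w : ℕ → ℕ) (u : ℕ → Fin m → ℤ), Few Y d → Few Y w →
  (∀ c : ℕ, ∀ᶠ ν in (Uf : Filter ℕ), c ≤ d ν) →
  (∀ᶠ ν in (Uf : Filter ℕ), ∀ i, u ν i ≠ 0 ∧ |u ν i| ≤ 2 ^ w ν) →
  (∀ᶠ ν in (Uf : Filter ℕ), ∀ τ ∈ T ν, (∀ i, b ν τ i ≠ 0 ∧ s ν τ i ≠ 0) ∧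
    ∑ i, (u ν i : ℂ) * (s ν τ i * b ν τ i ^ d ν) = 0 ∧
    (∀ J : Finset (Fin m), J.Nonempty → J ≠ Finset.univ →
      ∑ i ∈ J, (u ν i : ℂ) * (s ν τ i * b ν τ i ^ d ν) ≠ 0) ∧
    Nonempty (Code κ C (Y ν) m (b ν τ) (s ν τ))) →
  ∃ T' : ℕ → Finset ι, (∀ᶠ ν in (Uf : Filter ℕ), T' ν ⊆ T ν) ∧ Big Y T' ∧
    ∀ i i', ∀ᶠ ν in (Uf : Filter ℕ), ∀ τ ∈ T' ν, ∀ τ' ∈ T' ν,
      b ν τ i * b ν τ' i' = b ν τ' i * b ν τ i'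

/-- the linear form over `ℂ` -/
noncomputable def linC {n : ℕ} (h : Fin n → ℤ) (y : Fin n → ℂ) : ℂ := ∑ j, (h j : ℂ) * y j

/-- I4: **linear sections**: all solutions in all number fields of degree at most `κ` lie in linear
sections over few linear subspaces. -/
def S_covA : Prop := ∀ (n m q E κ : ℕ) (ε : ℝ), 0 < ε → ∃ (R : ℕ) (δ : ℝ), 0 < δ ∧
  ∀ Y : ℕ, 1 ≤ Y → ∀ r w : Fin q → ℕ,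
  (∀ k, R ≤ r k ∧ 1 ≤ w k ∧ ((r k * w k : ℕ) : ℝ) ≤ (Y : ℝ) ^ δ) →
  ∀ (u : Fin q → Fin m → ℤ) (v : Fin q → ℤ),
  (∀ k i, ((|u k i| : ℤ) : ℝ) ≤ Real.exp ((Y : ℝ) ^ δ)) →
  (∀ k, ((|v k| : ℤ) : ℝ) ≤ Real.exp ((Y : ℝ) ^ δ)) →
  ∀ (h : Fin q → Fin m → Fin n → ℤ), (∀ k i j, |h k i j| ≤ (Y : ℤ) ^ E) →
  ∃ L : Finset (Submodule ℂ (Fin n → ℂ)), (L.card : ℝ) ≤ (Y : ℝ) ^ ε ∧
    ∀ (K : Type) [Field K] [NumberField K] (σ : K →+* ℂ), Module.finrank ℚ K ≤ κ →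
    ∀ (x : Fin n → K) (s : Fin q → Fin m → K) (s0 z : Fin q → K),
      x ≠ 0 → Height.mulHeight x ≤ (Y : ℝ) →
      (∀ k i, s k i ≠ 0 ∧ Height.mulHeight₁ (s k i) ≤ (Y : ℝ) ^ E) →
      (∀ k, s0 k ≠ 0 ∧ Height.mulHeight₁ (s0 k) ≤ (Y : ℝ) ^ E) →
      (∀ k, (v k : K) * s0 k * z k ^ r k =
        ∑ i, (u k i : K) * (s k i * (∑ j, (h k i j : K) * x j) ^ (r k * w k)) ∧
          (v k = 0 → z k = 0)) →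
      ∃ V ∈ L, (fun j => σ (x j)) ∈ V ∧ ∃ (l : Fin q → Fin n → ℤ) (c : Fin q → K),
        (∀ k, z k = c k * (∑ j, (l k j : K) * x j) ^ w k) ∧ ∀ y ∈ V, ∀ k,
          (v k : ℂ) * σ (s0 k) * (σ (c k) * linC (l k) y ^ w k) ^ r k =
            ∑ i, (u k i : ℂ) * (σ (s k i) * linC (h k i) y ^ (r k * w k)) ∧
          (v k = 0 → σ (c k) * linC (l k) y ^ w k = 0)

end Pool.Agent.N741.HC
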