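import Mathlib
import Pool.Agent.N741.HB.Stm4

/-!
# Statements for the project HK: sums of products of powers over all number fields of bounded degree

Equations `∑ u i * ∏ j, y j ^ e i j = v * (∏ j, y j ^ e₀ j) * z ^ r` over all number fields of degree
at most `κ`, with `y j` of height at most `Y`, free exponents and `z` of exponential height.
-/

set_option autoImplicit false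

namespace Pool.Agent.N741.HK

open Filter MvPolynomial Pool.Agent.Y902.GN Pool.Agent.N741.HB Pool.Agent.N741.HC

/-- K2: a vector of bounded height is, up to a vector of height zero, bounded. -/
def S_dio : Prop := ∀ P C : ℕ, ∃ B : ℕ, ∀ H : (Fin P → ℤ) → ℕ,
  (∀ a b, H (a + b) ≤ H a + H b) → (∀ (k : ℕ) a, H (k • a) = k * H a) → (∀ a, H (-a) = H a) →
  (∀ j, H (Pi.single j 1) ≤ C) → ∀ a, H a ≤ C →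
  ∃ a' : Fin P → ℤ, (∀ j, |a' j| ≤ (B : ℤ)) ∧ H (a - a') = 0

/-- integral coordinates, with respect to the powers of an algebraic integer `α` of degree
`k ≤ κ`, of the complex numbers `D * b j` -/
structure Cod (κ C Y P : ℕ) (b : Fin P → ℂ) where
  k : ℕ
  α : ℂ
  D : ℕ
  mm : Fin k → ℤ
  vb : Fin P → Fin k → ℤ
  hk1 : 1 ≤ k
  hk : k ≤ κ
  D0 : D ≠ 0
  Dbd : D ≤ (Y + 2) ^ C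
  mbd : ∀ l, |mm l| ≤ ((Y : ℤ) + 2) ^ C
  vbbd : ∀ j l, |vb j l| ≤ ((Y : ℤ) + 2) ^ C
  root : α ^ k + vl α mm = 0
  lin : ∀ c : Fin k → ℤ, vl α c = 0 → c = 0
  evb : ∀ j, vl α (vb j) = D * b j

/-- K1: coordinates of the solutions in number fields of degree at most `κ`. -/
def S_solP : Prop := ∀ n P κ : ℕ, ∃ C : ℕ, ∀ (K : Type) [Field K] [NumberField K] (σ : K →+* ℂ)
  (Y : ℕ) (y : Fin P → K) (z : K) (u : Fin n → ℤ) (v : ℤ) (e : Fin n → Fin P → ℕ)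
  (e₀ : Fin P → ℕ) (r M U : ℕ), Module.finrank ℚ K ≤ κ → 1 ≤ Y →
  (∀ j, y j ≠ 0 ∧ Height.mulHeight₁ (y j) ≤ (Y : ℝ)) →
  (∀ i, |u i| ≤ (U : ℤ)) → |v| ≤ (U : ℤ) → 1 ≤ U → 1 ≤ r → (∀ i, ∑ j, e i j ≤ M) →
  ∑ j, e₀ j ≤ M →
  ∑ i, (u i : K) * ∏ j, y j ^ e i j = (v : K) * (∏ j, y j ^ e₀ j) * z ^ r →
  ∃ (Q : Cod κ C Y P (fun j => σ (y j))) (e' : ℕ) (ζ : Fin Q.k → ℤ), 1 ≤ e' ∧ e' ≤ κ ∧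
    (∀ l, |ζ l| ≤ ((U : ℤ) * ((Y : ℤ) + 2)) ^ (C * ((M + 1) * (r + 1)))) ∧
    (∑ i, ((v ^ (r - 1) * u i : ℤ) : ℂ) *
      ((Q.D : ℂ) ^ (r + r * M - (∑ j, e i j + (r - 1) * ∑ j, e₀ j)) *
        ∏ j, vl Q.α (Q.vb j) ^ (e i j + (r - 1) * e₀ j))) ^ e' = vl Q.α ζ ^ r

/-- K3: heights on the monomials in the `b j`, if a bounded power of a sum of terms without
vanishing partial sum is an `r`-th power. -/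
def S_monK : Prop := ∀ (Y : ℕ → ℕ), (∀ m : ℕ, ∀ᶠ ν in (Uf : Filter ℕ), m ≤ Y ν) →
  ∀ (ι : Type) (T : ℕ → Finset ι), Big Y T → ∀ (κ C n P : ℕ) (b : ℕ → ι → Fin P → ℂ), 1 ≤ n →
  (∀ᶠ ν in (Uf : Filter ℕ), ∀ τ ∈ T ν, ∀ τ' ∈ T ν, b ν τ = b ν τ' → τ = τ') →
  ∀ (e : ℕ → Fin n → Fin P → ℕ) (g : ℕ → Fin n → ℕ) (G r w : ℕ → ℕ) (u : ℕ → Fin n → ℤ),
  Few Y w → Few Y r → Few Y G → (∀ c : ℕ, ∀ᶠ ν in (Uf : Filter ℕ), c ≤ r ν) →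
  (∀ᶠ ν in (Uf : Filter ℕ), ∀ i, g ν i + ∑ j, e ν i j = G ν) →
  (∀ᶠ ν in (Uf : Filter ℕ), ∀ i, u ν i ≠ 0 ∧ |u ν i| ≤ 2 ^ w ν) →
  (∀ᶠ ν in (Uf : Filter ℕ), ∀ τ ∈ T ν, (∀ j, b ν τ j ≠ 0) ∧
    (∀ J : Finset (Fin n), J.Nonempty → ∑ i ∈ J, (u ν i : ℂ) * ∏ j, b ν τ j ^ e ν i j ≠ 0) ∧
    ∃ (Q : Cod κ C (Y ν) P (b ν τ)) (e' : ℕ) (ζ : Fin Q.k → ℤ), 1 ≤ e' ∧ e' ≤ κ ∧
      (∀ l, |ζ l| ≤ 2 ^ w ν) ∧ (∑ i, (u ν i : ℂ) * ((Q.D : ℂ) ^ g ν i *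
        ∏ j, vl Q.α (Q.vb j) ^ e ν i j)) ^ e' = vl Q.α ζ ^ r ν) →
  ∃ (T' : ℕ → Finset ι) (C' : ℕ) (H : ℕ → (Fin P → ℤ) → ℕ),
    (∀ᶠ ν in (Uf : Filter ℕ), T' ν ⊆ T ν) ∧ Big Y T' ∧
    (∀ᶠ ν in (Uf : Filter ℕ), (∀ a b, H ν (a + b) ≤ H ν a + H ν b) ∧
      (∀ (k : ℕ) a, H ν (k • a) = k * H ν a) ∧ (∀ a, H ν (-a) = H ν a) ∧
      (∀ j, H ν (Pi.single j 1) ≤ C') ∧
      ∀ i i', H ν (fun j => (e ν i j : ℤ) - (e ν i' j : ℤ)) ≤ C') ∧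
    ∀ a : ℕ → Fin P → ℤ, (∀ᶠ ν in (Uf : Filter ℕ), H ν (a ν) = 0) →
      ∀ T₂ : ℕ → Finset ι, (∀ᶠ ν in (Uf : Filter ℕ), T₂ ν ⊆ T' ν) → Big Y T₂ →
      ∃ T₃ : ℕ → Finset ι, (∀ᶠ ν in (Uf : Filter ℕ), T₃ ν ⊆ T₂ ν) ∧ Big Y T₃ ∧
        ∀ᶠ ν in (Uf : Filter ℕ), ∀ τ ∈ T₃ ν, ∀ τ' ∈ T₃ ν,
          ∏ j, b ν τ j ^ a ν j = ∏ j, b ν τ' j ^ a ν j

/-- the equation over a number field `K` of degree at most `κ`, for `y j ∈ K` not zero, of height at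
most `Y` (relative to `K`), `b = σ (y)` for an embedding `σ` of `K` -/
def EqK (κ Y : ℕ) {n P : ℕ} (u : Fin n → ℤ) (v : ℤ) (e : Fin n → Fin P → ℕ) (e₀ : Fin P → ℕ)
    (r : ℕ) (b : Fin P → ℂ) : Prop :=
  ∃ (K : Type) (_ : Field K) (_ : NumberField K) (σ : K →+* ℂ) (y : Fin P → K) (z : K),
    Module.finrank ℚ K ≤ κ ∧ (∀ j, y j ≠ 0 ∧ Height.mulHeight₁ (y j) ≤ (Y : ℝ)) ∧
    (∀ j, σ (y j) = b j) ∧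
    ∑ i, (u i : K) * ∏ j, y j ^ e i j = (v : K) * (∏ j, y j ^ e₀ j) * z ^ r

/-- no vanishing partial sums -/
def NV {n P : ℕ} (u : Fin n → ℤ) (e : Fin n → Fin P → ℕ) (b : Fin P → ℂ) : Prop :=
  ∀ J : Finset (Fin n), J.Nonempty → ∑ i ∈ J, (u i : ℂ) * ∏ j, b j ^ e i j ≠ 0

/-- K4: the ultraproduct of many solutions, for `R = ν` and `δ = 1 / (ν + 1)`. -/
def S_ult : Prop := ∀ (n P κ : ℕ) (ε : ℝ), 1 ≤ n → 0 < ε → ∀ (Y : ℕ → ℕ) (ι : Type)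
  (T : ℕ → Finset ι) (u : ℕ → Fin n → ℤ) (v : ℕ → ℤ) (e : ℕ → ι → Fin n → Fin P → ℕ)
  (e₀ : ℕ → ι → Fin P → ℕ) (r : ℕ → ι → ℕ) (b : ℕ → ι → Fin P → ℂ),
  (∀ᶠ ν in (Uf : Filter ℕ), 1 ≤ Y ν ∧ (Y ν : ℝ) ^ ε < ((T ν).card : ℝ)) →
  (∀ᶠ ν in (Uf : Filter ℕ), ∀ i, u ν i ≠ 0 ∧
    ((|u ν i| : ℤ) : ℝ) ≤ Real.exp ((Y ν : ℝ) ^ (1 / ((ν : ℝ) + 1)))) →
  (∀ᶠ ν in (Uf : Filter ℕ), ((|v ν| : ℤ) : ℝ) ≤ Real.exp ((Y ν : ℝ) ^ (1 / ((ν : ℝ) + 1)))) →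
  (∀ᶠ ν in (Uf : Filter ℕ), ∀ τ ∈ T ν, ν ≤ r ν τ ∧
    (r ν τ : ℝ) ≤ (Y ν : ℝ) ^ (1 / ((ν : ℝ) + 1)) ∧
    (∀ i j, (e ν τ i j : ℝ) ≤ (Y ν : ℝ) ^ (1 / ((ν : ℝ) + 1))) ∧
    (∀ j, (e₀ ν τ j : ℝ) ≤ (Y ν : ℝ) ^ (1 / ((ν : ℝ) + 1))) ∧
    NV (u ν) (e ν τ) (b ν τ) ∧
    EqK κ (Y ν) (u ν) (v ν) (e ν τ) (e₀ ν τ) (r ν τ) (b ν τ)) →
  (∀ᶠ ν in (Uf : Filter ℕ), ∀ τ ∈ T ν, ∀ τ' ∈ T ν, e ν τ = e ν τ' → b ν τ = b ν τ' → τ = τ') →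
  ∃ (T' : ℕ → Finset ι) (C : ℕ) (H : ℕ → (Fin P → ℤ) → ℕ) (e' : ℕ → Fin n → Fin P → ℕ),
    (∀ m : ℕ, ∀ᶠ ν in (Uf : Filter ℕ), m ≤ Y ν) ∧
    (∀ᶠ ν in (Uf : Filter ℕ), T' ν ⊆ T ν) ∧ Big Y T' ∧
    (∀ᶠ ν in (Uf : Filter ℕ), ∀ τ ∈ T' ν, e ν τ = e' ν) ∧
    (∀ᶠ ν in (Uf : Filter ℕ), (∀ a b, H ν (a + b) ≤ H ν a + H ν b) ∧
      (∀ (k : ℕ) a, H ν (k • a) = k * H ν a) ∧ (∀ a, H ν (-a) = H ν a) ∧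
      (∀ j, H ν (Pi.single j 1) ≤ C) ∧
      ∀ i i', H ν (fun j => (e' ν i j : ℤ) - (e' ν i' j : ℤ)) ≤ C) ∧
    ∀ a : ℕ → Fin P → ℤ, (∀ᶠ ν in (Uf : Filter ℕ), H ν (a ν) = 0) →
      ∀ T₂ : ℕ → Finset ι, (∀ᶠ ν in (Uf : Filter ℕ), T₂ ν ⊆ T' ν) → Big Y T₂ →
      ∃ T₃ : ℕ → Finset ι, (∀ᶠ ν in (Uf : Filter ℕ), T₃ ν ⊆ T₂ ν) ∧ Big Y T₃ ∧
        ∀ᶠ ν in (Uf : Filter ℕ), ∀ τ ∈ T₃ ν, ∀ τ' ∈ T₃ ν,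
          ∏ j, b ν τ j ^ a ν j = ∏ j, b ν τ' j ^ a ν j

/-! ## Counting -/

/-- the value under an embedding of a nonzero element of height at most `B` (relative to `K`) of a
number field `K` of degree at most `κ` -/
def Small (κ : ℕ) (B : ℝ) (c : ℂ) : Prop :=
  ∃ (K : Type) (_ : Field K) (_ : NumberField K) (σ : K →+* ℂ) (y : K),
    Module.finrank ℚ K ≤ κ ∧ y ≠ 0 ∧ Height.mulHeight₁ y ≤ B ∧ σ y = c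

/-- the ratios of the coordinates of `a` and `a'` differ by quotients of small numbers -/
def Close (κ : ℕ) (B : ℝ) {n : ℕ} (a a' : Fin n → ℂ) : Prop :=
  ∀ i i', ∃ c c' : ℂ, Small κ B c ∧ Small κ B c' ∧ a i * a' i' * c' = a' i * a i' * c

/-- `a i = ∏ j, b j ^ e i j` is a solution -/
def SolK (P κ R : ℕ) (δ : ℝ) (Y : ℕ) {n : ℕ} (u : Fin n → ℤ) (v : ℤ) (a : Fin n → ℂ) : Prop :=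
  ∃ (b : Fin P → ℂ) (e : Fin n → Fin P → ℕ) (e₀ : Fin P → ℕ) (r : ℕ), R ≤ r ∧
    (r : ℝ) ≤ (Y : ℝ) ^ δ ∧ (∀ i j, (e i j : ℝ) ≤ (Y : ℝ) ^ δ) ∧ (∀ j, (e₀ j : ℝ) ≤ (Y : ℝ) ^ δ) ∧
    NV u e b ∧ EqK κ Y u v e e₀ r b ∧ ∀ i, a i = ∏ j, b j ^ e i j

/-- K5: **few classes of solutions over all number fields of degree at most `κ`.** -/
def S_rk : Prop := ∀ (n P κ : ℕ) (ε : ℝ), 1 ≤ n → 0 < ε → ∃ (R C : ℕ) (δ : ℝ), 0 < δ ∧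
  ∀ Y : ℕ, 1 ≤ Y → ∀ (u : Fin n → ℤ) (v : ℤ),
  (∀ i, u i ≠ 0 ∧ ((|u i| : ℤ) : ℝ) ≤ Real.exp ((Y : ℝ) ^ δ)) →
  ((|v| : ℤ) : ℝ) ≤ Real.exp ((Y : ℝ) ^ δ) → ∀ T : Finset (Fin n → ℂ),
  (∀ a ∈ T, SolK P κ R δ Y u v a) →
  (∀ a ∈ T, ∀ a' ∈ T, a ≠ a' → ¬ Close κ ((Y : ℝ) ^ C) a a') → (T.card : ℝ) ≤ (Y : ℝ) ^ ε

/-- `β i = σ (∏ j, y j ^ f i j)` and
`∑ u i * s i * (∏ j, y j ^ f i j) ^ d = v * s0 * (∏ j, y j ^ e₀ j) * z ^ r` -/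
def SolF (P κ R : ℕ) (δ : ℝ) (Y : ℕ) {n : ℕ} (u : Fin n → ℤ) (v : ℤ) (β : Fin n → ℂ) : Prop :=
  ∃ (K : Type) (_ : Field K) (_ : NumberField K) (σ : K →+* ℂ) (y : Fin P → K) (s : Fin n → K)
    (s0 z : K) (f : Fin n → Fin P → ℕ) (e₀ : Fin P → ℕ) (d r : ℕ), Module.finrank ℚ K ≤ κ ∧
    R ≤ d ∧ (d : ℝ) ≤ (Y : ℝ) ^ δ ∧ R ≤ r ∧ (r : ℝ) ≤ (Y : ℝ) ^ δ ∧
    (∀ i j, (f i j : ℝ) ≤ (Y : ℝ) ^ δ) ∧ (∀ j, (e₀ j : ℝ) ≤ (Y : ℝ) ^ δ) ∧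
    (∀ j, y j ≠ 0 ∧ Height.mulHeight₁ (y j) ≤ (Y : ℝ)) ∧
    (∀ i, s i ≠ 0 ∧ Height.mulHeight₁ (s i) ≤ (Y : ℝ)) ∧ s0 ≠ 0 ∧
    Height.mulHeight₁ s0 ≤ (Y : ℝ) ∧ (∀ i, β i = σ (∏ j, y j ^ f i j)) ∧
    (∀ J : Finset (Fin n), J.Nonempty →
      ∑ i ∈ J, (u i : K) * (s i * (∏ j, y j ^ f i j) ^ d) ≠ 0) ∧
    ∑ i, (u i : K) * (s i * (∏ j, y j ^ f i j) ^ d) = (v : K) * s0 * (∏ j, y j ^ e₀ j) * z ^ r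

/-- K6: **few solutions of equations of Fermat type over all number fields of degree at most `κ`.** -/
def S_rk2 : Prop := ∀ (n P κ : ℕ) (ε : ℝ), 1 ≤ n → 0 < ε → ∃ (R : ℕ) (δ : ℝ), 0 < δ ∧
  ∀ Y : ℕ, 1 ≤ Y → ∀ (u : Fin n → ℤ) (v : ℤ),
  (∀ i, u i ≠ 0 ∧ ((|u i| : ℤ) : ℝ) ≤ Real.exp ((Y : ℝ) ^ δ)) →
  ((|v| : ℤ) : ℝ) ≤ Real.exp ((Y : ℝ) ^ δ) → ∀ T : Finset (Fin n → ℂ),
  (∀ β ∈ T, SolF P κ R δ Y u v β) →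
  (∀ β ∈ T, ∀ β' ∈ T, (∀ i i', β i * β' i' = β' i * β i') → β = β') →
    (T.card : ℝ) ≤ (Y : ℝ) ^ ε

end Pool.Agent.N741.HK
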