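import Mathlib
import Pool.Agent.N741.HB.Mild
import Pool.Agent.Y902.GN.Cov

/-!
# Blocks of equal powers whose sum is a high power of a large integer
-/

set_option autoImplicit false

namespace Pool.Agent.N741.HB

open Filter Pool.Agent.Y902.GN

/-- **Blocks of equal powers.** -/
theorem blockZ (hcore : S_core) {n k : ℕ} {Y : ℕ → ℕ}
    (hY : ∀ m : ℕ, ∀ᶠ ν in (Uf : Filter ℕ), m ≤ Y ν)
    {A : ℕ → Finset (Fin n → ℤ)} (hA : Big Y A) (c : ℕ → ℤ)
    (hx : ∀ᶠ ν in (Uf : Filter ℕ), ∀ x ∈ A ν, ∀ j, x j + c ν ≠ 0 ∧ |x j + c ν| ≤ (Y ν : ℤ))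
    (b s : ℕ → (Fin n → ℤ) → Fin k → ℤ) (s0 : ℕ → (Fin n → ℤ) → ℤ)
    (hbb : ∀ᶠ ν in (Uf : Filter ℕ), ∀ x ∈ A ν, ∀ i, b ν x i ≠ 0 ∧ |b ν x i| ≤ (Y ν : ℤ))
    (hss : ∀ᶠ ν in (Uf : Filter ℕ), ∀ x ∈ A ν, ∀ i, s ν x i ≠ 0 ∧ |s ν x i| ≤ (Y ν : ℤ))
    (hs0 : ∀ᶠ ν in (Uf : Filter ℕ), ∀ x ∈ A ν, s0 ν x ≠ 0 ∧ |s0 ν x| ≤ (Y ν : ℤ))
    (d w r : ℕ → ℕ) (hd : Few Y d) (hw : Few Y w) (hrF : Few Y r)
    (hl : ∀ m : ℕ, ∀ᶠ ν in (Uf : Filter ℕ), m ≤ d ν)
    (hr : ∀ m : ℕ, ∀ᶠ ν in (Uf : Filter ℕ), m ≤ r ν)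
    (u : ℕ → Fin k → ℤ) (hu : ∀ᶠ ν in (Uf : Filter ℕ), ∀ i, u ν i ≠ 0 ∧ |u ν i| ≤ 2 ^ w ν)
    (v : ℕ → ℤ) (hv0 : ∀ᶠ ν in (Uf : Filter ℕ), v ν ≠ 0 ∧ |v ν| ≤ 2 ^ w ν)
    (z : ℕ → (Fin n → ℤ) → ℤ)
    (h0 : ∀ᶠ ν in (Uf : Filter ℕ), ∀ x ∈ A ν, (v ν * s0 ν x) ^ (r ν - 1) *
      ∑ i, u ν i * (s ν x i * b ν x i ^ d ν) = z ν x ^ r ν)
    (hv : ∀ᶠ ν in (Uf : Filter ℕ), ∀ x ∈ A ν, ∀ K : Finset (Fin k), K.Nonempty →
      ∑ i ∈ K, u ν i * (s ν x i * b ν x i ^ d ν) ≠ 0) :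
    ∃ A' : ℕ → Finset (Fin n → ℤ), (∀ᶠ ν in (Uf : Filter ℕ), A' ν ⊆ A ν) ∧ Big Y A' ∧
      ∀ i i', ∀ᶠ ν in (Uf : Filter ℕ), ∀ x ∈ A' ν, ∀ x' ∈ A' ν,
        b ν x i * b ν x' i' = b ν x' i * b ν x i' := by
  classical
  -- the points
  obtain ⟨pt, hpt⟩ : ∃ pt : ℕ → (Fin n → ℤ) → Fin (k + (k + (n + 1))) → ℤ, ∀ ν x, pt ν x =
      Fin.append (b ν x) (Fin.append (s ν x) (Fin.append (fun j => x j + c ν)
        (fun _ => s0 ν x))) := ⟨_, fun _ _ => rfl⟩
  obtain ⟨ee, hee⟩ : ∃ ee : ℕ → Fin k → Fin (k + (k + (n + 1))) → ℕ, ∀ ν i, ee ν i =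
      Fin.append (fun i' => if i' = i then d ν else 0)
        (Fin.append (fun i' => if i' = i then 1 else 0) (Fin.append (fun _ => 0)
          (fun _ => r ν - 1))) :=
    ⟨_, fun _ _ => rfl⟩
  have hprod : ∀ ν x i, ∏ q, pt ν x q ^ ee ν i q =
      s ν x i * b ν x i ^ d ν * s0 ν x ^ (r ν - 1) := by
    intro ν x i
    rw [hpt, hee, Fin.prod_univ_add, Fin.prod_univ_add, Fin.prod_univ_add]
    simp only [Fin.append_left, Fin.append_right]
    have e1 : ∏ i', b ν x i' ^ (if i' = i then d ν else 0) = b ν x i ^ d ν := by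
      rw [Finset.prod_eq_single i]
      · simp
      · intro b _ hb
        simp [hb]
      · intro h
        exact absurd (Finset.mem_univ i) h
    have e2 : ∏ i', s ν x i' ^ (if i' = i then 1 else 0) = s ν x i := by
      rw [Finset.prod_eq_single i]
      · simp
      · intro b _ hb
        simp [hb]
      · intro h
        exact absurd (Finset.mem_univ i) h
    have e3 : ∏ j : Fin n, (x j + c ν) ^ 0 = 1 := by simp
    have e4 : ∏ _j : Fin 1, s0 ν x ^ (r ν - 1) = s0 ν x ^ (r ν - 1) := by simp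
    rw [e1, e2, e3, e4]
    ring
  have hptl : ∀ ν x i, pt ν x (Fin.castAdd (k + (n + 1)) i) = b ν x i := by
    intro ν A j
    rw [hpt, Fin.append_left]
  have hptr : ∀ ν x j, pt ν x (Fin.natAdd k (Fin.natAdd k (Fin.castAdd 1 j))) = x j + c ν := by
    intro ν A j
    rw [hpt, Fin.append_right, Fin.append_right, Fin.append_left]
  have hinj : ∀ᶠ ν in (Uf : Filter ℕ), Set.InjOn (pt ν) (A ν) := by
    refine Filter.Eventually.of_forall fun ν x _ x' _ hpp => ?_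
    funext j
    have h6 := congrFun hpp (Fin.natAdd k (Fin.natAdd k (Fin.castAdd 1 j)))
    rw [hptr, hptr] at h6
    linarith
  have hOm := big_image hA pt hinj
  have hb : Bdd Y (fun ν => (A ν).image (pt ν)) := by
    filter_upwards [hx, hbb, hss, hs0] with ν a1 a2 a3 a4 t ht q
    obtain ⟨x, hx, rfl⟩ := Finset.mem_image.1 ht
    rw [hpt]
    refine Fin.addCases (fun j => ?_) (fun q => ?_) q
    · rw [Fin.append_left]
      exact a2 x hx j
    · rw [Fin.append_right]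
      refine Fin.addCases (fun j => ?_) (fun q => ?_) q
      · rw [Fin.append_left]
        exact a3 x hx j
      · rw [Fin.append_right]
        refine Fin.addCases (fun j => ?_) (fun q => ?_) q
        · rw [Fin.append_left]
          exact a1 x hx j
        · rw [Fin.append_right]
          exact a4 x hx
  have hfew : Few Y (fun ν => ∑ i, ∑ q, ee ν i q) := by
    have h4 := (Few.const hY (k * (k + (k + (n + 1))))).mul (Few.add hY (Few.add hY hd hrF)
      (Few.const hY 1))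
    refine h4.mono (Filter.Eventually.of_forall fun ν => ?_)
    calc ∑ i, ∑ q, ee ν i q
        ≤ ∑ _i : Fin k, ∑ _q : Fin (k + (k + (n + 1))), (d ν + r ν + 1) := by
          refine Finset.sum_le_sum fun i _ => Finset.sum_le_sum fun q _ => ?_
          rw [hee]
          refine Fin.addCases (fun j => ?_) (fun q => ?_) q
          · rw [Fin.append_left]
            split_ifs <;> omega
          · rw [Fin.append_right]
            refine Fin.addCases (fun j => ?_) (fun q => ?_) q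
            · rw [Fin.append_left]
              split_ifs <;> omega
            · rw [Fin.append_right]
              refine Fin.addCases (fun j => ?_) (fun q => ?_) q
              · rw [Fin.append_left]
                omega
              · rw [Fin.append_right]
                omega
      _ = _ := by simp; ring
  let S : TD Y (k + (k + (n + 1))) k :=
    { e := ee
      u := fun ν i => u ν i * v ν ^ (r ν - 1)
      w := fun ν => w ν + w ν * r ν
      he := hfew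
      hu := by
        filter_upwards [hu, hv0] with ν a1 a2 i
        refine ⟨mul_ne_zero (a1 i).1 (pow_ne_zero _ a2.1), ?_⟩
        rw [abs_mul, pow_add]
        refine mul_le_mul (a1 i).2 ?_ (abs_nonneg _) (by positivity)
        rw [abs_pow, pow_mul]
        exact (pow_le_pow_left₀ (abs_nonneg _) a2.2 _).trans
          (pow_le_pow_right₀ (one_le_pow₀ (by norm_num)) (by omega))
      hw := Few.add hY hw (hw.mul hrF) }
  have hST : ∀ ν x i, S.T ν i (pt ν x) = (v ν * s0 ν x) ^ (r ν - 1) *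
      (u ν i * (s ν x i * b ν x i ^ d ν)) := by
    intro ν x i
    show u ν i * v ν ^ (r ν - 1) * ∏ q, pt ν x q ^ ee ν i q = _
    rw [hprod, mul_pow]
    ring
  have hv' : ∀ᶠ ν in (Uf : Filter ℕ), ∀ t ∈ (A ν).image (pt ν), ∀ J : Finset (Fin k),
      J.Nonempty → ∑ i ∈ J, S.T ν i t ≠ 0 := by
    filter_upwards [hv, hv0, hs0] with ν hv a1 a2 t ht J hJ
    obtain ⟨x, hx, rfl⟩ := Finset.mem_image.1 ht
    rw [Finset.sum_congr rfl fun i _ => hST ν x i, ← Finset.mul_sum]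
    exact mul_ne_zero (pow_ne_zero _ (mul_ne_zero a1.1 (a2 x hx).1)) (hv x hx J hJ)
  -- the number `z`
  have hkey : ∀ ν t, t ∈ (A ν).image (pt ν) → ∃ x, x ∈ A ν ∧ pt ν x = t := by
    intro ν t ht
    exact Finset.mem_image.1 ht
  choose! key hkey1 hkey2 using hkey
  have hz : ∀ᶠ ν in (Uf : Filter ℕ), ∀ t ∈ (A ν).image (pt ν),
      |z ν (key ν t)| ≤ 2 ^ ((w ν + (Nat.log 2 (Y ν + 2) + 1)) * r ν +
        (k + w ν + (d ν + 1) * (Nat.log 2 (Y ν + 2) + 1))) ∧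
      ∑ i, S.T ν i t = z ν (key ν t) ^ r ν := by
    filter_upwards [h0, hr 1, hu, hv0, hs0, hbb, hss] with ν a1 a2 a3 a4 a5 a6 a7 t ht
    have hx := hkey1 ν t ht
    have hxt := hkey2 ν t ht
    have e1 : ∑ i, S.T ν i t = z ν (key ν t) ^ r ν := by
      rw [← hxt, Finset.sum_congr rfl fun i _ => hST ν _ i, ← Finset.mul_sum, hxt]
      exact a1 _ hx
    refine ⟨?_, e1⟩
    set x := key ν t with hxd
    set L := Nat.log 2 (Y ν + 2) + 1 with hL
    have b1 : (Y ν : ℤ) ≤ 2 ^ L := by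
      have h1 : Y ν + 2 ≤ 2 ^ L := (Nat.lt_pow_succ_log_self (by norm_num) _).le
      have h2 : ((Y ν : ℤ) + 2) ≤ 2 ^ L := by exact_mod_cast h1
      linarith
    have b2 : |v ν * s0 ν x| ≤ 2 ^ (w ν + L) := by
      rw [abs_mul, pow_add]
      exact mul_le_mul a4.2 ((a5 x hx).2.trans b1) (abs_nonneg _) (by positivity)
    have b3 : |∑ i, u ν i * (s ν x i * b ν x i ^ d ν)| ≤ 2 ^ (k + w ν + (d ν + 1) * L) := by
      refine (Finset.abs_sum_le_sum_abs _ _).trans ?_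
      have e5 : ∀ i ∈ Finset.univ, |u ν i * (s ν x i * b ν x i ^ d ν)| ≤
          2 ^ (w ν + (d ν + 1) * L) := by
        intro i _
        rw [abs_mul, abs_mul, abs_pow, pow_add, add_mul, one_mul, pow_add, mul_comm (2 ^ (d ν * L))]
        refine mul_le_mul (a3 i).2 (mul_le_mul ((a7 x hx i).2.trans b1) ?_ (by positivity)
          (by positivity)) (by positivity) (by positivity)
        rw [mul_comm, pow_mul]
        exact pow_le_pow_left₀ (abs_nonneg _) ((a6 x hx i).2.trans b1) _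
      refine (Finset.sum_le_card_nsmul _ _ _ e5).trans ?_
      rw [Finset.card_univ, Fintype.card_fin, nsmul_eq_mul, add_assoc, pow_add (2 : ℤ) k]
      refine mul_le_mul_of_nonneg_right ?_ (by positivity)
      exact_mod_cast Nat.lt_two_pow_self.le
    have b4 : |z ν x| ≤ |z ν x ^ r ν| := by
      rw [abs_pow]
      by_cases h1 : z ν x = 0
      · rw [h1]
        simp
      · exact le_self_pow₀ (Int.one_le_abs h1) (by omega)
    refine b4.trans ?_
    rw [← a1 x hx, abs_mul, pow_add]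
    refine mul_le_mul ?_ b3 (abs_nonneg _) (by positivity)
    rw [abs_pow, pow_mul]
    exact (pow_le_pow_left₀ (abs_nonneg _) b2 _).trans
      (pow_le_pow_right₀ (one_le_pow₀ (by norm_num)) (by omega))
  have hwz : Few Y (fun ν => (w ν + (Nat.log 2 (Y ν + 2) + 1)) * r ν +
        (k + w ν + (d ν + 1) * (Nat.log 2 (Y ν + 2) + 1))) :=
    ((hw.add hY (few_log hY)).mul hrF).add hY (((Few.const hY k).add hY hw).add hY
      ((hd.add hY (Few.const hY 1)).mul (few_log hY)))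
  -- the ratios are constant
  obtain ⟨A1, g1, g2, g3⟩ := Big.const_all (Y := Y) (Finset.univ : Finset (Fin k × Fin k))
    (fun p _ t => ((t (Fin.castAdd (k + (n + 1)) p.1) : ℚ) /
      (t (Fin.castAdd (k + (n + 1)) p.2) : ℚ))) hOm (by
      rintro ⟨i, i0⟩ _ A' hA' hbig'
      obtain ⟨Om1, h1, h2, h3⟩ := hcore Y _ k A' hY hbig'
        (by filter_upwards [hb, hA'] with ν a1 a2 t ht using a1 t (a2 ht)) S
        (by filter_upwards [hv', hA'] with ν a1 a2 t ht using a1 t (a2 ht)) r _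
        (fun ν t => z ν (key ν t)) hr hrF hwz
        (by filter_upwards [hz, hA'] with ν a1 a2 t ht using a1 t (a2 ht))
      obtain ⟨C, h3⟩ := h3 i i0
      obtain ⟨Om', h4, h5, h6⟩ := h2.fiber
        (fun _ t => ((t (Fin.castAdd (k + (n + 1)) i) : ℚ) /
          (t (Fin.castAdd (k + (n + 1)) i0) : ℚ)))
        (fun ν => (Om1 ν).image fun t =>
          ((t (Fin.castAdd (k + (n + 1)) i) : ℚ) / (t (Fin.castAdd (k + (n + 1)) i0) : ℚ)))
        (Filter.Eventually.of_forall fun ν t ht => Finset.mem_image_of_mem _ ht) (by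
          intro m
          rcases Nat.eq_zero_or_pos m with hm | hm
          · subst hm
            filter_upwards [hY 1] with ν hν
            rw [pow_zero]; exact hν
          filter_upwards [h1, hA', h2.nonempty, h3, hbb, hss, hl ((C + 2 + 1) * (4 * m)),
            hY (2 ^ (4 * m)), hY 4, hu, hv0, hs0] with ν k1 k2 k3 k4 k5 k5' k6 k7 k8 k9 k10 k11
          obtain ⟨t', ht'⟩ := k3
          have hmem : ∀ t ∈ Om1 ν, ∃ x ∈ A ν, t = pt ν x := fun t ht => by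
            obtain ⟨x, hx, rfl⟩ := Finset.mem_image.1 (k2 (k1 ht))
            exact ⟨x, hx, rfl⟩
          obtain ⟨x', hx', rfl⟩ := hmem t' ht'
          refine few_ratio (C' := C + 2 + 1) (d := d ν) hm (by omega) k6 k7 k8
            ((b ν x' i : ℚ) / (b ν x' i0 : ℚ)) _ ?_
          intro v' hv'
          obtain ⟨t, ht, rfl⟩ := Finset.mem_image.1 hv'
          obtain ⟨x, hx, rfl⟩ := hmem t ht
          obtain ⟨r1, r', hr1, hr', hr1', hr2, hrr⟩ := k4 _ ht _ ht'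
          have G := k5 x hx
          have G' := k5 x' hx'
          have Q := k5' x hx
          have Q' := k5' x' hx'
          have n1 := pow_ne_zero (r ν - 1) (mul_ne_zero k10.1 (k11 x hx).1)
          have n2 := pow_ne_zero (r ν - 1) (mul_ne_zero k10.1 (k11 x' hx').1)
          have e1 : (v ν * s0 ν x) ^ (r ν - 1) * (v ν * s0 ν x') ^ (r ν - 1) *
              (r1 * ((u ν i * (s ν x i * b ν x i ^ d ν)) *
              (u ν i0 * (s ν x' i0 * b ν x' i0 ^ d ν)))) =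
              (v ν * s0 ν x) ^ (r ν - 1) * (v ν * s0 ν x') ^ (r ν - 1) *
              (r' * ((u ν i * (s ν x' i * b ν x' i ^ d ν)) *
              (u ν i0 * (s ν x i0 * b ν x i0 ^ d ν)))) := by
            have := hrr
            rw [hST, hST, hST, hST] at this
            linear_combination this
          have e1' := mul_left_cancel₀ (mul_ne_zero n1 n2) e1
          have e2 : (r1 * s ν x i * s ν x' i0) * (b ν x i * b ν x' i0) ^ d ν =
              (r' * s ν x' i * s ν x i0) * (b ν x' i * b ν x i0) ^ d ν := by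
            apply mul_left_cancel₀ (mul_ne_zero (k9 i).1 (k9 i0).1)
            rw [mul_pow, mul_pow]
            linear_combination e1'
          have a0 : (1 : ℤ) ≤ (Y ν : ℤ) + 2 := by omega
          have hbd : ∀ {r a b : ℤ}, |r| ≤ ((Y ν : ℤ) + 2) ^ C → |a| ≤ (Y ν : ℤ) →
              |b| ≤ (Y ν : ℤ) → |r * a * b| ≤ ((Y ν : ℤ) + 2) ^ (C + 2 + 1) := by
            intro r a b q1 q2 q3
            rw [abs_mul, abs_mul]
            have q4 := mul_le_mul (mul_le_mul q1 (q2.trans (show (Y ν : ℤ) ≤ (Y ν : ℤ) + 2 by omega))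
              (abs_nonneg _) (by positivity)) (q3.trans (show (Y ν : ℤ) ≤ (Y ν : ℤ) + 2 by omega))
              (abs_nonneg _) (by positivity)
            refine q4.trans ?_
            rw [← pow_succ, ← pow_succ]
            exact pow_le_pow_right₀ a0 (by omega)
          refine ⟨b ν x i * b ν x' i0, b ν x' i * b ν x i0, r1 * s ν x i * s ν x' i0,
            r' * s ν x' i * s ν x i0,
            mul_ne_zero (G i).1 (G' i0).1, mul_ne_zero (G' i).1 (G i0).1,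
            mul_ne_zero (mul_ne_zero hr1 (Q i).1) (Q' i0).1,
            mul_ne_zero (mul_ne_zero hr' (Q' i).1) (Q i0).1,
            hbd hr1' (Q i).2 (Q' i0).2, hbd hr2 (Q' i).2 (Q i0).2, e2, ?_⟩
          rw [hptl, hptl]
          have n1 : (b ν x' i : ℚ) ≠ 0 := by exact_mod_cast (G' i).1
          have n2 : (b ν x' i0 : ℚ) ≠ 0 := by exact_mod_cast (G' i0).1
          have n3 : (b ν x i0 : ℚ) ≠ 0 := by exact_mod_cast (G i0).1
          push_cast
          field_simp)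
      exact ⟨Om', (h1.and h4).mono fun ν h => h.2.trans h.1, h5, h6⟩)
  refine ⟨fun ν => (A ν).filter fun x => pt ν x ∈ A1 ν,
    Filter.Eventually.of_forall fun ν => Finset.filter_subset _ _, big_preimage g2 pt g1, ?_⟩
  intro i i'
  filter_upwards [g3 (i, i') (Finset.mem_univ _), hbb] with ν a1 a2 x hx x' hx'
  obtain ⟨hx1, hx2⟩ := Finset.mem_filter.1 hx
  obtain ⟨hx1', hx2'⟩ := Finset.mem_filter.1 hx'
  have e1 := a1 _ hx2 _ hx2'
  simp only [hptl] at e1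
  have n2 : (b ν x' i' : ℚ) ≠ 0 := by exact_mod_cast (a2 x' hx1' i').1
  have n3 : (b ν x i' : ℚ) ≠ 0 := by exact_mod_cast (a2 x hx1 i').1
  rw [div_eq_div_iff n3 n2] at e1
  exact_mod_cast e1

theorem blockZB (hcore : S_core) {n m : ℕ} {Y : ℕ → ℕ}
    (hY : ∀ m : ℕ, ∀ᶠ ν in (Uf : Filter ℕ), m ≤ Y ν)
    {A : ℕ → Finset (Fin n → ℤ)} (hA : Big Y A) (c : ℕ → ℤ)
    (hx : ∀ᶠ ν in (Uf : Filter ℕ), ∀ x ∈ A ν, ∀ j, x j + c ν ≠ 0 ∧ |x j + c ν| ≤ (Y ν : ℤ))
    (B : Finset (Fin m)) (b s : ℕ → (Fin n → ℤ) → Fin m → ℤ) (s0 : ℕ → (Fin n → ℤ) → ℤ)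
    (hbb : ∀ᶠ ν in (Uf : Filter ℕ), ∀ x ∈ A ν, ∀ i ∈ B, b ν x i ≠ 0 ∧ |b ν x i| ≤ (Y ν : ℤ))
    (hss : ∀ᶠ ν in (Uf : Filter ℕ), ∀ x ∈ A ν, ∀ i ∈ B, s ν x i ≠ 0 ∧ |s ν x i| ≤ (Y ν : ℤ))
    (hs0 : ∀ᶠ ν in (Uf : Filter ℕ), ∀ x ∈ A ν, s0 ν x ≠ 0 ∧ |s0 ν x| ≤ (Y ν : ℤ))
    (d w r : ℕ → ℕ) (hd : Few Y d) (hw : Few Y w) (hrF : Few Y r)
    (hl : ∀ m : ℕ, ∀ᶠ ν in (Uf : Filter ℕ), m ≤ d ν)
    (hr : ∀ m : ℕ, ∀ᶠ ν in (Uf : Filter ℕ), m ≤ r ν)
    (u : ℕ → Fin m → ℤ) (hu : ∀ᶠ ν in (Uf : Filter ℕ), ∀ i ∈ B, u ν i ≠ 0 ∧ |u ν i| ≤ 2 ^ w ν)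
    (v : ℕ → ℤ) (hv0 : ∀ᶠ ν in (Uf : Filter ℕ), v ν ≠ 0 ∧ |v ν| ≤ 2 ^ w ν)
    (z : ℕ → (Fin n → ℤ) → ℤ)
    (h0 : ∀ᶠ ν in (Uf : Filter ℕ), ∀ x ∈ A ν, (v ν * s0 ν x) ^ (r ν - 1) *
      ∑ i ∈ B, u ν i * (s ν x i * b ν x i ^ d ν) = z ν x ^ r ν)
    (hv : ∀ᶠ ν in (Uf : Filter ℕ), ∀ x ∈ A ν, ∀ K ⊆ B, K.Nonempty →
      ∑ i ∈ K, u ν i * (s ν x i * b ν x i ^ d ν) ≠ 0) :
    ∃ A' : ℕ → Finset (Fin n → ℤ), (∀ᶠ ν in (Uf : Filter ℕ), A' ν ⊆ A ν) ∧ Big Y A' ∧
      ∀ i ∈ B, ∀ i' ∈ B, ∀ᶠ ν in (Uf : Filter ℕ), ∀ x ∈ A' ν, ∀ x' ∈ A' ν,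
        b ν x i * b ν x' i' = b ν x' i * b ν x i' := by
  classical
  let e : Fin B.card ≃ B := B.equivFin.symm
  have hsum : ∀ f : Fin m → ℤ, ∑ q : Fin B.card, f (e q).1 = ∑ i ∈ B, f i := by
    intro f
    rw [Equiv.sum_comp e (fun i : B => f i.1)]
    exact Finset.sum_coe_sort B f
  obtain ⟨A', h1, h2, h3⟩ := blockZ (k := B.card) hcore hY hA c hx (fun ν x q => b ν x (e q).1)
    (fun ν x q => s ν x (e q).1) s0
    (by filter_upwards [hbb] with ν hν x hx q using hν x hx _ (e q).2)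
    (by filter_upwards [hss] with ν hν x hx q using hν x hx _ (e q).2) hs0
    d w r hd hw hrF hl hr (fun ν q => u ν (e q).1)
    (by filter_upwards [hu] with ν hν q using hν _ (e q).2) v hv0 z
    (by
      filter_upwards [h0] with ν hν x hx
      rw [hsum fun i => u ν i * (s ν x i * b ν x i ^ d ν)]
      exact hν x hx)
    (by
      filter_upwards [hv] with ν hν x hx K hK1
      have h4 := hν x hx (K.map (e.toEmbedding.trans (Function.Embedding.subtype _))) (by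
        intro i hi
        obtain ⟨q, _, rfl⟩ := Finset.mem_map.1 hi
        exact (e q).2) (hK1.map)
      rw [Finset.sum_map] at h4
      exact h4)
  refine ⟨A', h1, h2, fun i hi i' hi' => ?_⟩
  have h4 := h3 (e.symm ⟨i, hi⟩) (e.symm ⟨i', hi'⟩)
  simp only [Equiv.apply_symm_apply] at h4
  exact h4

end Pool.Agent.N741.HB
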