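import Mathlib
import Pool.Agent.N692.HB.Gdm

/-!
# Structure theorem for finite covers, with points in the closure

This is a variant, with a stronger conclusion, of the proof of helper692 in Pool/Agent/N692/HB/Gdm.lean:
the points are specialisations of the generic point of the subvariety.
-/

set_option autoImplicit false

namespace Pool.Agent.N741.HB.Gdm2

open Filter MvPolynomial Pool.Agent.N741.HB Pool.Agent.Y902.GN Pool.Agent.N692.HB.Gdm

/-- the point is a specialisation of the generic point of the subvariety -/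
def PtC {n : ℕ} (V : Chart n) (x : Fin n → ℤ) : Prop :=
  eval (fun b => x (V.ι b)) V.b0 ≠ 0 ∧ ∃ θ : ℤ,
    (∀ p, InP V.h p → eval (fun o => o.elim θ fun b => x (V.ι b)) p = 0) ∧
    ∀ j, eval (fun b => x (V.ι b)) V.b0 * x j =
      eval (fun o => o.elim θ fun b => x (V.ι b)) (V.b j)

/-- complexity at most `K`, and `t` are the coordinates `x (ι b)` on the subvariety -/
structure Good {n : ℕ} (V : Chart n) (K Y : ℕ) : Prop where
  cx : V.Cx K Y
  inj : Function.Injective V.ι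
  coh : ∀ b, InP V.h (rename some V.b0 * X (some b) - V.b (V.ι b))

theorem good_mono {n : ℕ} {V : Chart n} {K K' Y : ℕ} (h : Good V K Y) (hK : K ≤ K') :
    Good V K' Y := ⟨cx_mono h.cx hK, h.inj, h.coh⟩

theorem inP_zero {d : ℕ} (h : MvPolynomial (Option (Fin d)) ℤ) : InP h 0 :=
  ⟨1, one_ne_zero, by rw [mul_zero]; exact dvd_zero _⟩

theorem whole_good {n : ℕ} {K : ℕ} (hK : 1 ≤ K) (Y : ℕ) : Good (whole n) K Y :=
  ⟨whole_cx hK Y, Function.injective_id, fun b => by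
    have h : (rename some (whole n).b0 * X (some b) - (whole n).b ((whole n).ι b) :
        MvPolynomial (Option (Fin (whole n).d)) ℤ) = 0 := by
      have h1 : (whole n).b0 = 1 := rfl
      have h2 : (whole n).b ((whole n).ι b) = X (some b) := rfl
      rw [h1, h2, map_one, one_mul, sub_self]
    rw [h]
    exact inP_zero _⟩

theorem pnt_good {n : ℕ} {x : Fin n → ℤ} {K : ℕ} (hK : 1 ≤ K) {Y : ℕ}
    (hx : ∀ j, 1 ≤ x j ∧ x j ≤ (Y : ℤ)) : Good (pnt x) K Y :=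
  ⟨pnt_cx hK hx, fun b => b.elim0, fun b => b.elim0⟩

theorem eval_inP_X {d : ℕ} {s : Fin d → ℤ} (p : MvPolynomial (Option (Fin d)) ℤ)
    (hp : InP (X none) p) : eval (fun o : Option (Fin d) => o.elim 0 s) p = 0 := by
  rw [inP_X] at hp
  obtain ⟨q, hq⟩ := dvd_pr p
  rw [hp, map_zero, sub_zero] at hq
  rw [hq, map_mul, eval_X]
  simp

theorem whole_ptC {n : ℕ} (x : Fin n → ℤ) : PtC (whole n) x := by
  obtain ⟨h1, θ, h2, h3⟩ := whole_pt x
  refine ⟨h1, 0, ?_, fun j => ?_⟩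
  · intro p hp
    exact eval_inP_X p hp
  · show eval (fun b : Fin n => x b) (1 : MvPolynomial (Fin n) ℤ) * x j =
      eval (fun o : Option (Fin n) => o.elim 0 fun b => x b)
        (X (some j) : MvPolynomial (Option (Fin n)) ℤ)
    rw [map_one, one_mul, eval_X]
    rfl

theorem pnt_ptC {n : ℕ} (x : Fin n → ℤ) : PtC (pnt x) x := by
  obtain ⟨h1, θ, h2, h3⟩ := pnt_pt x
  refine ⟨h1, 0, ?_, fun j => ?_⟩
  · intro p hp
    exact eval_inP_X p hp
  · show eval (fun b : Fin 0 => x b.elim0) (1 : MvPolynomial (Fin 0) ℤ) * x j =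
      eval (fun o : Option (Fin 0) => o.elim 0 fun b => x b.elim0)
        (C (x j) : MvPolynomial (Option (Fin 0)) ℤ)
    rw [map_one, one_mul, eval_C]

/-- the unramified points on fibre products of `q` finite covers of affine `n`-space, of any
degrees, lie over few subvarieties of bounded degree over which the covers have components of
bounded degree. -/
def S_gdm2 : Prop := ∀ (n q : ℕ) (ε : ℝ), 0 < ε → ∃ (K : ℕ) (δ : ℝ), 0 < δ ∧ ∀ Y : ℕ, 1 ≤ Y →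
  ∀ P : Fin q → Polynomial (MvPolynomial (Fin n) ℤ),
    (∀ k, ((P k).natDegree : ℝ) ≤ (Y : ℝ) ^ δ ∧ ∀ l,
      (((P k).coeff l).totalDegree : ℝ) ≤ (Y : ℝ) ^ δ ∧
      ∀ m, ((|((P k).coeff l).coeff m| : ℤ) : ℝ) ≤ Real.exp ((Y : ℝ) ^ δ)) →
    ∃ (r : ℕ) (V : Fin r → Chart n), (r : ℝ) ≤ (Y : ℝ) ^ ε ∧
      (∀ i, Good (V i) K Y ∧ ∀ k, (V i).Factor (P k) K) ∧
      ∀ (x : Fin n → ℤ) (z : Fin q → ℤ), (∀ j, 1 ≤ x j ∧ x j ≤ (Y : ℤ)) →
        (∀ k, ((|z k| : ℤ) : ℝ) ≤ Real.exp ((Y : ℝ) ^ δ) ∧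
          ((P k).map (eval x)).eval (z k) = 0 ∧ ((P k).derivative.map (eval x)).eval (z k) ≠ 0) →
        ∃ i, PtC (V i) x

/-- **the chart of a large set** -/
theorem gen_part2 (h1 : S_gd) (h2 : S_irr) (h3 : S_relP) (h4 : S_van) {n q : ℕ} {Y : ℕ → ℕ}
    (hY : ∀ m : ℕ, ∀ᶠ ν in (Uf : Filter ℕ), m ≤ Y ν)
    {P : ℕ → Fin q → Polynomial (MvPolynomial (Fin n) ℤ)} {D F : ℕ → ℕ} (hD : Few Y D)
    (hF : Few Y F)
    (hP : ∀ᶠ ν in (Uf : Filter ℕ), ∀ k, (P ν k).natDegree ≤ D ν ∧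
      ∀ l, ((P ν k).coeff l).totalDegree ≤ D ν ∧ ∀ m, |((P ν k).coeff l).coeff m| ≤ 2 ^ F ν)
    {T : ℕ → Finset (Fin n → ℤ)} (hT : Big Y T) (hbd : Bdd Y T)
    {z : ℕ → (Fin n → ℤ) → Fin q → ℤ}
    (hz : ∀ᶠ ν in (Uf : Filter ℕ), ∀ t ∈ T ν, ∀ k, |z ν t k| ≤ 2 ^ F ν ∧
      ((P ν k).map (eval t)).eval (z ν t k) = 0 ∧
      ((P ν k).derivative.map (eval t)).eval (z ν t k) ≠ 0) :
    ∃ (C : ℕ) (V : ℕ → Chart n) (Om : ℕ → Finset (Fin n → ℤ)),
      (∀ᶠ ν in (Uf : Filter ℕ), Om ν ⊆ T ν) ∧ Big Y Om ∧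
      ∀ᶠ ν in (Uf : Filter ℕ), Good (V ν) C (Y ν) ∧ (∀ k, (V ν).Factor (P ν k) C) ∧
        ∀ t ∈ Om ν, PtC (V ν) t := by
  classical
  obtain ⟨Om1, hO1, hG1⟩ := Gen.ex hT
  have hbd1 : Bdd Y Om1 := by
    filter_upwards [hbd, hO1] with ν a b t ht
    exact a t (b ht)
  obtain ⟨G⟩ := h1 Y n Om1 hY hG1 hbd1
  have hB1 : Big Y Om1 := hG1.1
  -- sizes
  obtain ⟨w0, hw0, hs0⟩ :=
    ((PB.mild hY G.b0PB).rename hY (some : Fin G.d → Option (Fin G.d))).Sz hY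
  have hbm : ∀ j, ∃ w : ℕ → ℕ, Few Y w ∧ ∀ᶠ ν in (Uf : Filter ℕ), Sz (w ν) (G.b j ν) :=
    fun j => (PB.mild hY (G.bPB j)).Sz hY
  choose wj hwj hsj using hbm
  obtain ⟨w1, hw1⟩ : ∃ w1 : ℕ → ℕ, ∀ ν, w1 ν = w0 ν + ∑ j, wj j ν := ⟨_, fun _ => rfl⟩
  have fw1 : Few Y w1 := (hw0.add hY (few_sum hY Finset.univ fun j _ => hwj j)).mono
    (Filter.Eventually.of_forall fun ν => (hw1 ν).le)
  have hs1 : ∀ᶠ ν in (Uf : Filter ℕ), Sz (w1 ν) (rename (some : Fin G.d → Option (Fin G.d))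
      (G.b0 ν)) ∧ ∀ j, Sz (w1 ν) (G.b j ν) := by
    filter_upwards [hs0, Filter.eventually_all.2 hsj] with ν a b
    rw [hw1]
    exact ⟨a.mono (Nat.le_add_right _ _), fun j => (b j).mono
      ((Finset.single_le_sum (f := fun j => wj j ν) (fun _ _ => Nat.zero_le _)
        (Finset.mem_univ j)).trans (Nat.le_add_left _ _))⟩
  -- the homogenised polynomials
  obtain ⟨Q, hQ⟩ : ∃ Q : ℕ → Fin q → Polynomial (MvPolynomial (Option (Fin G.d)) ℤ),
    ∀ ν k, Q ν k = Ph (rename some (G.b0 ν)) (fun j => G.b j ν) (D ν) (P ν k) :=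
    ⟨_, fun _ _ => rfl⟩
  obtain ⟨w, hw⟩ : ∃ w : ℕ → ℕ, ∀ ν, w ν = D ν + (F ν + (n * (D ν * w1 ν) + D ν * w1 ν) +
    (D ν + 1) ^ n) := ⟨_, fun _ => rfl⟩
  have fw : Few Y w := by
    refine Few.mono (g := fun ν => D ν + (F ν + (n * (D ν * w1 ν) + D ν * w1 ν) +
      (D ν + 1) ^ n)) ?_ (Filter.Eventually.of_forall fun ν => (hw ν).le)
    have a1 : Few Y (fun ν => D ν * w1 ν) := hD.mul fw1
    have a2 : Few Y (fun ν => n * (D ν * w1 ν)) := (Few.const hY n).mul a1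
    have a3 : Few Y (fun ν => (D ν + 1) ^ n) := (hD.add hY (Few.const hY 1)).pow n
    exact hD.add hY ((hF.add hY (a2.add hY a1)).add hY a3)
  have hQev : ∀ᶠ ν in (Uf : Filter ℕ), ∀ t ∈ Om1 ν, ∀ k, (Q ν k).map (eval (G.sp ν t)) =
      Polynomial.C (eval (fun b => t (G.ι b)) (G.b0 ν) ^ D ν) * (P ν k).map (eval t) := by
    filter_upwards [G.ev_b, hP] with ν a b t ht k
    rw [hQ, map_Ph_eval (x := t) (fun j => by rw [G.eval_b0]; exact a t ht j)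
      (fun l => ((b k).2 l).1), G.eval_b0]
  have hQder : ∀ᶠ ν in (Uf : Filter ℕ), ∀ t ∈ Om1 ν, ∀ k,
      ((Q ν k).derivative.map (eval (G.sp ν t))).eval (z ν t k) =
      eval (fun b => t (G.ι b)) (G.b0 ν) ^ D ν *
        ((P ν k).derivative.map (eval t)).eval (z ν t k) := by
    filter_upwards [hQev] with ν a t ht k
    rw [← Polynomial.derivative_map, a t ht k, Polynomial.derivative_C_mul, Polynomial.eval_mul,
      Polynomial.eval_C, Polynomial.derivative_map]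
  have hK : ∀ k : Fin q, ∃ K : ℕ, ∀ᶠ ν in (Uf : Filter ℕ),
      ∃ (M M' : Polynomial (MvPolynomial (Option (Fin G.d)) ℤ))
        (c : MvPolynomial (Option (Fin G.d)) ℤ), 1 ≤ M.natDegree ∧ M.natDegree ≤ K ∧
        ¬ InP (G.h ν) M.leadingCoeff ∧ ¬ InP (G.h ν) c ∧
        ∀ l, InP (G.h ν) ((Polynomial.C c * Q ν k - M * M').coeff l) := by
    intro k
    refine h3 Y n Om1 hY hB1 hbd1 G (fun ν => Q ν k) w (fun ν t => z ν t k) fw ?_ ?_ ?_
    · filter_upwards [hs1, hP] with ν a b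
      refine ⟨?_, fun l => ?_⟩
      · rw [hQ, hw]
        exact (Ph_natDegree _ _ _ _).trans ((b k).1.trans (Nat.le_add_right _ _))
      · rw [hQ, hw, Ph_coeff]
        exact (Sz_hm a.1 a.2 ((b k).2 l).1 ((b k).2 l).2).mono (Nat.le_add_left _ _)
    · filter_upwards [hQev, hz, hO1] with ν a b c t ht
      have b1 := b t (c ht) k
      refine ⟨b1.1.trans (pow_le_pow_right₀ (by norm_num) ?_), ?_⟩
      · rw [hw]
        omega
      · rw [a t ht k, Polynomial.eval_mul, b1.2.1, mul_zero]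
    · intro hcon
      refine G.small G.b0 G.b0PB G.b0ne (hcon.mono ?_)
      filter_upwards [hQder, hz, hO1] with ν a b c t ht
      obtain ⟨ht1, ht2⟩ := Finset.mem_filter.1 ht
      refine Finset.mem_filter.2 ⟨ht1, ?_⟩
      rw [a t ht1 k] at ht2
      by_contra hne
      exact mul_ne_zero (pow_ne_zero _ hne) (b t (c ht1) k).2.2 ht2
  choose K hK using hK
  -- the constant
  obtain ⟨c1, hc1⟩ := G.hPB
  obtain ⟨c2, hc2⟩ := G.b0PB
  choose c3 hc3 using G.bPB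
  obtain ⟨Om2, hO2, hB2, hgood⟩ := G.good hY h4 (Filter.Eventually.of_forall fun _ => subset_rfl)
    hB1
  have hc3' : ∀ j, c3 j ≤ ∑ j, c3 j := fun j =>
    Finset.single_le_sum (f := c3) (fun _ _ => Nat.zero_le _) (Finset.mem_univ j)
  have hK' : ∀ k, K k ≤ ∑ k, K k := fun k =>
    Finset.single_le_sum (f := K) (fun _ _ => Nat.zero_le _) (Finset.mem_univ k)
  have hdn : G.d ≤ n := by
    have := Fintype.card_le_of_injective G.ι (iota_inj hB1 G)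
    rwa [Fintype.card_fin, Fintype.card_fin] at this
  refine ⟨c1 + c2 + ∑ j, c3 j + ∑ k, K k,
    fun ν => ⟨G.d, G.ι, G.h ν, G.b0 ν, fun j => G.b j ν⟩, Om2, ?_, hB2, ?_⟩
  · filter_upwards [hO1, hO2] with ν a b
    exact b.trans a
  have hcoh : ∀ᶠ ν in (Uf : Filter ℕ), ∀ b, InP (G.h ν)
      (rename some (G.b0 ν) * X (some b) - G.b (G.ι b) ν) := by
    refine Filter.eventually_all.2 fun b => ?_
    refine G.div (fun ν => rename some (G.b0 ν) * X (some b) - G.b (G.ι b) ν)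
      (((G.b0PB.rename some).mul (PB.X (some b))).sub (G.bPB (G.ι b))) (hB1.mono ?_)
    filter_upwards [G.ev_b] with ν a t ht
    refine Finset.mem_filter.2 ⟨ht, ?_⟩
    have h7 := a t ht (G.ι b)
    have h8 : eval (fun o : Option (Fin G.d) => o.elim (G.θ ν t) fun b => t (G.ι b))
        (rename some (G.b0 ν)) = eval (fun b => t (G.ι b)) (G.b0 ν) := by
      rw [eval_rename]
      rfl
    rw [map_sub, map_mul, h8, eval_X, ← h7]
    show _ * t (G.ι b) - _ = 0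
    rw [sub_self]
  filter_upwards [hc1, hc2, Filter.eventually_all.2 hc3, Filter.eventually_all.2 hK,
    h2 Y n Om1 hY hB1 hbd1 G, G.b0ne, hgood, hB2.nonempty, hO2, hO1, G.ev_h, G.ev_b, hP, hz, hcoh]
    with ν g1 g2 g3 g4 g5 g6 g7 g8 g9 g10 g11 g12 g13 g14 g15
  have hpw : ∀ {c : ℕ}, c ≤ c1 + c2 + ∑ j, c3 j + ∑ k, K k →
      ((Y ν : ℤ) + 2) ^ c ≤ ((Y ν : ℤ) + 2) ^ (c1 + c2 + ∑ j, c3 j + ∑ k, K k) :=
    fun h => pow_le_pow_right₀ (by omega) h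
  have e1 : c1 ≤ c1 + c2 + ∑ j, c3 j + ∑ k, K k := by omega
  have e2 : c2 ≤ c1 + c2 + ∑ j, c3 j + ∑ k, K k := by omega
  have e3 : ∀ j, c3 j ≤ c1 + c2 + ∑ j, c3 j + ∑ k, K k := fun j => by have := hc3' j; omega
  have e4 : ∀ k, K k ≤ c1 + c2 + ∑ j, c3 j + ∑ k, K k := fun k => by have := hK' k; omega
  refine ⟨⟨⟨hdn, g5, g6, g1.1.trans e1, g2.1.trans e2, fun j => (g3 j).1.trans (e3 j),
    fun m => (g1.2 m).trans (hpw e1), fun m => (g2.2 m).trans (hpw e2),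
    fun j m => ((g3 j).2 m).trans (hpw (e3 j))⟩, iota_inj hB1 G, g15⟩,
    fun k => ?_, fun t ht => ?_⟩
  · obtain ⟨t, ht⟩ := g8
    obtain ⟨M, M', c, m1, m2, m3, m4, m5⟩ := g4 k
    have ht1 := g9 ht
    refine chart_factor (V := ⟨G.d, G.ι, G.h ν, G.b0 ν, fun j => G.b j ν⟩) g5 g6 (D := D ν)
      (fun l => ((g13 k).2 l).1) m1 (m2.trans (e4 k)) m3 m4 (M' := M') (fun l => ?_)
      (s := G.sp ν t) (x := t) (g7 t ht).2 ?_ (fun j => ?_) (z := z ν t k) (g14 t (g10 ht1) k).2.2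
    · have := m5 l
      rw [hQ] at this
      exact this
    · show eval (G.sp ν t) (rename some (G.b0 ν)) ≠ 0
      rw [G.eval_b0]
      exact (g7 t ht).1
    · show eval (G.sp ν t) (rename some (G.b0 ν)) * t j = eval (G.sp ν t) (G.b j ν)
      rw [G.eval_b0]
      exact g12 t ht1 j
  · have ht1 := g9 ht
    exact ⟨(g7 t ht).1, G.θ ν t, (g7 t ht).2, g12 t ht1⟩

/-- **Structure theorem for finite covers.** -/
theorem gdm2 (h1 : S_gd) (h2 : S_irr) (h3 : S_relP) (h4 : S_van) (h5 : S_cover) : S_gdm2 := by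
  classical
  intro n q ε hε
  by_contra hcon
  push Not at hcon
  have hseq := fun ν : ℕ => hcon ν (1 / ((ν : ℝ) + 1)) (by positivity)
  choose Y hY1 P hP hbad using hseq
  have hbad' : ∀ (ν r : ℕ) (V : Fin r → Chart n), (r : ℝ) ≤ (Y ν : ℝ) ^ ε →
      (∀ i, Good (V i) ν (Y ν) ∧ ∀ k, (V i).Factor (P ν k) ν) →
      ∃ (x : Fin n → ℤ) (z : Fin q → ℤ), Adm n q (1 / ((ν : ℝ) + 1)) (Y ν) (P ν) x z ∧
        ∀ i, ¬ PtC (V i) x := by
    intro ν r V hr hV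
    obtain ⟨x, z, a, b, c⟩ := hbad ν r V hr hV
    exact ⟨x, z, ⟨a, b⟩, c⟩
  clear hbad
  have hY1' : ∀ ν, (1 : ℝ) ≤ (Y ν : ℝ) := fun ν => by exact_mod_cast hY1 ν
  have hYε : ∀ (ν : ℕ) (c : ℝ), 0 ≤ c → 1 ≤ (Y ν : ℝ) ^ c := fun ν c hc =>
    Real.one_le_rpow (hY1' ν) hc
  -- the degrees are positive
  have hpos : ∀ ν k, 1 ≤ (P ν k).natDegree := by
    intro ν k
    obtain ⟨x, z, ⟨_, b⟩, _⟩ := hbad' ν 0 Fin.elim0 (by
      have := hYε ν ε hε.le
      push_cast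
      linarith) (fun i => i.elim0)
    exact natDegree_pos (b k).2.2
  -- `Y` is large
  have hYν : ∀ ν, 1 ≤ ν → ν ^ (ν + 1) < Y ν := by
    intro ν hν
    by_contra hle
    push Not at hle
    have hdeg : ∀ k, (P ν k).natDegree ≤ ν := fun k => by
      have := (hP ν k).1.trans (root_bd hle)
      exact_mod_cast this
    obtain ⟨x, z, _, b⟩ := hbad' ν 1 (fun _ => whole n) (by
      have := hYε ν ε hε.le
      push_cast
      exact this) (fun i => ⟨whole_good hν _, fun k => whole_factor (hpos ν k) (hdeg k)⟩)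
    exact b 0 (whole_ptC x)
  have hY : ∀ m : ℕ, ∀ᶠ ν in (Uf : Filter ℕ), m ≤ Y ν := by
    intro m
    filter_upwards [ev_ge (m + 1)] with ν hν
    have a1 := hYν ν (by omega)
    have a2 : ν ≤ ν ^ (ν + 1) := Nat.le_self_pow (by omega) _
    omega
  have fewν : Few Y (fun ν => ν) := by
    intro m
    filter_upwards [ev_ge (m + 1)] with ν hν
    have a1 := hYν ν (by omega)
    have a2 : ν ^ m ≤ ν ^ (ν + 1) := Nat.pow_le_pow_right (by omega) (by omega)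
    omega
  -- the bounds for `P` and `z`
  obtain ⟨D, hD⟩ : ∃ D : ℕ → ℕ, ∀ ν, D ν =
    ⌊((1 : ℕ) : ℝ) * (Y ν : ℝ) ^ (1 / ((ν : ℝ) + 1))⌋₊ + 1 := ⟨_, fun _ => rfl⟩
  obtain ⟨F, hF⟩ : ∃ F : ℕ → ℕ, ∀ ν, F ν =
    ⌊((2 : ℕ) : ℝ) * (Y ν : ℝ) ^ (1 / ((ν : ℝ) + 1))⌋₊ + 1 := ⟨_, fun _ => rfl⟩
  have fewD : Few Y D := (few_rpow hY 1).mono (Filter.Eventually.of_forall fun ν => (hD ν).le)
  have fewF : Few Y F := (few_rpow hY 2).mono (Filter.Eventually.of_forall fun ν => (hF ν).le)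
  have hDb : ∀ (ν m : ℕ), (m : ℝ) ≤ (Y ν : ℝ) ^ (1 / ((ν : ℝ) + 1)) → m ≤ D ν := by
    intro ν m hm
    rw [hD]
    have := Nat.le_floor (show (m : ℝ) ≤ ((1 : ℕ) : ℝ) * (Y ν : ℝ) ^ (1 / ((ν : ℝ) + 1)) by
      push_cast
      rwa [one_mul])
    omega
  have hFb : ∀ (ν : ℕ) (a : ℤ), ((|a| : ℤ) : ℝ) ≤
      Real.exp ((Y ν : ℝ) ^ (1 / ((ν : ℝ) + 1))) → |a| ≤ 2 ^ F ν := by
    intro ν a ha
    have := ha.trans (exp_le_two_pow (y := (Y ν : ℝ) ^ (1 / ((ν : ℝ) + 1))) (by positivity))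
    rw [← hF] at this
    exact_mod_cast this
  have hP' : ∀ᶠ ν in (Uf : Filter ℕ), ∀ k, (P ν k).natDegree ≤ D ν ∧
      ∀ l, ((P ν k).coeff l).totalDegree ≤ D ν ∧ ∀ m, |((P ν k).coeff l).coeff m| ≤ 2 ^ F ν :=
    Filter.Eventually.of_forall fun ν k => ⟨hDb ν _ (hP ν k).1, fun l =>
      ⟨hDb ν _ ((hP ν k).2 l).1, fun m => hFb ν _ (((hP ν k).2 l).2 m)⟩⟩
  -- the admissible points
  obtain ⟨S, hS⟩ : ∃ S : ℕ → Finset (Fin n → ℤ), ∀ ν, S ν =
    (Fintype.piFinset fun _ : Fin n => Finset.Icc (1 : ℤ) (Y ν)).filter fun x =>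
      ∃ z, Adm n q (1 / ((ν : ℝ) + 1)) (Y ν) (P ν) x z := ⟨_, fun _ => rfl⟩
  have hSm : ∀ ν x, x ∈ S ν ↔ ∃ z, Adm n q (1 / ((ν : ℝ) + 1)) (Y ν) (P ν) x z := by
    intro ν x
    rw [hS, Finset.mem_filter]
    constructor
    · exact fun h => h.2
    · intro h
      refine ⟨?_, h⟩
      obtain ⟨z, a, _⟩ := h
      rw [Fintype.mem_piFinset]
      intro j
      rw [Finset.mem_Icc]
      exact a j
  have hScard : ∀ ν, (S ν).card ≤ (Y ν + 2) ^ n := by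
    intro ν
    rw [hS]
    refine (Finset.card_filter_le _ _).trans ?_
    rw [Fintype.card_piFinset_const, Int.card_Icc]
    refine Nat.pow_le_pow_left ?_ _
    omega
  choose! z hz using fun ν x (h : x ∈ S ν) => (hSm ν x).1 h
  -- the complexity
  obtain ⟨K, hK⟩ : ∃ K : ℕ → ℕ, ∀ ν, K ν = Nat.findGreatest (fun k => En n k ≤ ν) ν :=
    ⟨_, fun _ => rfl⟩
  have hKle : ∀ ν, K ν ≤ ν := fun ν => by
    rw [hK]
    exact Nat.findGreatest_le ν
  have hKE : ∀ᶠ ν in (Uf : Filter ℕ), En n (K ν) ≤ ν := by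
    filter_upwards [ev_ge (En n 0)] with ν hν
    rw [hK]
    exact Nat.findGreatest_spec (P := fun k => En n k ≤ ν) (Nat.zero_le ν) hν
  have hKC : ∀ C : ℕ, ∀ᶠ ν in (Uf : Filter ℕ), C ≤ K ν := by
    intro C
    filter_upwards [ev_ge (C + En n C)] with ν hν
    rw [hK]
    exact Nat.le_findGreatest (P := fun k => En n k ≤ ν) (by omega) (by omega)
  -- the family
  obtain ⟨good, hgood⟩ : ∃ good : ℕ → Chart n → Prop, ∀ ν V, good ν V ↔
    (Good V (K ν) (Y ν) ∧ ∀ k, V.Factor (P ν k) (K ν)) := ⟨_, fun _ _ => Iff.rfl⟩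
  obtain ⟨Fm, hFm⟩ : ∃ Fm : ℕ → Finset (Finset (Fin n → ℤ)), ∀ ν, Fm ν =
    ((AC n (K ν) ((Y ν + 2) ^ K ν)).filter fun V => good ν V).image
      fun V => (S ν).filter fun x => PtC V x := ⟨_, fun _ => rfl⟩
  have hFmm : ∀ ν V, good ν V → ((S ν).filter fun x => PtC V x) ∈ Fm ν := by
    intro ν V h
    rw [hFm, Finset.mem_image]
    exact ⟨V, Finset.mem_filter.2 ⟨mem_AC ((hgood ν V).1 h).1.cx, h⟩, rfl⟩
  have hFm' : ∀ ν, ∀ A ∈ Fm ν, ∃ V, good ν V ∧ A = (S ν).filter fun x => PtC V x := by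
    intro ν A hA
    rw [hFm, Finset.mem_image] at hA
    obtain ⟨V, hV, rfl⟩ := hA
    exact ⟨V, (Finset.mem_filter.1 hV).2, rfl⟩
  obtain ⟨L, hL⟩ : ∃ L : ℕ → ℕ, ∀ ν, L ν = Nat.log 2 (Fm ν).card + 2 := ⟨_, fun _ => rfl⟩
  have fewL : Few Y L := by
    refine Few.mono (g := fun ν => ν * (Nat.log 2 (Y ν + 2) + 1) + 2)
      ((fewν.mul (few_log hY)).add hY (Few.const hY 2)) ?_
    filter_upwards [hKE] with ν a
    rw [hL]
    have b : (Fm ν).card ≤ (Y ν + 2) ^ En n (K ν) := by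
      rw [hFm]
      exact Finset.card_image_le.trans ((Finset.card_filter_le _ _).trans (card_AC _ _ _))
    have c : Nat.log 2 (Fm ν).card ≤ ν * (Nat.log 2 (Y ν + 2) + 1) :=
      (Nat.log_mono_right b).trans ((log_pow_le _ _).trans (Nat.mul_le_mul_right _ a))
    omega
  obtain ⟨LS, hLS⟩ : ∃ LS : ℕ → ℕ, ∀ ν, LS ν = Nat.log 2 (S ν).card + 1 := ⟨_, fun _ => rfl⟩
  have fewLS : Few Y LS := by
    refine Few.mono (g := fun ν => n * (Nat.log 2 (Y ν + 2) + 1) + 1)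
      (((Few.const hY n).mul (few_log hY)).add hY (Few.const hY 1))
      (Filter.Eventually.of_forall fun ν => ?_)
    rw [hLS]
    have c : Nat.log 2 (S ν).card ≤ n * (Nat.log 2 (Y ν + 2) + 1) :=
      (Nat.log_mono_right (hScard ν)).trans (log_pow_le _ _)
    omega
  -- the covering lemma
  obtain ⟨M, hM⟩ : ∃ M : ℕ → ℕ, ∀ ν, M ν = ⌊(Y ν : ℝ) ^ (ε / 2)⌋₊ := ⟨_, fun _ => rfl⟩
  have hM1 : ∀ ν, 1 ≤ M ν := fun ν => by
    rw [hM]
    exact Nat.le_floor (by exact_mod_cast hYε ν (ε / 2) (by positivity))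
  have hMle : ∀ ν, (M ν : ℝ) ≤ (Y ν : ℝ) ^ (ε / 2) := fun ν => by
    rw [hM]
    exact Nat.floor_le (by positivity)
  have hev1 : ∀ᶠ ν in (Uf : Filter ℕ), 1 ≤ Y ν := Filter.Eventually.of_forall hY1
  have hcov : ∀ᶠ ν in (Uf : Filter ℕ), ∃ T : Finset (Fin n → ℤ), T ⊆ S ν ∧
      M ν ≤ T.card * L ν ∧ ∀ A ∈ Fm ν, (T ∩ A).card ≤ L ν := by
    filter_upwards [hKC 1, few_le_rpow fewLS (c := ε / 2) (by positivity) hev1] with ν a b
    obtain ⟨T, t1, t2, t3⟩ := h5 (Fin n → ℤ) (S ν) (Fm ν) (M ν) (hM1 ν) (by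
      intro x hx
      refine ⟨_, hFmm ν (pnt x) ?_, ?_⟩
      · rw [hgood]
        have hx' := hz ν x hx
        exact ⟨pnt_good a hx'.1, fun k => pnt_factor a (hx'.2 k).2.1 (hx'.2 k).2.2⟩
      · exact Finset.mem_filter.2 ⟨hx, pnt_ptC x⟩) (by
      intro W hW hWc hsub
      have : Nonempty (Chart n) := ⟨whole n⟩
      choose! V hV1 hV2 using fun A (hA : A ∈ W) => hFm' ν A (hW hA)
      have hr : (W.card : ℝ) ≤ (Y ν : ℝ) ^ ε := by
        rw [← hLS] at hWc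
        calc (W.card : ℝ) ≤ ((M ν * LS ν : ℕ) : ℝ) := by exact_mod_cast hWc
          _ = (M ν : ℝ) * (LS ν : ℝ) := by push_cast; ring
          _ ≤ (Y ν : ℝ) ^ (ε / 2) * (Y ν : ℝ) ^ (ε / 2) :=
              mul_le_mul (hMle ν) b (by positivity) (by positivity)
          _ = (Y ν : ℝ) ^ ε := by
              rw [← Real.rpow_add (by have := hY1' ν; linarith)]
              congr 1
              ring
      obtain ⟨x, z', hxz, hno⟩ := hbad' ν W.card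
        (fun i => V (W.equivFin.symm i : Finset (Fin n → ℤ))) hr (fun i => by
          have hm := (W.equivFin.symm i).2
          have := (hgood ν _).1 (hV1 _ hm)
          exact ⟨good_mono this.1 (hKle ν), fun k => factor_mono (this.2 k) (hKle ν)⟩)
      have hx : x ∈ S ν := (hSm ν x).2 ⟨z', hxz⟩
      obtain ⟨A, hA, hxA⟩ := Finset.mem_biUnion.1 (hsub hx)
      have hxA' : x ∈ A := hxA
      rw [hV2 A hA] at hxA'
      have hpt := (Finset.mem_filter.1 hxA').2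
      apply hno (W.equivFin ⟨A, hA⟩)
      simp only [Equiv.symm_apply_apply]
      exact hpt)
    rw [← hL] at t2 t3
    exact ⟨T, t1, t2, t3⟩
  obtain ⟨T, hT⟩ := hcov.choice
  have hTbig : Big Y T := by
    refine big_of_card (ε := ε / 4) (by positivity) (hY 2) ?_
    filter_upwards [hT, few_le_rpow (fewL.mul (Few.const hY 2)) (c := ε / 4) (by positivity) hev1]
      with ν a b
    have c1 : (Y ν : ℝ) ^ (ε / 2) < (M ν : ℝ) + 1 := by
      rw [hM]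
      exact Nat.lt_floor_add_one _
    have c2 : (M ν : ℝ) + 1 ≤ ((T ν).card : ℝ) * ((L ν * 2 : ℕ) : ℝ) := by
      have d1 : M ν + 1 ≤ (T ν).card * (L ν * 2) := by
        have d2 := a.2.1
        have d3 := hM1 ν
        have d4 : (T ν).card * (L ν * 2) = 2 * ((T ν).card * L ν) := by ring
        omega
      exact_mod_cast d1
    have c3 : (Y ν : ℝ) ^ (ε / 2) = (Y ν : ℝ) ^ (ε / 4) * (Y ν : ℝ) ^ (ε / 4) := by
      rw [← Real.rpow_add (by have := hY1' ν; linarith)]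
      congr 1
      ring
    have c4 : (0 : ℝ) < (Y ν : ℝ) ^ (ε / 4) := by
      have := hYε ν (ε / 4) (by positivity)
      linarith
    have c5 : ((T ν).card : ℝ) * ((L ν * 2 : ℕ) : ℝ) ≤ ((T ν).card : ℝ) * (Y ν : ℝ) ^ (ε / 4) :=
      mul_le_mul_of_nonneg_left b (by positivity)
    have c6 : (Y ν : ℝ) ^ (ε / 4) * (Y ν : ℝ) ^ (ε / 4) < ((T ν).card : ℝ) * (Y ν : ℝ) ^ (ε / 4) := by
      rw [← c3]
      linarith
    exact lt_of_mul_lt_mul_right c6 c4.le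
  have hTbd : Bdd Y T := by
    filter_upwards [hT] with ν a t ht j
    have := (hz ν t (a.1 ht)).1 j
    refine ⟨by omega, ?_⟩
    rw [abs_of_nonneg (by omega)]
    exact this.2
  obtain ⟨C, V, Om, o1, o2, o3⟩ := gen_part2 h1 h2 h3 h4 hY fewD fewF hP' hTbig hTbd (z := z) (by
    filter_upwards [hT] with ν a t ht k
    have := (hz ν t (a.1 ht)).2 k
    exact ⟨hFb ν _ this.1, this.2.1, this.2.2⟩)
  refine not_big_few o2 fewL ?_
  filter_upwards [o1, o3, hT, hKC C] with ν a b c d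
  have hg : good ν (V ν) := by
    rw [hgood]
    exact ⟨good_mono b.1 d, fun k => factor_mono (b.2.1 k) d⟩
  refine (Finset.card_le_card ?_).trans (c.2.2 _ (hFmm ν (V ν) hg))
  intro t ht
  exact Finset.mem_inter.2 ⟨a ht, Finset.mem_filter.2 ⟨c.1 (a ht), b.2.2 t ht⟩⟩

end Pool.Agent.N741.HB.Gdm2
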