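import Mathlib
import Pool.Agent.N54.HB.A3

/-!
# A common root gives an `r`-th power
-/

set_option autoImplicit false

namespace Pool.Agent.N741.HB

open MvPolynomial

theorem root : S_root := by
  classical
  intro d h hI P A F r hP hr hA hF hres
  obtain ⟨L, _, φ, hφ, hfrac⟩ := N54.HB.exL h hI
  set ι : MvPolynomial (Fin d) ℤ →+* MvPolynomial (Option (Fin d)) ℤ :=
    (rename some : MvPolynomial (Fin d) ℤ →ₐ[ℤ] MvPolynomial (Option (Fin d)) ℤ).toRingHom with hι
  have hιinj : Function.Injective ι := rename_injective _ (Option.some_injective _)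
  set ψ : MvPolynomial (Fin d) ℤ →+* L := φ.comp ι with hψ
  have hψinj : Function.Injective ψ := by
    rw [injective_iff_map_eq_zero]
    intro c hc
    by_contra hc0
    obtain ⟨c', hc', hdvd⟩ := (hφ (rename some c)).1 hc
    apply hI.one
    refine ⟨c' * c, mul_ne_zero hc' hc0, ?_⟩
    rw [map_mul, mul_one]
    exact hdvd
  have hA0 : φ A ≠ 0 := fun h0 => hA ((hφ A).1 h0)
  have hF0 : φ F ≠ 0 := fun h0 => hF ((hφ F).1 h0)
  have hA1 : A ≠ 0 := fun h0 => hA0 (by rw [h0, map_zero])
  set P' : Polynomial L := P.map ψ with hP'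
  set Q' : Polynomial L := Polynomial.C (φ A) * Polynomial.X ^ r - Polynomial.C (φ F) with hQ'
  have hP'0 : P' ≠ 0 := (Polynomial.map_ne_zero_iff hψinj).2 hP
  have hQd : ∀ {S : Type} [CommRing S] [IsDomain S] (a f : S), a ≠ 0 →
      (Polynomial.C a * Polynomial.X ^ r - Polynomial.C f).natDegree = r := by
    intro S _ _ a f ha
    rw [Polynomial.natDegree_sub_C, Polynomial.natDegree_C_mul_X_pow r a ha]
  have hres' : Polynomial.resultant P' Q' = 0 := by
    have e1 : P' = (P.map ι).map φ := by rw [hP', hψ, Polynomial.map_map]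
    have e2 : Q' = (Polynomial.C A * Polynomial.X ^ r - Polynomial.C F).map φ := by
      rw [hQ']; simp
    have e3 : P'.natDegree = (P.map ι).natDegree := by
      rw [hP', Polynomial.natDegree_map_eq_of_injective hψinj,
        Polynomial.natDegree_map_eq_of_injective hιinj]
    have e4 : Q'.natDegree = (Polynomial.C A * Polynomial.X ^ r - Polynomial.C F).natDegree := by
      rw [hQ', hQd _ _ hA0, hQd _ _ hA1]
    rw [e3, e4]
    conv_lhs => rw [e1, e2]
    rw [Polynomial.resultant_map_map]
    exact (hφ _).2 hres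
  rw [Polynomial.resultant_eq_zero_iff] at hres'
  have h1 := hres'.2
  rw [Polynomial.isCoprime_iff_aeval_ne_zero_of_isAlgClosed L (AlgebraicClosure L)] at h1
  push Not at h1
  obtain ⟨ζ, hζ1, hζ2⟩ := h1
  have hint : IsIntegral L ζ := (AlgebraicClosure.isAlgebraic L).isAlgebraic ζ |>.isIntegral
  have hζ3 : algebraMap L (AlgebraicClosure L) (φ A) * ζ ^ r =
      algebraMap L (AlgebraicClosure L) (φ F) := by
    rw [hQ'] at hζ2
    simpa [sub_eq_zero] using hζ2
  set g := IntermediateField.AdjoinSimple.gen L ζ with hg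
  have hgr : g ^ r = algebraMap L (IntermediateField.adjoin L {ζ}) (φ F / φ A) := by
    apply Subtype.ext
    have e1 : ((g ^ r : IntermediateField.adjoin L {ζ}) : AlgebraicClosure L) = ζ ^ r := by
      rw [hg]
      push_cast
      rw [IntermediateField.AdjoinSimple.coe_gen]
    rw [e1]
    have e2 : ((algebraMap L (IntermediateField.adjoin L {ζ}) (φ F / φ A) :
        IntermediateField.adjoin L {ζ}) : AlgebraicClosure L) =
        algebraMap L (AlgebraicClosure L) (φ F / φ A) := rfl
    rw [e2, map_div₀, ← hζ3]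
    have : algebraMap L (AlgebraicClosure L) (φ A) ≠ 0 := by
      rw [Ne, map_eq_zero]; exact hA0
    field_simp
  have hκ : Module.finrank L (IntermediateField.adjoin L {ζ}) = (minpoly L ζ).natDegree :=
    IntermediateField.adjoin.finrank hint
  set η := Algebra.norm L g with hη
  have hηr : η ^ r = (φ F / φ A) ^ (minpoly L ζ).natDegree := by
    rw [hη, ← map_pow, hgr, Algebra.norm_algebraMap, hκ]
  have hη0 : η ≠ 0 := by
    intro h0
    rw [h0, zero_pow (by omega)] at hηr
    exact pow_ne_zero _ (div_ne_zero hF0 hA0) hηr.symm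
  obtain ⟨g₁, g₂, hg₂, hgg⟩ := hfrac η
  have hg₁ : φ g₁ ≠ 0 := by
    intro h0
    rw [h0, zero_div] at hgg
    exact hη0 hgg
  refine ⟨(minpoly L ζ).natDegree, minpoly.natDegree_pos hint, ?_, g₁, g₂,
    fun h0 => hg₁ ((hφ _).2 h0), fun h0 => hg₂ ((hφ _).2 h0), ?_⟩
  · have h2 : minpoly L ζ ∣ P' := minpoly.dvd L ζ hζ1
    refine (Polynomial.natDegree_le_of_dvd h2 hP'0).trans ?_
    rw [hP', Polynomial.natDegree_map_eq_of_injective hψinj]
  · rw [← hφ, map_sub, map_mul, map_mul, map_pow, map_pow, map_pow, map_pow, sub_eq_zero]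
    rw [hgg, div_pow, div_pow, div_eq_div_iff (pow_ne_zero _ hg₂) (pow_ne_zero _ hA0)] at hηr
    linear_combination -hηr

end Pool.Agent.N741.HB
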