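import Mathlib
import Pool.Agent.N741.HB.Core
import Pool.Agent.N741.HB.Root
import Pool.Agent.N572.HB.StarL
import Pool.Agent.N572.HB.Van
import Pool.Agent.N966.HB.Can
import Pool.Agent.N966.HB.Ker
import Pool.Agent.N27.HB.Det
import Pool.Agent.N459.HB.Gd
import Pool.Agent.N20.HB.Start
import Pool.Agent.N368.HB.Irr
import Pool.Agent.N26.HB.Rel
import Pool.Agent.N618.HB.Dir
import Pool.Agent.N72.HB.Conv
import Pool.Agent.N54.HB.Alg
import Pool.Agent.N603.HB.Ratio
import Pool.Agent.N222.HB.Hb

/-!
# The core theorem and the counting theorem

Parts of the proof: determinant method with a large function (helper27), generic data (helper459),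
equations of the independent coordinates (helper20), irreducibility (helper368), mild equations and
leading coefficients (helper572), small kernel vectors, genus and heights (helper966), from points to the function field (helper26), unit equations over function fields
(helper618), bounded degree in all directions (helper72), the function field statement (helper54),
nearly constant ratios (helper603), the counting theorem (helper222).
-/

set_option autoImplicit false

namespace Pool.Agent.N741.HB

theorem core' (root : S_root) : S_core :=
  core_of N572.HB.van N459.HB.gd (N368.HB.irr N966.HB.ker)
    (N26.HB.rel N27.HB.det (N572.HB.starL N20.HB.start (N368.HB.irr N966.HB.ker)) root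
      (N368.HB.irr N966.HB.ker) N572.HB.van)
    (N54.HB.alg (N618.HB.dir N966.HB.can) N72.HB.conv)
    (N603.HB.ratio N572.HB.van N966.HB.ker N20.HB.start)

/-- **The core theorem.** -/
theorem core : S_core := core' root

/-- **The counting theorem.** -/
theorem hb : S_hb := N222.HB.hb core

end Pool.Agent.N741.HB
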