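import Mathlib
import Pool.Agent.N741.HB.Thm
import Pool.Agent.N403.HB.Lp
import Pool.Agent.N426.HB.Const
import Pool.Agent.N152.HB.Pv
import Pool.Agent.N415.HB.Abc
import Pool.Agent.N147.HB.Cover
import Pool.Agent.N340.HB.DetP
import Pool.Agent.N26.HB.RelP
import Pool.Agent.N692.HB.Gdm

/-!
# Second part of the project HB: the theorems

Large parts (helper403), functions with trivial divisors (helper426), power values of polynomials
(helper152), abc triples (helper415), covering lemma (helper147), determinant method for any
equation (helper340), factors over the function field (helper26), finite covers (helper692).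
-/

set_option autoImplicit false

namespace Pool.Agent.N741.HB

theorem irr : S_irr := N368.HB.irr N966.HB.ker

theorem starL : S_starL := N572.HB.starL N20.HB.start irr

/-- **Large parts.** -/
theorem lp : S_lp := N403.HB.lp core

/-- **Few power values of polynomials.** -/
theorem pv : S_pv := N152.HB.pv N459.HB.gd irr
  (N26.HB.rel N27.HB.det starL root irr N572.HB.van) N426.HB.const N572.HB.van

/-- **Few abc triples.** -/
theorem abc : S_abc := N415.HB.abc lp pv

/-- **Finite covers.** -/
theorem gdm : S_gdm := N692.HB.Gdm.gdm N459.HB.gd irr
  (N26.HB.relP N340.HB.detP starL irr N572.HB.van) N572.HB.van N147.HB.cover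

end Pool.Agent.N741.HB
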