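import Mathlib
import Pool.Agent.N741.HB.Gdm2
import Pool.Agent.N54.HB.A3
import Pool.Agent.N741.HB.Thm2

/-!
# Finite covers: rational points, any leading coefficient
-/

set_option autoImplicit false

namespace Pool.Agent.N741.HB.Gdm2

open MvPolynomial Pool.Agent.N741.HB Pool.Agent.Y902.GN Pool.Agent.N692.HB.Gdm

/-- **Finite covers.** -/
theorem gdmC : S_gdm2 := gdm2 N459.HB.gd irr
  (N26.HB.relP N340.HB.detP starL irr N572.HB.van) N572.HB.van N147.HB.cover

section alg

variable {R : Type*} [CommRing R]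

theorem iN_comp (P : Polynomial R) (hP : 1 ≤ P.natDegree) :
    (Polynomial.integralNormalization P).comp (Polynomial.C P.leadingCoeff * Polynomial.X) =
      Polynomial.C (P.leadingCoeff ^ (P.natDegree - 1)) * P := by
  ext i
  rw [Polynomial.comp_C_mul_X_coeff, Polynomial.integralNormalization_coeff_mul_leadingCoeff_pow i
    hP, Polynomial.coeff_C_mul, mul_comm]

theorem iN_map {S : Type*} [CommRing S] (f : R →+* S) (P : Polynomial R) (hP : 1 ≤ P.natDegree) :
    ((Polynomial.integralNormalization P).map f).comp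
      (Polynomial.C (f P.leadingCoeff) * Polynomial.X) =
      Polynomial.C (f P.leadingCoeff ^ (P.natDegree - 1)) * P.map f := by
  have h := congrArg (Polynomial.map f) (iN_comp P hP)
  rw [Polynomial.map_comp, Polynomial.map_mul, Polynomial.map_C, Polynomial.map_X,
    Polynomial.map_mul, Polynomial.map_C, map_pow] at h
  exact h

theorem natDegree_comp_mul {L : Type*} [Field L] (M : Polynomial L) {a : L} (ha : a ≠ 0) :
    (M.comp (Polynomial.C a * Polynomial.X)).natDegree = M.natDegree := by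
  rw [Polynomial.natDegree_comp, Polynomial.natDegree_C_mul_X a ha, mul_one]

/-- the roots -/
theorem iN_root {P : Polynomial ℤ} {Q : Polynomial ℤ} {a : ℤ} {D : ℕ} (ha : a ≠ 0)
    (h : Q.comp (Polynomial.C a * Polynomial.X) = Polynomial.C (a ^ D) * P) (hQ : Q.Monic)
    {z : ℚ} (h1 : Polynomial.aeval z P = 0) (h2 : Polynomial.aeval z (Polynomial.derivative P) ≠ 0) :
    ∃ z' : ℤ, Q.eval z' = 0 ∧ Q.derivative.eval z' ≠ 0 := by
  have h3 : Polynomial.aeval ((a : ℚ) * z) Q = 0 := by
    have h4 := congrArg (Polynomial.aeval z) h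
    rw [Polynomial.aeval_comp, map_mul, map_mul, h1, mul_zero, Polynomial.aeval_X,
      Polynomial.aeval_C] at h4
    exact h4
  obtain ⟨z', hz', -⟩ := exists_integer_of_is_root_of_monic hQ h3
  have hz2 : (z' : ℚ) = (a : ℚ) * z := hz'.symm
  refine ⟨z', ?_, ?_⟩
  · rw [← hz2] at h3
    have : ((Q.eval z' : ℤ) : ℚ) = 0 := by
      rw [← h3]
      exact (Polynomial.aeval_algebraMap_apply_eq_algebraMap_eval (A := ℚ) z' Q).symm
    exact_mod_cast this
  · intro h0
    apply h2
    have h4 := congrArg Polynomial.derivative h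
    rw [Polynomial.derivative_comp, Polynomial.derivative_C_mul_X, Polynomial.derivative_C_mul]
      at h4
    have h5 := congrArg (Polynomial.aeval z) h4
    rw [map_mul, Polynomial.aeval_comp, map_mul, map_mul, Polynomial.aeval_X, Polynomial.aeval_C,
      Polynomial.aeval_C] at h5
    have h6 : Polynomial.aeval ((a : ℚ) * z) (Polynomial.derivative Q) = 0 := by
      rw [← hz2]
      have h7 := Polynomial.aeval_algebraMap_apply_eq_algebraMap_eval (A := ℚ) z'
        (Polynomial.derivative Q)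
      rw [h0, map_zero] at h7
      exact h7
    have h8 : (algebraMap ℤ ℚ) a = (a : ℚ) := rfl
    rw [h8, h6, mul_zero] at h5
    have h9 : ((algebraMap ℤ ℚ) (a ^ D)) ≠ 0 := by
      have : (a : ℚ) ^ D ≠ 0 := pow_ne_zero _ (by exact_mod_cast ha)
      simpa using this
    exact (mul_eq_zero.1 h5.symm).resolve_left h9

end alg

section size

variable {n : ℕ}

/-- degrees and coefficients -/
def Small (P : Polynomial (MvPolynomial (Fin n) ℤ)) (u : ℝ) : Prop :=
  ((P.natDegree : ℝ) ≤ u ∧ ∀ l, (((P.coeff l).totalDegree : ℝ) ≤ u ∧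
      ∀ m, ((|((P.coeff l).coeff m)| : ℤ) : ℝ) ≤ Real.exp u))

theorem Small.l1 {P : Polynomial (MvPolynomial (Fin n) ℤ)} {u : ℝ} (h : Small P u) (l : ℕ) :
    ((L1 (P.coeff l) : ℤ) : ℝ) ≤ Real.exp ((n + 1) * u) := by
  have hu : 0 ≤ u := (Nat.cast_nonneg _).trans h.1
  obtain ⟨h1, h2⟩ := h.2 l
  obtain ⟨B, hB⟩ : ∃ B : ℤ, B = ⌊Real.exp u⌋ := ⟨_, rfl⟩
  have h3 := L1_le (D := (P.coeff l).totalDegree) (B := B) le_rfl (fun m => by
    rw [hB]; exact Int.le_floor.2 (h2 m))
  have h4 : ((L1 (P.coeff l) : ℤ) : ℝ) ≤ (((P.coeff l).totalDegree : ℝ) + 1) ^ n * (B : ℝ) := by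
    rw [Fintype.card_fin] at h3
    exact_mod_cast h3
  refine h4.trans ?_
  rw [add_mul, one_mul, Real.exp_add, Real.exp_nat_mul]
  refine mul_le_mul (pow_le_pow_left₀ (by positivity) ?_ _) ?_ ?_ (by positivity)
  · have := Real.add_one_le_exp u
    linarith
  · rw [hB]; exact Int.floor_le _
  · rw [hB]; exact_mod_cast Int.floor_nonneg.2 (Real.exp_pos u).le

theorem one_le_L1 {σ : Type*} {p : MvPolynomial σ ℤ} (h : p ≠ 0) : 1 ≤ L1 p := by
  obtain ⟨m, hm⟩ := ne_zero_iff.1 h
  exact (Int.one_le_abs hm).trans (abs_coeff_le p m)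

theorem iN_small {P : Polynomial (MvPolynomial (Fin n) ℤ)} {u : ℝ} (h : Small P u)
    (hP : 1 ≤ P.natDegree) (i : ℕ) :
    (((Polynomial.integralNormalization P).coeff i).totalDegree : ℝ) ≤ u ^ 2 ∧
      ((L1 ((Polynomial.integralNormalization P).coeff i) : ℤ) : ℝ) ≤ Real.exp ((n + 1) * u ^ 2) := by
  have hu : 1 ≤ u := le_trans (by exact_mod_cast hP) h.1
  have hP0 : P ≠ 0 := by rintro rfl; simp at hP
  have hexp1 : 1 ≤ Real.exp ((n + 1) * u ^ 2) := Real.one_le_exp (by positivity)
  rcases lt_trichotomy i P.natDegree with hi | hi | hi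
  · rw [Polynomial.integralNormalization_coeff_ne_natDegree hi.ne]
    constructor
    · have h1 : ((P.coeff i) * P.leadingCoeff ^ (P.natDegree - 1 - i)).totalDegree ≤
          (P.coeff i).totalDegree + (P.natDegree - 1) * P.leadingCoeff.totalDegree := by
        refine (totalDegree_mul _ _).trans (Nat.add_le_add_left ?_ _)
        refine (totalDegree_pow _ _).trans (Nat.mul_le_mul_right _ (by omega))
      have h2 := (h.2 i).1
      have h3 := (h.2 P.natDegree).1
      have h4 : (((P.natDegree - 1 : ℕ)) : ℝ) ≤ u - 1 := by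
        rw [Nat.cast_sub hP]
        push_cast
        linarith [h.1]
      calc ((((P.coeff i) * P.leadingCoeff ^ (P.natDegree - 1 - i)).totalDegree : ℕ) : ℝ)
          ≤ ((P.coeff i).totalDegree : ℝ) + ((P.natDegree - 1 : ℕ) : ℝ) *
            (P.leadingCoeff.totalDegree : ℝ) := by exact_mod_cast h1
        _ ≤ u + (u - 1) * u := by
            refine add_le_add h2 (mul_le_mul h4 h3 (by positivity) (by linarith))
        _ = u ^ 2 := by ring
    · have h1 : L1 ((P.coeff i) * P.leadingCoeff ^ (P.natDegree - 1 - i)) ≤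
          L1 (P.coeff i) * L1 P.leadingCoeff ^ (P.natDegree - 1) := by
        refine (L1_mul _ _).trans (mul_le_mul_of_nonneg_left ?_ (L1_nonneg _))
        refine (L1_pow _ _).trans (pow_le_pow_right₀ (one_le_L1 ?_) (by omega))
        exact Polynomial.leadingCoeff_ne_zero.2 hP0
      have h2 := h.l1 i
      have h3 : ((L1 P.leadingCoeff : ℤ) : ℝ) ≤ Real.exp ((n + 1) * u) := h.l1 P.natDegree
      have h4 : (((P.natDegree - 1 : ℕ)) : ℝ) ≤ u - 1 := by
        rw [Nat.cast_sub hP]
        push_cast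
        linarith [h.1]
      have hn1 : (0 : ℝ) ≤ (n + 1 : ℝ) * u := by positivity
      calc ((L1 ((P.coeff i) * P.leadingCoeff ^ (P.natDegree - 1 - i)) : ℤ) : ℝ)
          ≤ ((L1 (P.coeff i) : ℤ) : ℝ) * ((L1 P.leadingCoeff : ℤ) : ℝ) ^ (P.natDegree - 1) := by
            exact_mod_cast h1
        _ ≤ Real.exp ((n + 1) * u) * Real.exp ((n + 1) * u) ^ (P.natDegree - 1) := by
            have h0 : (0 : ℝ) ≤ ((L1 P.leadingCoeff : ℤ) : ℝ) := by exact_mod_cast L1_nonneg _
            exact mul_le_mul h2 (pow_le_pow_left₀ h0 h3 _) (by positivity) (by positivity)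
        _ = Real.exp ((n + 1) * u + ((P.natDegree - 1 : ℕ) : ℝ) * ((n + 1) * u)) := by
            rw [← Real.exp_nat_mul, ← Real.exp_add]
        _ ≤ Real.exp ((n + 1) * u ^ 2) := by
            apply Real.exp_le_exp.2
            nlinarith [mul_le_mul_of_nonneg_right h4 hn1]
  · rw [hi, Polynomial.integralNormalization_coeff_natDegree hP0, totalDegree_one, L1_one]
    constructor
    · push_cast
      positivity
    · push_cast
      exact hexp1
  · rw [Polynomial.coeff_eq_zero_of_natDegree_lt (by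
      rw [Polynomial.natDegree_integralNormalization]; exact hi), totalDegree_zero, L1_zero]
    constructor
    · push_cast
      positivity
    · push_cast
      positivity

/-- an integral root of a monic polynomial -/
theorem root_bd2 {q : Polynomial ℤ} (hq : q.Monic) {B : ℝ} (hB : 0 ≤ B)
    (h : ∀ i, ((|q.coeff i| : ℤ) : ℝ) ≤ B) {z : ℤ} (hz : q.eval z = 0) :
    ((|z| : ℤ) : ℝ) ≤ B + 1 := by
  have h1 : (q.map (Int.castRingHom ℝ)).IsRoot (z : ℝ) := by
    rw [Polynomial.IsRoot.def]
    have := Polynomial.eval_map_apply (Int.castRingHom ℝ) (p := q) z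
    have h2 : (Int.castRingHom ℝ) z = (z : ℝ) := rfl
    rw [h2] at this
    rw [this, hz, map_zero]
  have h2 : (q.map (Int.castRingHom ℝ)) ≠ 0 := (hq.map _).ne_zero
  have h3 := h1.norm_lt_cauchyBound h2
  have h4 : (Polynomial.cauchyBound (q.map (Int.castRingHom ℝ)) : ℝ) ≤ B + 1 := by
    unfold Polynomial.cauchyBound
    rw [(hq.map (Int.castRingHom ℝ)).leadingCoeff]
    simp only [nnnorm_one, div_one, NNReal.coe_add, NNReal.coe_one, add_le_add_iff_right]
    have h5 : (Finset.range (q.map (Int.castRingHom ℝ)).natDegree).sup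
        (fun x => ‖(q.map (Int.castRingHom ℝ)).coeff x‖₊) ≤ B.toNNReal := by
      refine Finset.sup_le fun i _ => ?_
      rw [Polynomial.coeff_map]
      have h6 := h i
      rw [← NNReal.coe_le_coe, Real.coe_toNNReal B hB]
      show ‖((q.coeff i : ℤ) : ℝ)‖ ≤ B
      rw [Real.norm_eq_abs]
      exact_mod_cast h6
    have h7 := NNReal.coe_le_coe.2 h5
    rwa [Real.coe_toNNReal B hB] at h7
  have h5 : ((|z| : ℤ) : ℝ) = ((‖(z : ℝ)‖₊ : NNReal) : ℝ) := by
    rw [coe_nnnorm, Real.norm_eq_abs]
    push_cast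
    rfl
  rw [h5]
  exact (NNReal.coe_lt_coe.2 h3).le.trans h4

end size

section on

variable {n : ℕ}

/-- `φ` is a homomorphism to a field containing the function field of the subvariety -/
def IsFn (V : Chart n) {L : Type} [Field L] (φ : MvPolynomial (Option (Fin V.d)) ℤ →+* L) : Prop :=
  ∀ p, φ p = 0 ↔ InP V.h p

/-- substitution of the coordinate functions `x j = b j / b0` of the subvariety -/
noncomputable def gen (V : Chart n) {L : Type} [Field L]
    (φ : MvPolynomial (Option (Fin V.d)) ℤ →+* L) : MvPolynomial (Fin n) ℤ →+* L :=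
  eval₂Hom (Int.castRingHom L) fun j => φ (V.b j) / φ (rename some V.b0)

/-- the polynomial `p` vanishes on the subvariety -/
def Van (V : Chart n) (p : MvPolynomial (Fin n) ℤ) : Prop :=
  ∀ (L : Type) [Field L] (φ : MvPolynomial (Option (Fin V.d)) ℤ →+* L), IsFn V φ → gen V φ p = 0

/-- the point is on the subvariety: all polynomials which vanish on the subvariety vanish at `x` -/
def On (V : Chart n) (x : Fin n → ℤ) : Prop := ∀ p, Van V p → eval x p = 0

theorem b0_ne {V : Chart n} {K Y : ℕ} (hV : V.Cx K Y) {L : Type} [Field L]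
    {φ : MvPolynomial (Option (Fin V.d)) ℤ →+* L} (hφ : IsFn V φ) : φ (rename some V.b0) ≠ 0 :=
  phi_rename hV.irr hφ hV.b0

theorem gen_mul {V : Chart n} {K Y : ℕ} (hV : V.Cx K Y) {L : Type} [Field L]
    {φ : MvPolynomial (Option (Fin V.d)) ℤ →+* L} (hφ : IsFn V φ) (j : Fin n) :
    φ (rename some V.b0) * (φ (V.b j) / φ (rename some V.b0)) = φ (V.b j) :=
  mul_div_cancel₀ _ (b0_ne hV hφ)

theorem gen_eq {V : Chart n} {K Y : ℕ} (hV : V.Cx K Y) {L : Type} [Field L]
    {φ : MvPolynomial (Option (Fin V.d)) ℤ →+* L} (hφ : IsFn V φ) (p : MvPolynomial (Fin n) ℤ) :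
    φ (hm (rename some V.b0) V.b p.totalDegree p) =
      φ (rename some V.b0) ^ p.totalDegree * gen V φ p :=
  map_hm φ (gen_mul hV hφ) le_rfl

/-- vanishing does not depend on the field -/
theorem gen_zero_iff {V : Chart n} {K Y : ℕ} (hV : V.Cx K Y) {L : Type} [Field L]
    {φ : MvPolynomial (Option (Fin V.d)) ℤ →+* L} (hφ : IsFn V φ) (p : MvPolynomial (Fin n) ℤ) :
    gen V φ p = 0 ↔ InP V.h (hm (rename some V.b0) V.b p.totalDegree p) := by
  rw [← hφ, gen_eq hV hφ, mul_eq_zero, or_iff_right (pow_ne_zero _ (b0_ne hV hφ))]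

theorem van_iff {V : Chart n} {K Y : ℕ} (hV : V.Cx K Y) {L : Type} [Field L]
    {φ : MvPolynomial (Option (Fin V.d)) ℤ →+* L} (hφ : IsFn V φ) (p : MvPolynomial (Fin n) ℤ) :
    Van V p ↔ gen V φ p = 0 := by
  constructor
  · exact fun h => h L φ hφ
  · intro h L' _ φ' hφ'
    rw [gen_zero_iff hV hφ']
    exact (gen_zero_iff hV hφ p).1 h

theorem On.of_ptC {V : Chart n} {K Y : ℕ} (hV : V.Cx K Y) {x : Fin n → ℤ} (h : PtC V x) :
    On V x := by
  intro p hp
  obtain ⟨L, _, φ, hφ, -⟩ := N54.HB.exL V.h hV.irr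
  obtain ⟨h0, θ, h1, h2⟩ := h
  have h3 := h1 _ ((gen_zero_iff hV (φ := φ) hφ p).1 (hp L φ hφ))
  have h4 : eval (fun o : Option (Fin V.d) => o.elim θ fun b => x (V.ι b)) (rename some V.b0) =
      eval (fun b => x (V.ι b)) V.b0 := by
    rw [eval_rename]
    rfl
  have h5 := map_hm (eval (fun o : Option (Fin V.d) => o.elim θ fun b => x (V.ι b)))
    (b0 := rename some V.b0) (b := V.b) (y := x) (fun j => by rw [h4]; exact h2 j)
    (D := p.totalDegree) (c := p) le_rfl
  rw [h3, h4, eval₂Hom_eval] at h5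
  exact (mul_eq_zero.1 h5.symm).resolve_left (pow_ne_zero _ h0)

/-- factors of `P` and of `integralNormalization P` -/
theorem factor_of_iN {V : Chart n} {P : Polynomial (MvPolynomial (Fin n) ℤ)} {K : ℕ}
    (hP : 1 ≤ P.natDegree) (hl : ∀ (L : Type) [Field L]
      (φ : MvPolynomial (Option (Fin V.d)) ℤ →+* L), IsFn V φ → gen V φ P.leadingCoeff ≠ 0)
    (h : V.Factor (Polynomial.integralNormalization P) K) : V.Factor P K := by
  intro L _ φ hφ
  obtain ⟨h1, M, m1, m2, m3⟩ := h L φ hφ
  have hl' : gen V φ P.leadingCoeff ≠ 0 := hl L φ hφ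
  have e := iN_map (gen V φ) P hP
  have hu : (gen V φ P.leadingCoeff) ^ (P.natDegree - 1) ≠ 0 := pow_ne_zero _ hl'
  refine ⟨?_, M.comp (Polynomial.C (gen V φ P.leadingCoeff) * Polynomial.X), ?_, ?_, ?_⟩
  · intro h0
    change P.map (gen V φ) = 0 at h0
    apply hl'
    have := congrArg (fun q => Polynomial.coeff q P.natDegree) h0
    simpa using this
  · rw [natDegree_comp_mul M hl']
    exact m1
  · rw [natDegree_comp_mul M hl']
    exact m2
  · have h2 : M.comp (Polynomial.C (gen V φ P.leadingCoeff) * Polynomial.X) ∣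
        Polynomial.C (gen V φ P.leadingCoeff ^ (P.natDegree - 1)) * P.map (gen V φ) := by
      rw [← e]
      obtain ⟨N, hN⟩ := m3
      refine ⟨N.comp (Polynomial.C (gen V φ P.leadingCoeff) * Polynomial.X), ?_⟩
      change (Polynomial.integralNormalization P).map (gen V φ) = M * N at hN
      rw [hN, Polynomial.mul_comp]
    exact (IsUnit.dvd_mul_left (Polynomial.isUnit_C.2 hu.isUnit)).1 h2

/-- the homomorphism in terms of the independent coordinates -/
theorem phi_aeval {V : Chart n} {L : Type} [Field L]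
    (φ : MvPolynomial (Option (Fin V.d)) ℤ →+* L) (p : MvPolynomial (Option (Fin V.d)) ℤ) :
    φ p = aeval (fun o : Option (Fin V.d) => o.elim (φ (X none)) fun b => φ (X (some b))) p := by
  have h3 : φ = (aeval (fun o : Option (Fin V.d) => o.elim (φ (X none)) fun b => φ (X (some b))) :
      MvPolynomial (Option (Fin V.d)) ℤ →ₐ[ℤ] L).toRingHom := by
    apply MvPolynomial.ringHom_ext
    · intro c
      rw [AlgHom.toRingHom_eq_coe, RingHom.coe_coe, aeval_C, eq_intCast, eq_intCast, map_intCast]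
    · intro o
      rw [AlgHom.toRingHom_eq_coe, RingHom.coe_coe, aeval_X]
      rcases o with _ | c
      · rfl
      · rfl
  exact RingHom.congr_fun h3 p

theorem charZero {V : Chart n} {K Y : ℕ} (hV : V.Cx K Y) {L : Type} [Field L]
    {φ : MvPolynomial (Option (Fin V.d)) ℤ →+* L} (hφ : IsFn V φ) : CharZero L := by
  apply charZero_of_inj_zero
  intro m hm
  have h1 := phi_int hV.irr hφ
  have h2 : (Int.castRingHom L) (m : ℤ) = (Int.castRingHom L) 0 := by
    rw [map_zero]
    simpa using hm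
  exact_mod_cast h1 h2

theorem algInd {V : Chart n} {K Y : ℕ} (hV : V.Cx K Y) {L : Type} [Field L]
    {φ : MvPolynomial (Option (Fin V.d)) ℤ →+* L} (hφ : IsFn V φ) :
    AlgebraicIndependent ℤ fun b => φ (X (some b)) := by
  refine (injective_iff_map_eq_zero _).2 fun p hp => ?_
  by_contra hp0
  refine phi_rename hV.irr hφ hp0 ?_
  rw [phi_aeval, aeval_rename]
  exact hp

/-- a subvariety of dimension `0` contains at most one integral point -/
theorem On.unique {V : Chart n} {K Y : ℕ} (hV : V.Cx K Y) (hd : V.d = 0) {x x' : Fin n → ℤ}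
    (hx : On V x) (hx' : On V x') : x = x' := by
  obtain ⟨L, _, φ, hφ, hgen⟩ := N54.HB.exL V.h hV.irr
  have hchar := charZero hV hφ
  have hφe := phi_aeval φ
  have key : ∀ j, ∀ x : Fin n → ℤ, On V x → gen V φ (X j) = (x j : L) := by
    intro j x hx
    obtain ⟨P, hP1, -, hP3⟩ := N54.HB.degL _ (φ (X none)) (algInd hV hφ)
      (optionEquivLeft ℤ (Fin V.d) V.h) (by
        rw [Ne, map_eq_zero_iff _ (optionEquivLeft ℤ (Fin V.d)).injective]
        exact hV.irr.ne) (by
          rw [← N54.HB.ev_left, ← hφe, hφ]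
          exact ⟨1, one_ne_zero, dvd_mul_left _ _⟩) (fun z => by
        obtain ⟨a, b, _, hz⟩ := hgen z
        exact ⟨a, b, by rw [hz, ← hφe, ← hφe]⟩) (gen V φ (X j))
    have : IsEmpty (Fin V.d) := by rw [hd]; infer_instance
    obtain ⟨q, hq0, hq⟩ : ∃ q : Polynomial ℤ, q ≠ 0 ∧
        Polynomial.eval₂ (Int.castRingHom L) (gen V φ (X j)) q = 0 := by
      refine ⟨P.map (isEmptyRingEquiv ℤ (Fin V.d)).toRingHom, ?_, ?_⟩
      · rw [Ne, Polynomial.map_eq_zero_iff (isEmptyRingEquiv ℤ (Fin V.d)).injective]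
        exact hP1
      · rw [Polynomial.eval₂_map, ← hP3]
        congr 1
        refine RingHom.ext fun c => ?_
        obtain ⟨a, rfl⟩ := (isEmptyRingEquiv ℤ (Fin V.d)).symm.surjective c
        have e1 : (isEmptyRingEquiv ℤ (Fin V.d)).symm a = C a := rfl
        rw [e1]
        show (Int.castRingHom L) ((isEmptyRingEquiv ℤ (Fin V.d)) (C a)) = aeval _ (C a)
        rw [aeval_C]
        have e2 : (isEmptyRingEquiv ℤ (Fin V.d)) (C a) = a := by
          rw [← e1, RingEquiv.apply_symm_apply]
        rw [e2]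
        simp
    obtain ⟨q', hq'1, hq'2⟩ := Polynomial.exists_eq_pow_rootMultiplicity_mul_and_not_dvd q hq0 (x j)
    by_contra hne
    rw [hq'1, Polynomial.eval₂_mul, Polynomial.eval₂_pow, Polynomial.eval₂_sub, Polynomial.eval₂_X,
      Polynomial.eval₂_C, mul_eq_zero] at hq
    have hq'3 : Polynomial.eval₂ (Int.castRingHom L) (gen V φ (X j)) q' = 0 := by
      refine hq.resolve_left (pow_ne_zero _ ?_)
      rw [sub_ne_zero]
      exact hne
    apply hq'2
    rw [Polynomial.dvd_iff_isRoot, Polynomial.IsRoot.def]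
    have h4 := hx (Polynomial.eval₂ C (X j) q') ((van_iff hV hφ _).2 (by
      rw [Polynomial.hom_eval₂]
      rw [← hq'3]
      congr 1
      exact RingHom.ext_int _ _))
    rw [Polynomial.hom_eval₂, eval_X] at h4
    rw [← h4, Polynomial.eval]
    congr 1
    exact RingHom.ext_int _ _
  funext j
  have h1 := (key j x hx).symm.trans (key j x' hx')
  exact_mod_cast h1

section irr

variable {L : Type} [Field L] {d : ℕ} (t : Fin d → L) (θ : L)

/-- an irreducible polynomial has no factor of small degree over a finite extension -/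
theorem irr_bound [CharZero L] (ht : AlgebraicIndependent ℤ t)
    (H : Polynomial (MvPolynomial (Fin d) ℤ)) (hH0 : H ≠ 0)
    (hH : H.eval₂ (aeval t).toRingHom θ = 0)
    (hfrac : ∀ z : L, ∃ a b : MvPolynomial (Option (Fin d)) ℤ,
      z = aeval (fun o : Option (Fin d) => o.elim θ t) a /
        aeval (fun o : Option (Fin d) => o.elim θ t) b)
    {P : Polynomial (MvPolynomial (Fin d) ℤ)}
    (hP : Irreducible (P.map (algebraMap (MvPolynomial (Fin d) ℤ)
      (FractionRing (MvPolynomial (Fin d) ℤ))))) {M : Polynomial L} (h1 : 1 ≤ M.natDegree)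
    (hM : M ∣ P.map (aeval t).toRingHom) : P.natDegree ≤ M.natDegree * H.natDegree := by
  classical
  have hinj : Function.Injective (aeval t).toRingHom := ht
  let F := FractionRing (MvPolynomial (Fin d) ℤ)
  let algSL : Algebra (MvPolynomial (Fin d) ℤ) L := (aeval t).toRingHom.toAlgebra
  let algFL : Algebra F L :=
    (IsFractionRing.lift (A := MvPolynomial (Fin d) ℤ) (K := F) hinj).toAlgebra
  have hst : IsScalarTower (MvPolynomial (Fin d) ℤ) F L := by
    refine IsScalarTower.of_algebraMap_eq fun P => ?_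
    change (aeval t).toRingHom P = IsFractionRing.lift hinj (algebraMap _ F P)
    rw [IsFractionRing.lift_algebraMap]
  have hinjF : Function.Injective (algebraMap (MvPolynomial (Fin d) ℤ) F) :=
    IsFractionRing.injective _ F
  have hmap : ∀ (P : Polynomial (MvPolynomial (Fin d) ℤ)) (z : L),
      P.eval₂ (aeval t).toRingHom z =
        Polynomial.aeval z (P.map (algebraMap (MvPolynomial (Fin d) ℤ) F)) := fun P z => by
    rw [Polynomial.aeval_map_algebraMap]
    rfl
  have hHm0 : H.map (algebraMap (MvPolynomial (Fin d) ℤ) F) ≠ 0 := by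
    rwa [Ne, Polynomial.map_eq_zero_iff hinjF]
  have hHdeg : (H.map (algebraMap (MvPolynomial (Fin d) ℤ) F)).natDegree = H.natDegree :=
    Polynomial.natDegree_map_eq_of_injective hinjF H
  have hθ : IsIntegral F θ := by
    refine IsAlgebraic.isIntegral ⟨_, hHm0, ?_⟩
    rw [← hmap, hH]
  have hmin : (minpoly F θ).natDegree ≤ H.natDegree := by
    rw [← hHdeg]
    exact Polynomial.natDegree_le_of_dvd (minpoly.dvd F θ (by rw [← hmap, hH])) hHm0
  have hmem : ∀ p : MvPolynomial (Option (Fin d)) ℤ,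
      aeval (fun o : Option (Fin d) => o.elim θ t) p ∈ IntermediateField.adjoin F {θ} := by
    intro p
    induction p using MvPolynomial.induction_on with
    | C c =>
      rw [aeval_C, eq_intCast]
      exact intCast_mem _ _
    | add P Q hP hQ =>
      rw [map_add]
      exact add_mem hP hQ
    | mul_X P o hP =>
      rw [map_mul]
      refine mul_mem hP ?_
      rw [aeval_X]
      rcases o with _ | c
      · exact IntermediateField.mem_adjoin_simple_self F θ
      · have h1 : algebraMap F L (algebraMap (MvPolynomial (Fin d) ℤ) F (X c)) = t c := by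
          rw [← IsScalarTower.algebraMap_apply]
          exact aeval_X t c
        change t c ∈ _
        rw [← h1]
        exact IntermediateField.algebraMap_mem _ _
  have htop : IntermediateField.adjoin F {θ} = ⊤ := by
    rw [eq_top_iff]
    intro z _
    obtain ⟨a, b, rfl⟩ := hfrac z
    exact div_mem (hmem a) (hmem b)
  have hfin : Module.finrank F L ≤ H.natDegree := by
    rw [← IntermediateField.finrank_top', ← htop, IntermediateField.adjoin.finrank hθ]
    exact hmin
  have hfd : FiniteDimensional F L := by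
    have h1 : FiniteDimensional F (IntermediateField.adjoin F {θ}) :=
      IntermediateField.adjoin.finiteDimensional hθ
    rw [htop] at h1
    exact LinearEquiv.finiteDimensional IntermediateField.topEquiv.toLinearEquiv
  -- a root of `M`
  have hM0 : M ≠ 0 := by rintro rfl; simp at h1
  obtain ⟨α, hα⟩ := IsAlgClosed.exists_aeval_eq_zero (AlgebraicClosure L) M (by
    rw [Polynomial.degree_eq_natDegree hM0]
    exact_mod_cast (show M.natDegree ≠ 0 by omega))
  have hαL : IsIntegral L α := IsAlgebraic.isIntegral ⟨M, hM0, hα⟩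
  have hE : Module.finrank L (IntermediateField.adjoin L {α}) ≤ M.natDegree := by
    rw [IntermediateField.adjoin.finrank hαL]
    exact Polynomial.natDegree_le_of_dvd (minpoly.dvd L α hα) hM0
  have hfdE : FiniteDimensional L (IntermediateField.adjoin L {α}) :=
    IntermediateField.adjoin.finiteDimensional hαL
  set E := IntermediateField.adjoin L {α} with hEd
  have hfdFE : FiniteDimensional F E := FiniteDimensional.trans F L E
  have hFE : Module.finrank F E = Module.finrank F L * Module.finrank L E :=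
    (Module.finrank_mul_finrank F L E).symm
  let g : E := IntermediateField.AdjoinSimple.gen L α
  have hg : algebraMap E (AlgebraicClosure L) g = α := rfl
  have hgroot : Polynomial.aeval g (P.map (algebraMap (MvPolynomial (Fin d) ℤ) F)) = 0 := by
    have h2 : Polynomial.aeval α (P.map (aeval t).toRingHom) = 0 := by
      obtain ⟨N, hN⟩ := hM
      rw [hN, map_mul, hα, zero_mul]
    have h3 : Polynomial.aeval g (P.map (aeval t).toRingHom) = 0 := by
      apply (algebraMap E (AlgebraicClosure L)).injective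
      rw [map_zero, ← Polynomial.aeval_algebraMap_apply, hg, h2]
    have h4 : (P.map (algebraMap (MvPolynomial (Fin d) ℤ) F)).map (algebraMap F L) =
        P.map (aeval t).toRingHom := by
      rw [Polynomial.map_map, ← IsScalarTower.algebraMap_eq]
      rfl
    rw [← h4, Polynomial.aeval_map_algebraMap] at h3
    exact h3
  have hgF : IsIntegral F g := IsIntegral.of_finite F g
  have hdeg : (P.map (algebraMap (MvPolynomial (Fin d) ℤ) F)).natDegree ≤
      Module.finrank F E := by
    have h5 : minpoly F g ∣ P.map (algebraMap (MvPolynomial (Fin d) ℤ) F) :=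
      minpoly.dvd F g hgroot
    have h6 : Associated (minpoly F g) (P.map (algebraMap (MvPolynomial (Fin d) ℤ) F)) :=
      (minpoly.irreducible hgF).associated_of_dvd hP h5
    rw [← Polynomial.natDegree_eq_of_degree_eq (Polynomial.degree_eq_degree_of_associated h6)]
    exact minpoly.natDegree_le g
  rw [Polynomial.natDegree_map_eq_of_injective hinjF] at hdeg
  calc P.natDegree ≤ Module.finrank F L * Module.finrank L E := hFE ▸ hdeg
    _ ≤ H.natDegree * M.natDegree := Nat.mul_le_mul hfin hE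
    _ = M.natDegree * H.natDegree := mul_comm _ _

end irr

/-- over the whole space an irreducible polynomial of large degree has no factor of bounded
degree -/
theorem dim_lt {V : Chart n} {K Y : ℕ} (hV : Good V K Y) {P : Polynomial (MvPolynomial (Fin n) ℤ)}
    (hP : Irreducible (P.map (algebraMap (MvPolynomial (Fin n) ℤ)
      (FractionRing (MvPolynomial (Fin n) ℤ))))) (hK : K * K < P.natDegree)
    (hF : V.Factor P K) : V.d < n := by
  by_contra hcon
  have hd : V.d = n := le_antisymm hV.cx.d (not_lt.1 hcon)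
  obtain ⟨L, _, φ, hφ, hgen⟩ := N54.HB.exL V.h hV.cx.irr
  have hchar := charZero hV.cx hφ
  have hφe := phi_aeval φ
  have hbij : Function.Bijective V.ι := (Fintype.bijective_iff_injective_and_card V.ι).2
    ⟨hV.inj, by rw [Fintype.card_fin, Fintype.card_fin, hd]⟩
  let e : Fin V.d ≃ Fin n := Equiv.ofBijective V.ι hbij
  obtain ⟨y, hy⟩ : ∃ y : Fin n → L, y = fun j => φ (V.b j) / φ (rename some V.b0) := ⟨_, rfl⟩
  have hyι : ∀ b, y (e b) = φ (X (some b)) := by
    intro b
    have h1 := (hφ _).2 (hV.coh b)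
    rw [map_sub, map_mul, sub_eq_zero] at h1
    rw [hy]
    show φ (V.b (V.ι b)) / φ (rename some V.b0) = _
    rw [← h1]
    exact mul_div_cancel_left₀ _ (b0_ne hV.cx hφ)
  have hyi : AlgebraicIndependent ℤ y := by
    rw [← algebraicIndependent_equiv e]
    have h1 : y ∘ e = fun b => φ (X (some b)) := funext hyι
    rw [h1]
    exact algInd hV.cx hφ
  have hfn : ∀ p : MvPolynomial (Option (Fin V.d)) ℤ, φ p =
      aeval (fun o : Option (Fin n) => o.elim (φ (X none)) y) (rename (Option.map e) p) := by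
    intro p
    rw [hφe, aeval_rename]
    congr 2
    funext o
    rcases o with _ | b
    · rfl
    · exact (hyι b).symm
  obtain ⟨-, M, m1, m2, m3⟩ := hF L φ hφ
  have hgy : eval₂Hom (Int.castRingHom L) (fun j => φ (V.b j) / φ (rename some V.b0)) =
      (aeval y).toRingHom := by
    rw [← hy]
    apply MvPolynomial.ringHom_ext
    · intro c
      simp
    · intro j
      simp
  rw [hgy] at m3
  have h2 := irr_bound y (φ (X none)) hyi (optionEquivLeft ℤ (Fin n) (rename (Option.map e) V.h))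
    (by
      rw [Ne, map_eq_zero_iff _ (optionEquivLeft ℤ (Fin n)).injective]
      intro h0
      apply hV.cx.irr.ne
      exact (map_eq_zero_iff _ (rename_injective _ (Option.map_injective e.injective))).1 h0)
    (by
      rw [← N54.HB.ev_left, ← hfn, hφ]
      exact ⟨1, one_ne_zero, dvd_mul_left _ _⟩)
    (fun z => by
      obtain ⟨a, b, _, hz⟩ := hgen z
      exact ⟨rename (Option.map e) a, rename (Option.map e) b, by rw [hz, ← hfn, ← hfn]⟩) hP m1 m3
  have h3 : (optionEquivLeft ℤ (Fin n) (rename (Option.map e) V.h)).natDegree ≤ K := by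
    rw [natDegree_optionEquivLeft]
    exact (degreeOf_le_totalDegree _ none).trans ((totalDegree_rename_le _ _).trans hV.cx.hd)
  have h4 := Nat.mul_le_mul m2 h3
  omega

end on

section main

variable {n q : ℕ}

/-- all the polynomials `P k (x, Z)` have simple rational roots -/
def Lifts (P : Fin q → Polynomial (MvPolynomial (Fin n) ℤ)) (x : Fin n → ℤ) : Prop :=
  ∀ k, eval x (P k).leadingCoeff ≠ 0 ∧ ∃ z : ℚ, Polynomial.aeval z ((P k).map (eval x)) = 0 ∧
    Polynomial.aeval z (Polynomial.derivative ((P k).map (eval x))) ≠ 0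

theorem Lifts.natDegree {P : Fin q → Polynomial (MvPolynomial (Fin n) ℤ)} {x : Fin n → ℤ}
    (h : Lifts P x) (k : Fin q) : 1 ≤ (P k).natDegree := by
  obtain ⟨-, z, -, h2⟩ := h k
  by_contra hcon
  push Not at hcon
  have h1 : (P k).natDegree = 0 := by omega
  rw [Polynomial.eq_C_of_natDegree_eq_zero h1] at h2
  simp at h2

/-- the statement for one `Y` -/
def Concl (n q : ℕ) (ε : ℝ) (K Y : ℕ) (P : Fin q → Polynomial (MvPolynomial (Fin n) ℤ)) : Prop :=
  ∃ (r : ℕ) (V : Fin r → Chart n), (r : ℝ) ≤ (Y : ℝ) ^ ε ∧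
    (∀ i, Good (V i) K Y ∧ ∀ k, (V i).Factor (P k) K) ∧
    ∀ x : Fin n → ℤ, (∀ j, 1 ≤ x j ∧ x j ≤ (Y : ℤ)) → Lifts P x → ∃ i, On (V i) x

theorem concl_zero {ε : ℝ} {K Y : ℕ} {P : Fin q → Polynomial (MvPolynomial (Fin n) ℤ)}
    (h : ∃ k, (P k).natDegree = 0) : Concl n q ε K Y P := by
  obtain ⟨k, hk⟩ := h
  refine ⟨0, Fin.elim0, ?_, fun i => i.elim0, fun x _ hx => ?_⟩
  · push_cast
    positivity
  · have := hx.natDegree k
    omega

theorem concl_whole {ε : ℝ} (hε : 0 < ε) {K Y : ℕ} (hY : 1 ≤ Y) (hK : 1 ≤ K)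
    {P : Fin q → Polynomial (MvPolynomial (Fin n) ℤ)}
    (h1 : ∀ k, 1 ≤ (P k).natDegree) (h2 : ∀ k, (P k).natDegree ≤ K) : Concl n q ε K Y P := by
  refine ⟨1, fun _ => whole n, ?_, fun _ => ⟨whole_good hK Y, fun k => whole_factor (h1 k) (h2 k)⟩,
    fun x _ _ => ⟨0, On.of_ptC (whole_cx hK Y) (whole_ptC x)⟩⟩
  push_cast
  exact Real.one_le_rpow (by exact_mod_cast hY) hε.le

theorem main (n q : ℕ) (ε : ℝ) (hε : 0 < ε) : ∃ (K : ℕ) (δ : ℝ), 0 < δ ∧ ∀ Y : ℕ, 1 ≤ Y →
    ∀ P : Fin q → Polynomial (MvPolynomial (Fin n) ℤ), (∀ k, Small (P k) ((Y : ℝ) ^ δ)) →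
      Concl n q ε K Y P := by
  classical
  obtain ⟨K', δ', hδ', H⟩ := gdmC n q ε hε
  obtain ⟨δ, hδd⟩ : ∃ δ, δ = δ' / 4 := ⟨_, rfl⟩
  have hδ : 0 < δ := by rw [hδd]; positivity
  obtain ⟨c, hc⟩ : ∃ c : ℝ, c = n + 3 + 1 / δ := ⟨_, rfl⟩
  obtain ⟨K₁, hK₁⟩ := exists_nat_ge c
  refine ⟨max K' (K₁ + 1), δ, hδ, fun Y hY P hP => ?_⟩
  have hY1 : (1 : ℝ) ≤ (Y : ℝ) := by exact_mod_cast hY
  by_cases hdeg : ∃ k, (P k).natDegree = 0
  · exact concl_zero hdeg
  push Not at hdeg
  have hdeg1 : ∀ k, 1 ≤ (P k).natDegree := fun k => by have := hdeg k; omega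
  obtain ⟨u, hu⟩ : ∃ u : ℝ, u = (Y : ℝ) ^ δ := ⟨_, rfl⟩
  have hu1 : 1 ≤ u := by rw [hu]; exact Real.one_le_rpow hY1 hδ.le
  rw [← hu] at hP
  rcases lt_or_ge u c with huc | huc
  · refine concl_whole hε hY (by omega) hdeg1 fun k => ?_
    have h1 := (hP k).1
    have h2 : ((P k).natDegree : ℝ) < (K₁ : ℝ) + 1 := by linarith
    have h3 : (P k).natDegree < K₁ + 1 := by exact_mod_cast h2
    omega
  -- sizes
  have hu4 : u ^ 4 = (Y : ℝ) ^ δ' := by
    rw [hu, ← Real.rpow_natCast, ← Real.rpow_mul (by positivity)]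
    congr 1
    rw [hδd]
    push_cast
    ring
  have hinv : 0 < 1 / δ := by positivity
  have hn0 : (0 : ℝ) ≤ n := Nat.cast_nonneg n
  have s1 : u ≤ u ^ 4 := le_self_pow₀ hu1 (by norm_num)
  have s2 : u ^ 2 ≤ u ^ 4 := pow_le_pow_right₀ hu1 (by norm_num)
  have s3 : ((n : ℝ) + 1) * u ^ 2 ≤ u ^ 4 := by
    have h1 : (n : ℝ) + 1 ≤ u ^ 2 := by
      have : u ≤ u ^ 2 := le_self_pow₀ hu1 (by norm_num)
      linarith
    calc ((n : ℝ) + 1) * u ^ 2 ≤ u ^ 2 * u ^ 2 := mul_le_mul_of_nonneg_right h1 (by positivity)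
      _ = u ^ 4 := by ring
  have hlog : Real.log Y ≤ u / δ := by
    rw [hu]
    exact Real.log_le_rpow_div (by positivity) hδ
  have s4 : ((n : ℝ) + 1) * u ^ 2 + u ^ 2 * Real.log Y + 1 ≤ u ^ 4 := by
    have h1 : u ^ 2 * Real.log Y ≤ u ^ 2 * (u / δ) :=
      mul_le_mul_of_nonneg_left hlog (by positivity)
    have h2 : u ^ 2 ≤ u ^ 3 := pow_le_pow_right₀ hu1 (by norm_num)
    have h3 : (1 : ℝ) ≤ u ^ 3 := one_le_pow₀ hu1
    have h4 : ((n : ℝ) + 1) * u ^ 2 ≤ ((n : ℝ) + 1) * u ^ 3 :=
      mul_le_mul_of_nonneg_left h2 (by positivity)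
    have h5 : u ^ 2 * (u / δ) = 1 / δ * u ^ 3 := by ring
    calc ((n : ℝ) + 1) * u ^ 2 + u ^ 2 * Real.log Y + 1
        ≤ ((n : ℝ) + 1) * u ^ 3 + 1 / δ * u ^ 3 + u ^ 3 := by linarith
      _ = ((n : ℝ) + 2 + 1 / δ) * u ^ 3 := by ring
      _ ≤ u * u ^ 3 := mul_le_mul_of_nonneg_right (by linarith) (by positivity)
      _ = u ^ 4 := by ring
  -- the monic polynomials
  obtain ⟨Q, hQ⟩ : ∃ Q : Fin q → Polynomial (MvPolynomial (Fin n) ℤ),
    ∀ k, Q k = Polynomial.integralNormalization (P k) := ⟨_, fun _ => rfl⟩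
  have hP0 : ∀ k, P k ≠ 0 := fun k h0 => hdeg k (by rw [h0, Polynomial.natDegree_zero])
  have hsm := fun k i => iN_small (hP k) (hdeg1 k) i
  have hQs : ∀ k, Small (Q k) ((Y : ℝ) ^ δ') := by
    intro k
    refine ⟨?_, fun l => ⟨?_, fun m => ?_⟩⟩
    · rw [hQ, Polynomial.natDegree_integralNormalization, ← hu4]
      exact (hP k).1.trans s1
    · rw [hQ, ← hu4]
      exact (hsm k l).1.trans s2
    · rw [hQ, ← hu4]
      have h1 := abs_coeff_le ((Polynomial.integralNormalization (P k)).coeff l) m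
      calc ((|coeff m ((Polynomial.integralNormalization (P k)).coeff l)| : ℤ) : ℝ)
          ≤ ((L1 ((Polynomial.integralNormalization (P k)).coeff l) : ℤ) : ℝ) := by
            exact_mod_cast h1
        _ ≤ Real.exp (((n : ℝ) + 1) * u ^ 2) := (hsm k l).2
        _ ≤ Real.exp (u ^ 4) := Real.exp_le_exp.2 s3
  obtain ⟨r, V, hr, hV, hx⟩ := H Y hY Q hQs
  · -- the conclusion
    obtain ⟨I, hI⟩ : ∃ I : Finset (Fin r), I = Finset.univ.filter
      fun i => ∀ k, ¬ Van (V i) (P k).leadingCoeff := ⟨_, rfl⟩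
    have hIm : ∀ i ∈ I, ∀ k, ¬ Van (V i) (P k).leadingCoeff := by
      intro i hi
      rw [hI, Finset.mem_filter] at hi
      exact hi.2
    refine ⟨I.card, fun i => V (I.equivFin.symm i : Fin r), ?_, fun i => ?_, fun x hxb hxl => ?_⟩
    · refine le_trans ?_ hr
      have := Finset.card_le_univ I
      rw [Fintype.card_fin] at this
      exact_mod_cast this
    · have hi := (I.equivFin.symm i).2
      obtain ⟨h1, h2⟩ := hV (I.equivFin.symm i : Fin r)
      refine ⟨good_mono h1 (le_max_left _ _), fun k => factor_mono (K := K') ?_ (le_max_left _ _)⟩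
      refine factor_of_iN (hdeg1 k) (fun L _ φ hφ h0 => ?_) (by rw [← hQ]; exact h2 k)
      exact hIm _ hi k ((van_iff h1.cx hφ _).2 h0)
    · have hz : ∀ k, ∃ z : ℤ, ((|z| : ℤ) : ℝ) ≤ Real.exp ((Y : ℝ) ^ δ') ∧
          ((Q k).map (eval x)).eval z = 0 ∧ ((Q k).derivative.map (eval x)).eval z ≠ 0 := by
        intro k
        obtain ⟨h1, z, h2, h3⟩ := hxl k
        have hmon : ((Q k).map (eval x)).Monic := by
          rw [hQ]
          exact (Polynomial.monic_integralNormalization (hP0 k)).map _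
        obtain ⟨z', h4, h5⟩ := iN_root h1 (Q := (Q k).map (eval x)) (P := (P k).map (eval x))
          (D := (P k).natDegree - 1) (by
            rw [hQ, iN_map (eval x) (P k) (hdeg1 k)]) hmon h2 h3
        refine ⟨z', ?_, h4, by rw [← Polynomial.derivative_map]; exact h5⟩
        have hB : ∀ i, ((|((Q k).map (eval x)).coeff i| : ℤ) : ℝ) ≤
            Real.exp (((n : ℝ) + 1) * u ^ 2 + u ^ 2 * Real.log Y) := by
          intro i
          rw [Polynomial.coeff_map, hQ]
          obtain ⟨b1, b2⟩ := hsm k i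
          have b3 := eval_le (p := (Polynomial.integralNormalization (P k)).coeff i) (s := x)
            (b := (Y : ℤ)) (by exact_mod_cast hY) (fun j => by
              rw [abs_of_nonneg (by have := (hxb j).1; omega)]
              exact (hxb j).2)
          have b4 : ((|eval x ((Polynomial.integralNormalization (P k)).coeff i)| : ℤ) : ℝ) ≤
              ((L1 ((Polynomial.integralNormalization (P k)).coeff i) : ℤ) : ℝ) * (Y : ℝ) ^
                ((Polynomial.integralNormalization (P k)).coeff i).totalDegree := by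
            exact_mod_cast b3
          refine b4.trans ?_
          rw [Real.exp_add]
          refine mul_le_mul b2 ?_ (by positivity) (by positivity)
          rw [← Real.rpow_natCast, Real.rpow_def_of_pos (by positivity)]
          apply Real.exp_le_exp.2
          rw [mul_comm]
          exact mul_le_mul_of_nonneg_right b1 (Real.log_nonneg hY1)
        refine (root_bd2 hmon (Real.exp_pos _).le hB h4).trans ?_
        rw [← hu4]
        have e1 := Real.exp_le_exp.2 s4
        rw [Real.exp_add] at e1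
        have e2 : (2 : ℝ) ≤ Real.exp 1 := by
          have := Real.add_one_le_exp (1 : ℝ)
          linarith
        have e3 : 1 ≤ Real.exp (((n : ℝ) + 1) * u ^ 2 + u ^ 2 * Real.log Y) :=
          Real.one_le_exp (by have := Real.log_nonneg hY1; positivity)
        nlinarith
      choose z hz using hz
      obtain ⟨i, hi⟩ := hx x z hxb hz
      have hon := On.of_ptC (hV i).1.cx hi
      have hiI : i ∈ I := by
        rw [hI, Finset.mem_filter]
        exact ⟨Finset.mem_univ _, fun k hk => (hxl k).1 (hon _ hk)⟩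
      refine ⟨I.equivFin ⟨i, hiI⟩, ?_⟩
      simp only [Equiv.symm_apply_apply]
      exact hon

end main

end Pool.Agent.N741.HB.Gdm2
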