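import Mathlib
import Pool.Agent.N741.HB.BlkZ

/-!
# Sums of powers of linear forms which are high powers: all rational points lie over few linear
subspaces
-/

set_option autoImplicit false

namespace Pool.Agent.N741.HB

open Filter Pool.Agent.Y902.GN

/-- the terms -/
def tau {n m : ℕ} (u : Fin m → ℤ) (h : Fin m → Fin n → ℤ) (d : ℕ) (s : Fin m → ℤ)
    (x : Fin n → ℤ) (i : Fin m) : ℤ := u i * (s i * lin (h i) x ^ d)

/-- `Z` is a set of nonzero terms without vanishing partial sum and with the same sum as all terms,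
`P` is a partition of the other nonzero terms into minimal vanishing sums -/
structure PatZ {n m : ℕ} (u : Fin m → ℤ) (h : Fin m → Fin n → ℤ) (d : ℕ) (s : Fin m → ℤ)
    (x : Fin n → ℤ) (Z : Finset (Fin m)) (P : Finset (Finset (Fin m))) : Prop where
  blk : ∀ B ∈ P, B.Nonempty ∧ ∑ i ∈ B, u i * (s i * lin (h i) x ^ d) = 0 ∧
    ∀ K ⊆ B, K.Nonempty → K ≠ B → ∑ i ∈ K, u i * (s i * lin (h i) x ^ d) ≠ 0
  zsum : ∑ i ∈ Z, u i * (s i * lin (h i) x ^ d) = spF u h d s x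
  znv : ∀ K ⊆ Z, K.Nonempty → ∑ i ∈ K, u i * (s i * lin (h i) x ^ d) ≠ 0
  un : ∀ i, (i ∈ Z ∨ i ∈ P.biUnion id) ↔ u i * (s i * lin (h i) x ^ d) ≠ 0
  dis : Set.PairwiseDisjoint (P : Set (Finset (Fin m))) id
  disZ : Disjoint Z (P.biUnion id)

theorem PatZ.ex {n m : ℕ} (u : Fin m → ℤ) (h : Fin m → Fin n → ℤ) (d : ℕ) (s : Fin m → ℤ)
    (x : Fin n → ℤ) : ∃ Z P, PatZ u h d s x Z P := by
  classical
  set τ : Fin m → ℤ := fun i => u i * (s i * lin (h i) x ^ d) with hτ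
  set I : Finset (Fin m) := Finset.univ.filter fun i => τ i ≠ 0 with hI
  have hIs : ∑ i ∈ I, τ i = spF u h d s x := by
    rw [hI, Finset.sum_filter_ne_zero]
    rfl
  have hex : (I.powerset.filter fun B => ∑ i ∈ B, τ i = spF u h d s x).Nonempty :=
    ⟨I, Finset.mem_filter.2 ⟨Finset.mem_powerset.2 subset_rfl, hIs⟩⟩
  obtain ⟨Z, hZ, hmin⟩ := Finset.exists_min_image _ (fun B : Finset (Fin m) => B.card) hex
  obtain ⟨hZ1, hZ2⟩ := Finset.mem_filter.1 hZ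
  rw [Finset.mem_powerset] at hZ1
  have h1 : ∑ i ∈ I \ Z, τ i = 0 := by
    have := Finset.sum_sdiff (f := τ) hZ1
    rw [hIs, hZ2] at this
    linarith
  obtain ⟨P, hP1, hP2, hP3⟩ := min_blocks τ _ (I \ Z) le_rfl h1
  refine ⟨Z, P, ?_, ?_, ?_, ?_, hP3, ?_⟩
  · exact hP1
  · exact hZ2
  · intro K hK hKn h0
    have h2 : ∑ i ∈ Z \ K, τ i = spF u h d s x := by
      have := Finset.sum_sdiff (f := τ) hK
      rw [← hZ2, ← this, h0, add_zero]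
    have h3 := hmin (Z \ K) (Finset.mem_filter.2 ⟨Finset.mem_powerset.2
      (Finset.sdiff_subset.trans hZ1), h2⟩)
    rw [Finset.card_sdiff_of_subset hK] at h3
    have h4 := Finset.card_pos.2 hKn
    have h5 := Finset.card_le_card hK
    omega
  · intro i
    rw [hP2, Finset.mem_sdiff]
    have : i ∈ I ↔ τ i ≠ 0 := by simp [hI]
    constructor
    · rintro (h2 | h2)
      · exact this.1 (hZ1 h2)
      · exact this.1 h2.1
    · intro h2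
      by_cases h3 : i ∈ Z
      · exact Or.inl h3
      · exact Or.inr ⟨this.2 h2, h3⟩
  · rw [hP2]
    exact Finset.disjoint_sdiff

open Classical in
/-- the ratios of the linear forms in the blocks -/
noncomputable def ratiosZ {n m : ℕ} (Q : Finset (Finset (Fin m))) (h : Fin m → Fin n → ℤ)
    (x : Fin n → ℤ) : Fin m → Fin m → ℚ := fun i i' =>
  if ∃ B ∈ Q, i ∈ B ∧ i' ∈ B then (lin (h i) x : ℚ) / (lin (h i') x : ℚ) else 0

/-- the keys -/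
abbrev Key (q m : ℕ) : Type := Fin q → (Finset (Fin m) × Finset (Finset (Fin m))) ×
  (Fin m → Fin m → ℚ)

/-- the data of a solution with a given key -/
structure CovSolZ (n m q E Y : ℕ) (d r : Fin q → ℕ) (u : Fin q → Fin m → ℤ) (v : Fin q → ℤ)
    (h : Fin q → Fin m → Fin n → ℤ) (κ : Key q m) (x : Fin n → ℤ) (s : Fin q → Fin m → ℤ)
    (s0 : Fin q → ℤ) (z : Fin q → ℚ) : Prop where
  x1 : ∀ j, |x j| ≤ (Y : ℤ)
  s1 : ∀ k i, s k i ≠ 0 ∧ |s k i| ≤ (Y : ℤ) ^ E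
  s01 : ∀ k, s0 k ≠ 0 ∧ |s0 k| ≤ (Y : ℤ) ^ E
  pat : ∀ k, PatZ (u k) (h k) (d k) (s k) x (κ k).1.1 (κ k).1.2
  rat : ∀ k, (κ k).2 = ratiosZ (insert (κ k).1.1 (κ k).1.2) (h k) x
  pw : ∀ k, (spF (u k) (h k) (d k) (s k) x : ℚ) = v k * s0 k * z k ^ r k

/-- a rational number with an integral power is an integer -/
theorem exists_int_root {r : ℕ} (hr : 1 ≤ r) {a F : ℤ} {z : ℚ} (h : (F : ℚ) = a * z ^ r) :
    ∃ z' : ℤ, a ^ (r - 1) * F = z' ^ r := by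
  have h1 : ((a : ℚ) * z) ^ r = ((a ^ (r - 1) * F : ℤ) : ℚ) := by
    push_cast
    rw [h, mul_pow, ← mul_assoc, ← pow_succ]
    congr 2
    omega
  obtain ⟨y, hy⟩ := IsIntegrallyClosed.exists_algebraMap_eq_of_isIntegral_pow (R := ℤ) (K := ℚ)
    (x := (a : ℚ) * z) (n := r) (by omega) (by
      rw [h1]
      exact isIntegral_algebraMap (x := (a ^ (r - 1) * F : ℤ)))
  refine ⟨y, ?_⟩
  have h2 : (y : ℚ) = (a : ℚ) * z := hy
  rw [← h2] at h1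
  exact_mod_cast h1.symm

/-- **There are few keys.** -/
theorem covkZ (hcore : S_core) (n m q E : ℕ) (ε : ℝ) (hε : 0 < ε) : ∃ (R : ℕ) (δ : ℝ), 0 < δ ∧
    ∀ (Y : ℕ), 1 ≤ Y → ∀ (d r : Fin q → ℕ), (∀ k, R ≤ d k ∧ (d k : ℝ) ≤ (Y : ℝ) ^ δ) →
      (∀ k, R ≤ r k ∧ (r k : ℝ) ≤ (Y : ℝ) ^ δ) → ∀ (u : Fin q → Fin m → ℤ) (v : Fin q → ℤ),
      (∀ k i, ((|u k i| : ℤ) : ℝ) ≤ Real.exp ((Y : ℝ) ^ δ)) →
      (∀ k, ((|v k| : ℤ) : ℝ) ≤ Real.exp ((Y : ℝ) ^ δ)) →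
      ∀ (h : Fin q → Fin m → Fin n → ℤ), (∀ k i j, |h k i j| ≤ (Y : ℤ) ^ E) →
      ∀ (T : Finset (Key q m)),
        (∀ κ ∈ T, ∃ (x : Fin n → ℤ) (s : Fin q → Fin m → ℤ) (s0 : Fin q → ℤ) (z : Fin q → ℚ),
          CovSolZ n m q E Y d r u v h κ x s s0 z) →
      (T.card : ℝ) ≤ (Y : ℝ) ^ ε := by
  classical
  rcases Nat.eq_zero_or_pos q with hq | hq
  · subst hq
    refine ⟨0, 1, one_pos, fun Y hY _ _ _ _ _ _ _ _ _ _ T _ => ?_⟩
    have h1 : T.card ≤ 1 := Finset.card_le_one.2 fun a _ b _ => funext fun k => k.elim0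
    calc (T.card : ℝ) ≤ 1 := by exact_mod_cast h1
      _ ≤ (Y : ℝ) ^ ε := Real.one_le_rpow (by exact_mod_cast hY) hε.le
  by_contra hcon
  push Not at hcon
  have hseq := fun ν : ℕ => hcon (ν + 1) (1 / ((ν : ℝ) + 1)) (by positivity)
  choose Y0 hY1 d r hd hrr u v hu hv h hh T hT hc using hseq
  have hY1' : ∀ ν, (1 : ℝ) ≤ (Y0 ν : ℝ) := fun ν => by exact_mod_cast hY1 ν
  have hrpow : ∀ ν, (Y0 ν : ℝ) ^ (1 / ((ν : ℝ) + 1)) ≤ (Y0 ν : ℝ) := by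
    intro ν
    calc (Y0 ν : ℝ) ^ (1 / ((ν : ℝ) + 1)) ≤ (Y0 ν : ℝ) ^ (1 : ℝ) := by
          apply Real.rpow_le_rpow_of_exponent_le (hY1' ν)
          rw [div_le_one (by positivity)]
          have : (0 : ℝ) ≤ (ν : ℝ) := Nat.cast_nonneg _
          linarith
      _ = (Y0 ν : ℝ) := Real.rpow_one _
  have hdY : ∀ ν k, d ν k ≤ Y0 ν := fun ν k => by
    exact_mod_cast ((hd ν k).2.trans (hrpow ν) : (d ν k : ℝ) ≤ (Y0 ν : ℝ))
  have hY0 : ∀ m : ℕ, ∀ᶠ ν in (Uf : Filter ℕ), m ≤ Y0 ν := by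
    intro m
    filter_upwards [ev_ge m] with ν hν
    have := (hd ν ⟨0, hq⟩).1
    have := hdY ν ⟨0, hq⟩
    omega
  obtain ⟨Y, hYd⟩ : ∃ Y : ℕ → ℕ, ∀ ν, Y ν = Y0 ν ^ (E + 2) := ⟨_, fun _ => rfl⟩
  have hYY : ∀ ν, Y0 ν ≤ Y ν := fun ν => by
    rw [hYd]
    exact Nat.le_self_pow (by omega) _
  have hY : ∀ m : ℕ, ∀ᶠ ν in (Uf : Filter ℕ), m ≤ Y ν := fun m =>
    (hY0 m).mono fun ν hν => hν.trans (hYY ν)
  have hYYe : ∀ᶠ ν in (Uf : Filter ℕ), Y0 ν ≤ Y ν := Filter.Eventually.of_forall hYY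
  have hbig : Big Y T := by
    refine big_of_card (ε := ε / (E + 2)) (by positivity) (hY 2) (Filter.Eventually.of_forall
      fun ν => ?_)
    rw [hYd]
    push_cast
    rw [← Real.rpow_natCast, ← Real.rpow_mul (by positivity)]
    have : ((E + 2 : ℕ) : ℝ) * (ε / ((E : ℝ) + 2)) = ε := by
      push_cast
      field_simp
    rw [this]
    exact hc ν
  -- the patterns
  obtain ⟨T0, a1, a2, a3⟩ := hbig.fiber (fun _ κ => fun k => (κ k).1) (fun _ => Finset.univ)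
    (Filter.Eventually.of_forall fun ν t _ => Finset.mem_univ _) (Few.const hY _)
  obtain ⟨ZP, hZP⟩ : ∃ ZP : Fin q → Finset (Fin m) × Finset (Finset (Fin m)),
      ∀ᶠ ν in (Uf : Filter ℕ), ∀ κ ∈ T0 ν, (fun k => (κ k).1) = ZP := by
    apply ev_exists
    filter_upwards [a2.nonempty, a3] with ν h1 h2
    obtain ⟨κ0, hκ0⟩ := h1
    exact ⟨fun k => (κ0 k).1, fun κ hκ => h2 κ hκ κ0 hκ0⟩
  choose! xx ss ss0 zz hs' using hT
  have hinj : ∀ᶠ ν in (Uf : Filter ℕ), Set.InjOn (xx ν) (T0 ν) := by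
    filter_upwards [a1, hZP] with ν h1 h2 κ hκ κ' hκ' hxx
    funext k
    have e1 := (hs' ν κ (h1 hκ)).rat k
    have e2 := (hs' ν κ' (h1 hκ')).rat k
    have e3 : (κ k).1 = ZP k := congrFun (h2 κ hκ) k
    have e4 : (κ' k).1 = ZP k := congrFun (h2 κ' hκ') k
    rw [e3] at e1
    rw [e4] at e2
    refine Prod.ext ?_ ?_
    · rw [e3, e4]
    · rw [e1, e2, hxx]
  have hbigA := big_image a2 xx hinj
  have hkey : ∀ ν x, x ∈ (T0 ν).image (xx ν) → ∃ κ, κ ∈ T0 ν ∧ xx ν κ = x := by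
    intro ν x hx
    exact Finset.mem_image.1 hx
  choose! key hkey1 hkey2 using hkey
  obtain ⟨s, hsd⟩ : ∃ s : ℕ → (Fin n → ℤ) → Fin q → Fin m → ℤ, ∀ ν x, s ν x = ss ν (key ν x) :=
    ⟨_, fun _ _ => rfl⟩
  obtain ⟨s0, hs0d⟩ : ∃ s0 : ℕ → (Fin n → ℤ) → Fin q → ℤ, ∀ ν x, s0 ν x = ss0 ν (key ν x) :=
    ⟨_, fun _ _ => rfl⟩
  obtain ⟨z, hzd⟩ : ∃ z : ℕ → (Fin n → ℤ) → Fin q → ℚ, ∀ ν x, z ν x = zz ν (key ν x) :=
    ⟨_, fun _ _ => rfl⟩
  have hs : ∀ᶠ ν in (Uf : Filter ℕ), ∀ x ∈ (T0 ν).image (xx ν),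
      (∀ j, |x j| ≤ (Y0 ν : ℤ)) ∧ (∀ k i, s ν x k i ≠ 0 ∧ |s ν x k i| ≤ (Y0 ν : ℤ) ^ E) ∧
      (∀ k, s0 ν x k ≠ 0 ∧ |s0 ν x k| ≤ (Y0 ν : ℤ) ^ E) ∧
      (∀ k, PatZ (u ν k) (h ν k) (d ν k) (s ν x k) x (ZP k).1 (ZP k).2) ∧
      (∀ k, key ν x k = (ZP k, ratiosZ (insert (ZP k).1 (ZP k).2) (h ν k) x)) ∧
      ∀ k, (spF (u ν k) (h ν k) (d ν k) (s ν x k) x : ℚ) =
        v ν k * s0 ν x k * z ν x k ^ r ν k := by
    filter_upwards [a1, hZP] with ν h1 h2 x hx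
    have h3 := hkey1 ν x hx
    have h4 := hkey2 ν x hx
    have h5 := hs' ν _ (h1 h3)
    rw [h4] at h5
    have h8 : ∀ k, (key ν x k).1 = ZP k := fun k => congrFun (h2 _ h3) k
    refine ⟨h5.x1, ?_, ?_, fun k => ?_, fun k => ?_, fun k => ?_⟩
    · rw [hsd]
      exact h5.s1
    · rw [hs0d]
      exact h5.s01
    · rw [hsd, ← h8 k]
      exact h5.pat k
    · refine Prod.ext (h8 k) ?_
      show (key ν x k).2 = _
      rw [← h8 k]
      exact h5.rat k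
    · rw [hsd, hs0d, hzd]
      exact h5.pw k
  -- bounds
  have hlb : ∀ᶠ ν in (Uf : Filter ℕ), ∀ x ∈ (T0 ν).image (xx ν), ∀ k i,
      |lin (h ν k i) x| ≤ (Y ν : ℤ) := by
    filter_upwards [hY0 n, hs] with ν h1 h2 x hx k i
    refine (lin_bd (hh ν k i) (h2 x hx).1).trans ?_
    rw [hYd]
    push_cast
    calc (n : ℤ) * ((Y0 ν : ℤ) ^ E * (Y0 ν : ℤ)) ≤ (Y0 ν : ℤ) * ((Y0 ν : ℤ) ^ E * (Y0 ν : ℤ)) := by
          refine mul_le_mul_of_nonneg_right ?_ (by positivity)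
          exact_mod_cast h1
      _ = (Y0 ν : ℤ) ^ (E + 2) := by ring
  have hxb : ∀ᶠ ν in (Uf : Filter ℕ), ∀ x ∈ (T0 ν).image (xx ν), ∀ j,
      x j + ((Y0 ν : ℤ) + 1) ≠ 0 ∧ |x j + ((Y0 ν : ℤ) + 1)| ≤ (Y ν : ℤ) := by
    filter_upwards [hY0 3, hs] with ν h1 h6 x hx j
    have h2 := abs_le.1 ((h6 x hx).1 j)
    have h3 : (1 : ℤ) ≤ x j + ((Y0 ν : ℤ) + 1) := by linarith [h2.1]
    refine ⟨by omega, ?_⟩
    rw [abs_of_pos (by omega), hYd]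
    push_cast
    have h4 : (Y0 ν : ℤ) ^ 2 ≤ (Y0 ν : ℤ) ^ (E + 2) := pow_le_pow_right₀ (by omega) (by omega)
    have h5 : (3 : ℤ) ≤ (Y0 ν : ℤ) := by exact_mod_cast h1
    nlinarith [h2.2]
  have hE2 : ∀ ν, (Y0 ν : ℤ) ^ E ≤ (Y ν : ℤ) := by
    intro ν
    rw [hYd]
    push_cast
    exact pow_le_pow_right₀ (by exact_mod_cast hY1 ν) (by omega)
  have hsb : ∀ᶠ ν in (Uf : Filter ℕ), ∀ x ∈ (T0 ν).image (xx ν), ∀ k i,
      s ν x k i ≠ 0 ∧ |s ν x k i| ≤ (Y ν : ℤ) := by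
    filter_upwards [hs] with ν h1 x hx k i
    exact ⟨((h1 x hx).2.1 k i).1, ((h1 x hx).2.1 k i).2.trans (hE2 ν)⟩
  have hs0b : ∀ᶠ ν in (Uf : Filter ℕ), ∀ x ∈ (T0 ν).image (xx ν), ∀ k,
      s0 ν x k ≠ 0 ∧ |s0 ν x k| ≤ (Y ν : ℤ) := by
    filter_upwards [hs] with ν h1 x hx k
    exact ⟨((h1 x hx).2.2.1 k).1, ((h1 x hx).2.2.1 k).2.trans (hE2 ν)⟩
  have few_of : ∀ f : ℕ → ℕ, (∀ ν, (f ν : ℝ) ≤ (Y0 ν : ℝ) ^ (1 / ((ν : ℝ) + 1))) → Few Y f := by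
    intro f hf
    refine ((few_rpow hY0 1).mono_Y hYYe).mono (Filter.Eventually.of_forall fun ν => ?_)
    have hdν : f ν ≤ ⌊((1 : ℕ) : ℝ) * (Y0 ν : ℝ) ^ (1 / ((ν : ℝ) + 1))⌋₊ := by
      apply Nat.le_floor
      rw [Nat.cast_one, one_mul]
      exact hf ν
    omega
  have hdf : ∀ k, Few Y (fun ν => d ν k) := fun k => few_of _ fun ν => (hd ν k).2
  have hrf : ∀ k, Few Y (fun ν => r ν k) := fun k => few_of _ fun ν => (hrr ν k).2
  have hdl : ∀ k, ∀ m : ℕ, ∀ᶠ ν in (Uf : Filter ℕ), m ≤ d ν k := fun k m => by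
    filter_upwards [ev_ge m] with ν hν
    have := (hd ν k).1
    omega
  have hrl : ∀ k, ∀ m : ℕ, ∀ᶠ ν in (Uf : Filter ℕ), m ≤ r ν k := fun k m => by
    filter_upwards [ev_ge m] with ν hν
    have := (hrr ν k).1
    omega
  have hub : ∀ ν k i,
      |u ν k i| ≤ 2 ^ (⌊((2 : ℕ) : ℝ) * (Y0 ν : ℝ) ^ (1 / ((ν : ℝ) + 1))⌋₊ + 1) := by
    intro ν k i
    have h5 := (hu ν k i).trans (exp_le_two_pow (by positivity))
    exact_mod_cast h5
  have hvb : ∀ ν k,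
      |v ν k| ≤ 2 ^ (⌊((2 : ℕ) : ℝ) * (Y0 ν : ℝ) ^ (1 / ((ν : ℝ) + 1))⌋₊ + 1) := by
    intro ν k
    have h5 := (hv ν k).trans (exp_le_two_pow (by positivity))
    exact_mod_cast h5
  -- the ratios are constant
  obtain ⟨A1, g1, g2, g3⟩ := Big.const_all (Y := Y)
    ((Finset.univ : Finset (Fin q × Finset (Fin m) × Fin m × Fin m)).filter fun p =>
      p.2.1 ∈ insert (ZP p.1).1 (ZP p.1).2 ∧ p.2.2.1 ∈ p.2.1 ∧ p.2.2.2 ∈ p.2.1)
    (fun p ν x => ((lin (h ν p.1 p.2.2.1) x : ℚ) / (lin (h ν p.1 p.2.2.2) x : ℚ))) hbigA (by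
      rintro ⟨k, B, j, j'⟩ hp A' hA' hbig'
      obtain ⟨-, hB, hj1, hj2⟩ := Finset.mem_filter.1 hp
      simp only at hB hj1 hj2
      have hτ : ∀ᶠ ν in (Uf : Filter ℕ), ∀ x ∈ A' ν, ∀ i ∈ B,
          u ν k i * (s ν x k i * lin (h ν k i) x ^ d ν k) ≠ 0 := by
        filter_upwards [hA', hs] with ν h1 h2 x hx i hi
        refine (((h2 x (h1 hx)).2.2.2.1 k).un i).1 ?_
        rcases Finset.mem_insert.1 hB with h3 | h3
        · left; rw [← h3]; exact hi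
        · right; exact Finset.mem_biUnion.2 ⟨B, h3, hi⟩
      have hbb : ∀ᶠ ν in (Uf : Filter ℕ), ∀ x ∈ A' ν, ∀ i ∈ B,
          lin (h ν k i) x ≠ 0 ∧ |lin (h ν k i) x| ≤ (Y ν : ℤ) := by
        filter_upwards [hlb, hA', hτ, hdl k 1] with ν k1 k2 k3 k4 x hx i hi
        refine ⟨fun h0 => k3 x hx i hi ?_, k1 x (k2 hx) k i⟩
        rw [h0, zero_pow (by omega), mul_zero, mul_zero]
      have huu : ∀ᶠ ν in (Uf : Filter ℕ), ∀ i ∈ B, u ν k i ≠ 0 ∧ |u ν k i| ≤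
          2 ^ (⌊((2 : ℕ) : ℝ) * (Y0 ν : ℝ) ^ (1 / ((ν : ℝ) + 1))⌋₊ + 1) := by
        filter_upwards [hτ, hbig'.nonempty] with ν k1 k2 i hi
        obtain ⟨x, hx⟩ := k2
        exact ⟨left_ne_zero_of_mul (k1 x hx i hi), hub ν k i⟩
      have hfin : ∀ A'' : ℕ → Finset (Fin n → ℤ), (∀ᶠ ν in (Uf : Filter ℕ), A'' ν ⊆ A' ν) →
          (∀ᶠ ν in (Uf : Filter ℕ), ∀ x ∈ A'' ν, ∀ x' ∈ A'' ν,
            lin (h ν k j) x * lin (h ν k j') x' = lin (h ν k j) x' * lin (h ν k j') x) →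
          ∀ᶠ ν in (Uf : Filter ℕ), ∀ x ∈ A'' ν, ∀ x' ∈ A'' ν,
            ((lin (h ν k j) x : ℚ) / (lin (h ν k j') x : ℚ)) =
              ((lin (h ν k j) x' : ℚ) / (lin (h ν k j') x' : ℚ)) := by
        intro A'' h1 h3
        filter_upwards [h3, h1, hbb] with ν k1 k2 k3 x hx x' hx'
        have hne : ∀ x ∈ A'' ν, (lin (h ν k j') x : ℚ) ≠ 0 := by
          intro x hx
          exact_mod_cast (k3 x (k2 hx) j' hj2).1
        rw [div_eq_div_iff (hne x hx) (hne x' hx')]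
        exact_mod_cast k1 x hx x' hx'
      rcases Finset.mem_insert.1 hB with hBZ | hBP
      · -- the block with the power
        have hvne : ∀ᶠ ν in (Uf : Filter ℕ), v ν k ≠ 0 := by
          filter_upwards [hbig'.nonempty, hA', hs, hrl k 1] with ν k1 k2 k3 k4 hcon
          obtain ⟨x, hx⟩ := k1
          have h4 := k3 x (k2 hx)
          have h5 := h4.2.2.2.2.2 k
          rw [hcon, Int.cast_zero, zero_mul, zero_mul] at h5
          have h6 : spF (u ν k) (h ν k) (d ν k) (s ν x k) x = 0 := by exact_mod_cast h5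
          exact (h4.2.2.2.1 k).znv (ZP k).1 subset_rfl (hBZ ▸ ⟨j, hj1⟩) (by
            rw [(h4.2.2.2.1 k).zsum, h6])
        have hzz : ∀ᶠ ν in (Uf : Filter ℕ), ∀ x ∈ A' ν, ∃ z' : ℤ,
            (v ν k * s0 ν x k) ^ (r ν k - 1) *
              ∑ i ∈ B, u ν k i * (s ν x k i * lin (h ν k i) x ^ d ν k) = z' ^ r ν k := by
          filter_upwards [hA', hs, hrl k 1] with ν k2 k3 k4 x hx
          have h4 := k3 x (k2 hx)
          have h5 := h4.2.2.2.2.2 k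
          have h6 : ((spF (u ν k) (h ν k) (d ν k) (s ν x k) x : ℤ) : ℚ) =
              ((v ν k * s0 ν x k : ℤ) : ℚ) * z ν x k ^ r ν k := by
            rw [h5]; push_cast; ring
          obtain ⟨z', hz'⟩ := exists_int_root k4 h6
          refine ⟨z', ?_⟩
          rw [hBZ, (h4.2.2.2.1 k).zsum]
          exact hz'
        have hzz' : ∃ z' : ℕ → (Fin n → ℤ) → ℤ, ∀ᶠ ν in (Uf : Filter ℕ), ∀ x ∈ A' ν,
            (v ν k * s0 ν x k) ^ (r ν k - 1) *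
              ∑ i ∈ B, u ν k i * (s ν x k i * lin (h ν k i) x ^ d ν k) = z' ν x ^ r ν k := by
          have h1 : ∀ ν x, ∃ z' : ℤ, (∃ z'' : ℤ, (v ν k * s0 ν x k) ^ (r ν k - 1) *
              ∑ i ∈ B, u ν k i * (s ν x k i * lin (h ν k i) x ^ d ν k) = z'' ^ r ν k) →
              (v ν k * s0 ν x k) ^ (r ν k - 1) *
              ∑ i ∈ B, u ν k i * (s ν x k i * lin (h ν k i) x ^ d ν k) = z' ^ r ν k := by
            intro ν x
            by_cases h2 : ∃ z'' : ℤ, (v ν k * s0 ν x k) ^ (r ν k - 1) *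
              ∑ i ∈ B, u ν k i * (s ν x k i * lin (h ν k i) x ^ d ν k) = z'' ^ r ν k
            · obtain ⟨z'', hz''⟩ := h2
              exact ⟨z'', fun _ => hz''⟩
            · exact ⟨0, fun h3 => absurd h3 h2⟩
          choose z' hz' using h1
          refine ⟨z', ?_⟩
          filter_upwards [hzz] with ν k1 x hx
          exact hz' ν x (k1 x hx)
        obtain ⟨z', hz'⟩ := hzz'
        obtain ⟨A'', h1, h2, h3⟩ := blockZB hcore hY hbig' (fun ν => (Y0 ν : ℤ) + 1)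
          (by filter_upwards [hxb, hA'] with ν k1 k2 x hx using k1 x (k2 hx)) B
          (fun ν x i => lin (h ν k i) x) (fun ν x i => s ν x k i) (fun ν x => s0 ν x k)
          hbb
          (by filter_upwards [hsb, hA'] with ν k1 k2 x hx i _ using k1 x (k2 hx) k i)
          (by filter_upwards [hs0b, hA'] with ν k1 k2 x hx using k1 x (k2 hx) k)
          (fun ν => d ν k) _ (fun ν => r ν k) (hdf k) ((few_rpow hY0 2).mono_Y hYYe) (hrf k)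
          (hdl k) (hrl k) (fun ν => u ν k) huu (fun ν => v ν k)
          (by filter_upwards [hvne] with ν k1 using ⟨k1, hvb ν k⟩) z' hz'
          (by
            filter_upwards [hA', hs] with ν k1 k2 x hx K hK hKn
            exact ((k2 x (k1 hx)).2.2.2.1 k).znv K (hBZ ▸ hK) hKn)
        exact ⟨A'', h1, h2, hfin A'' h1 (h3 j hj1 j' hj2)⟩
      · obtain ⟨A'', h1, h2, h3⟩ := blockB hY hbig' (fun ν => (Y0 ν : ℤ) + 1)
          (by filter_upwards [hxb, hA'] with ν k1 k2 x hx using k1 x (k2 hx)) B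
          (fun ν x i => lin (h ν k i) x) (fun ν x i => s ν x k i)
          hbb
          (by filter_upwards [hsb, hA'] with ν k1 k2 x hx i _ using k1 x (k2 hx) k i)
          (fun ν => d ν k) _ (hdf k) ((few_rpow hY0 2).mono_Y hYYe) (hdl k) (fun ν => u ν k) huu
          (by
            filter_upwards [hA', hs] with ν k1 k2 x hx
            exact (((k2 x (k1 hx)).2.2.2.1 k).blk B hBP).2.1)
          (by
            filter_upwards [hA', hs] with ν k1 k2 x hx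
            exact (((k2 x (k1 hx)).2.2.2.1 k).blk B hBP).2.2)
        exact ⟨A'', h1, h2, hfin A'' h1 (h3 j hj1 j' hj2)⟩)
  -- the end
  have g3' : ∀ᶠ ν in (Uf : Filter ℕ), ∀ p ∈ ((Finset.univ : Finset (Fin q × Finset (Fin m) ×
      Fin m × Fin m)).filter fun p => p.2.1 ∈ insert (ZP p.1).1 (ZP p.1).2 ∧ p.2.2.1 ∈ p.2.1 ∧
        p.2.2.2 ∈ p.2.1), ∀ x ∈ A1 ν, ∀ x' ∈ A1 ν,
      ((lin (h ν p.1 p.2.2.1) x : ℚ) / (lin (h ν p.1 p.2.2.2) x : ℚ)) =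
        ((lin (h ν p.1 p.2.2.1) x' : ℚ) / (lin (h ν p.1 p.2.2.2) x' : ℚ)) := by
    rw [Filter.eventually_all_finset]
    exact g3
  obtain ⟨ν, k1, k2, k3, k4⟩ := (g1.and (g3'.and (g2.one_lt.and hs))).exists
  obtain ⟨x, hx, y, hy, hxy⟩ := Finset.one_lt_card.1 k3
  have G := k4 x (k1 hx)
  have G' := k4 y (k1 hy)
  apply hxy
  rw [← hkey2 ν x (k1 hx), ← hkey2 ν y (k1 hy)]
  congr 1
  funext k
  rw [G.2.2.2.2.1 k, G'.2.2.2.2.1 k]
  congr 1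
  funext i i'
  unfold ratiosZ
  by_cases hii : ∃ B ∈ insert (ZP k).1 (ZP k).2, i ∈ B ∧ i' ∈ B
  · rw [if_pos hii, if_pos hii]
    obtain ⟨B, hB, hi, hi'⟩ := hii
    exact k2 (k, B, i, i') (Finset.mem_filter.2 ⟨Finset.mem_univ _, hB, hi, hi'⟩) x hx y hy
  · rw [if_neg hii, if_neg hii]

end Pool.Agent.N741.HB
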