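import Mathlib
import Pool.Agent.N741.HB.Thm2
import Pool.Agent.N741.HB.CovZ

/-!
# Random root stacks: counting
-/

set_option autoImplicit false

namespace Pool.Agent.N741.HB.Rnd

open Finset Pool.Agent.Y902.GN Pool.Agent.N741.HB

/-- the box -/
noncomputable def box (m T : ℕ) : Finset (Fin m → ℤ) := Fintype.piFinset fun _ => Finset.Icc (-(T : ℤ)) T

theorem mem_box {m T : ℕ} {s : Fin m → ℤ} : s ∈ box m T ↔ ∀ i, |s i| ≤ (T : ℤ) := by
  unfold box
  rw [Fintype.mem_piFinset]
  refine forall_congr' fun i => ?_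
  rw [Finset.mem_Icc, abs_le]

/-- points of the box on a hyperplane -/
theorem hyper {m T : ℕ} (c : Fin m → ℚ) (i0 : Fin m) (hc : c i0 ≠ 0) (t : ℚ)
    (S : Finset (Fin m → ℤ)) (hS : ∀ s ∈ S, s ∈ box m T ∧ ∑ i, c i * (s i : ℚ) = t) :
    S.card ≤ (2 * T + 1) ^ (m - 1) := by
  classical
  have h1 : S.card ≤ (Fintype.piFinset fun _ : {i : Fin m // i ≠ i0} =>
      Finset.Icc (-(T : ℤ)) T).card := by
    refine Finset.card_le_card_of_injOn (fun s i => s i.1) (fun s hs => ?_) ?_
    · rw [Finset.mem_coe, Fintype.mem_piFinset]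
      intro i
      rw [Finset.mem_Icc, ← abs_le]
      exact mem_box.1 (hS s hs).1 i.1
    · intro s hs s' hs' hh
      have h2 : ∀ i, i ≠ i0 → s i = s' i := fun i hi => congrFun hh ⟨i, hi⟩
      funext i
      by_cases hi : i = i0
      · subst hi
        have e1 := (hS s hs).2
        have e2 := (hS s' hs').2
        rw [← Finset.add_sum_erase _ _ (Finset.mem_univ i)] at e1 e2
        have e3 : ∑ j ∈ Finset.univ.erase i, c j * (s j : ℚ) =
            ∑ j ∈ Finset.univ.erase i, c j * (s' j : ℚ) :=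
          Finset.sum_congr rfl fun j hj => by rw [h2 j (Finset.ne_of_mem_erase hj)]
        rw [e3] at e1
        have e4 : c i * (s i : ℚ) = c i * (s' i : ℚ) := by linarith
        have e5 := mul_left_cancel₀ hc e4
        exact_mod_cast e5
      · exact h2 i hi
  refine h1.trans ?_
  rw [Fintype.card_piFinset, Finset.prod_const, Int.card_Icc, Finset.card_univ,
    Fintype.card_subtype_compl]
  simp only [Fintype.card_fin, Fintype.card_unique]
  apply le_of_eq
  congr 1
  omega

/-- primitive vectors -/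
def Prim {n : ℕ} (x : Fin n → ℤ) : Prop := ∀ d : ℕ, (∀ j, (d : ℤ) ∣ x j) → d = 1

theorem Prim.ne {n : ℕ} {x : Fin n → ℤ} (h : Prim x) : x ≠ 0 := by
  rintro rfl
  have := h 0 (fun j => dvd_zero _)
  omega

/-- proportional primitive vectors -/
theorem Prim.eq {n : ℕ} {x y : Fin n → ℤ} (hx : Prim x) (hy : Prim y) {p q : ℤ} (hq : q ≠ 0)
    (h : ∀ j, q * x j = p * y j) : x = y ∨ x = -y := by
  -- `q ∣ p` and `p ∣ q`
  have key : ∀ {x y : Fin n → ℤ} {p q : ℤ}, Prim x → (∀ j, q * x j = p * y j) →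
      q ≠ 0 → p ∣ q := by
    intro x y p q hx h hq
    have hp : p ≠ 0 := by
      rintro rfl
      apply hx.ne
      funext j
      have := h j
      rw [zero_mul] at this
      exact (mul_eq_zero.1 this).resolve_left hq
    obtain ⟨g, hg⟩ : ∃ g : ℤ, g = Int.gcd p q := ⟨_, rfl⟩
    have hg0 : g ≠ 0 := by
      rw [hg]
      intro h0
      have h1 : Int.gcd p q = 0 := by exact_mod_cast h0
      exact hp (Int.gcd_eq_zero_iff.1 h1).1
    obtain ⟨p', hp'⟩ : g ∣ p := by rw [hg]; exact Int.gcd_dvd_left ..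
    obtain ⟨q', hq'⟩ : g ∣ q := by rw [hg]; exact Int.gcd_dvd_right ..
    have hcop : IsCoprime p' q' := by
      have h1 : Int.gcd p q = Int.natAbs g * Int.gcd p' q' := by
        conv_lhs => rw [hp', hq']
        exact Int.gcd_mul_left ..
      have h2 : Int.natAbs g = Int.gcd p q := by
        rw [hg]
        simp
      rw [Int.isCoprime_iff_gcd_eq_one]
      rw [← h2] at h1
      have h3 : 0 < Int.natAbs g := Int.natAbs_pos.2 hg0
      nlinarith [h1, h3]
    have h3 : ∀ j, p' ∣ x j := by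
      intro j
      have h4 : q' * x j = p' * y j := by
        apply mul_left_cancel₀ hg0
        rw [← mul_assoc, ← mul_assoc, ← hq', ← hp']
        exact h j
      exact hcop.dvd_of_dvd_mul_left ⟨y j, h4⟩
    have h4 : p'.natAbs = 1 := hx p'.natAbs fun j => Int.natAbs_dvd.2 (h3 j)
    have h5 : IsUnit p' := Int.isUnit_iff_natAbs_eq.2 h4
    rw [hp']
    refine (Int.isUnit_iff.1 h5).elim (fun e => ?_) fun e => ?_
    · rw [e, mul_one]; exact ⟨q', hq'⟩
    · rw [e, mul_neg, mul_one]; exact (neg_dvd.2 ⟨q', hq'⟩)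
  have hp : p ≠ 0 := by
    rintro rfl
    apply hx.ne
    funext j
    have := h j
    rw [zero_mul] at this
    exact (mul_eq_zero.1 this).resolve_left hq
  have h1 : p ∣ q := key hx h hq
  have h2 : q ∣ p := key hy (fun j => (h j).symm) hp
  rcases Int.natAbs_eq_natAbs_iff.1 (Int.natAbs_eq_of_dvd_dvd h1 h2) with h3 | h3
  · left
    funext j
    have := h j
    rw [h3] at this
    exact mul_left_cancel₀ hq this
  · right
    funext j
    have := h j
    rw [h3] at this
    rw [Pi.neg_apply]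
    apply mul_left_cancel₀ hq
    linarith

/-- the hypothesis of general position: only `0` is a common zero of `n` of the forms -/
def GP {n m : ℕ} (h : Fin m → Fin n → ℤ) : Prop := ∀ S : Finset (Fin m), S.card = n →
  ∀ x : Fin n → ℤ, (∀ i ∈ S, lin (h i) x = 0) → x = 0

theorem GP.zero {n m : ℕ} {h : Fin m → Fin n → ℤ} (hg : GP h) (hnm : n ≤ m) {x : Fin n → ℤ}
    (hx : ∀ i, lin (h i) x = 0) : x = 0 := by
  obtain ⟨S, -, hS⟩ := Finset.exists_subset_card_eq (s := (Finset.univ : Finset (Fin m))) (n := n)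
    (by rw [Finset.card_univ, Fintype.card_fin]; exact hnm)
  exact hg S hS x fun i _ => hx i

theorem lin_smul_sub {n : ℕ} (h x y : Fin n → ℤ) (p q : ℤ) :
    lin h (fun j => q * x j - p * y j) = q * lin h x - p * lin h y := by
  unfold lin
  rw [Finset.mul_sum, Finset.mul_sum, ← Finset.sum_sub_distrib]
  exact Finset.sum_congr rfl fun j _ => by ring

theorem lin_neg' {n : ℕ} (h x : Fin n → ℤ) : lin h (-x) = - lin h x := by
  unfold lin
  rw [← Finset.sum_neg_distrib]
  exact Finset.sum_congr rfl fun j _ => by rw [Pi.neg_apply]; ring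

/-- **Counting the exceptional coefficient vectors** for fixed exponents. -/
theorem cnt {n m E Y T X S0 K W : ℕ} (hnm : n ≤ m) (a : Fin m → ℤ) (ha : ∀ i, a i ≠ 0) (b : ℤ)
    (hb : b ≠ 0) (h : Fin m → Fin n → ℤ) (hg : GP h) (N r : ℕ) (hN : 1 ≤ N) (hr : 1 ≤ r)
    (hX : X ≤ Y) (hTE : (T : ℤ) ≤ (Y : ℤ) ^ E) (hSE : (S0 : ℤ) ≤ (Y : ℤ) ^ E)
    (hK : ∀ Ks : Finset (Key 1 m), (∀ κ ∈ Ks, ∃ x s s0 z, CovSolZ n m 1 E Y (fun _ => N)
      (fun _ => r) (fun _ => a) (fun _ => b) (fun _ => h) κ x s s0 z) → Ks.card ≤ K)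
    (hW : ∀ (x : Fin n → ℤ) (s0 : ℤ), (∀ j, |x j| ≤ (X : ℤ)) → s0 ≠ 0 → |s0| ≤ (S0 : ℤ) →
      ∀ Ws : Finset ℤ, (∀ w ∈ Ws, ∃ s ∈ box m T, ∃ z : ℤ, 2 ≤ |z| ∧ w = z ^ r ∧
        (s0 * b) ^ (r - 1) * ∑ i, a i * (s i * lin (h i) x ^ N) = w) → Ws.card ≤ W)
    (B : Finset (Fin m → ℤ)) (hB : ∀ s ∈ B, s ∈ box m T ∧ (∀ i, s i ≠ 0) ∧
      ∃ (x : Fin n → ℤ) (s0 : ℤ) (z : ℚ), Prim x ∧ (∀ j, |x j| ≤ (X : ℤ)) ∧ s0 ≠ 0 ∧
        |s0| ≤ (S0 : ℤ) ∧ (spF a h N s x : ℚ) = b * s0 * z ^ r) :
    B.card ≤ K * ((2 * T + 1) ^ (m - 1) +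
      (2 * S0 + 1) * ((W + 3) * (2 * T + 1) ^ (m - 1))) := by
  classical
  choose! hs1 hs2 x s0 z hx hxX hs0 hs0b heq using hB
  choose Z P hP using fun s : Fin m → ℤ => PatZ.ex a h N s (x s)
  obtain ⟨key, hkey⟩ : ∃ key : (Fin m → ℤ) → Key 1 m, ∀ s, key s = fun _ =>
    ((Z s, P s), ratiosZ (insert (Z s) (P s)) h (x s)) := ⟨_, fun _ => rfl⟩
  have hcard : (B.image key).card ≤ K := by
    refine hK _ fun κ hκ => ?_
    obtain ⟨s, hs, rfl⟩ := Finset.mem_image.1 hκ
    refine ⟨x s, fun _ => s, fun _ => s0 s, fun _ => z s, ?_, ?_, ?_, ?_, ?_, ?_⟩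
    · intro j
      exact (hxX s hs j).trans (by exact_mod_cast hX)
    · intro _ i
      exact ⟨hs2 s hs i, (mem_box.1 (hs1 s hs) i).trans hTE⟩
    · intro _
      exact ⟨hs0 s hs, (hs0b s hs).trans hSE⟩
    · intro _
      rw [hkey]
      exact hP s
    · intro _
      rw [hkey]
    · intro _
      exact heq s hs
  refine le_trans (Finset.card_le_mul_card_image (f := key) B ((2 * T + 1) ^ (m - 1) +
      (2 * S0 + 1) * ((W + 3) * (2 * T + 1) ^ (m - 1))) fun κ hκ => ?_) ?_
  swap
  · rw [mul_comm]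
    exact Nat.mul_le_mul_right _ hcard
  obtain ⟨t, ht, rfl⟩ := Finset.mem_image.1 hκ
  -- the class of `t`
  have hcl : ∀ s ∈ (B.filter fun s => key s = key t), s ∈ B ∧ Z s = Z t ∧ P s = P t ∧
      ∀ i i', (∃ D ∈ insert (Z t) (P t), i ∈ D ∧ i' ∈ D) →
        lin (h i) (x s) * lin (h i') (x t) = lin (h i) (x t) * lin (h i') (x s) ∧
        (lin (h i) (x s) : ℚ) / (lin (h i') (x s) : ℚ) =
          (lin (h i) (x t) : ℚ) / (lin (h i') (x t) : ℚ) := by
    intro s hs
    obtain ⟨h1, h2⟩ := Finset.mem_filter.1 hs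
    have h3 := congrFun h2 0
    rw [hkey, hkey] at h3
    obtain ⟨h4, h5⟩ := Prod.mk.inj h3
    obtain ⟨h6, h7⟩ := Prod.mk.inj h4
    refine ⟨h1, h6, h7, fun i i' hD => ?_⟩
    have h8 := congrFun (congrFun h5 i) i'
    rw [h6, h7] at h8
    unfold ratiosZ at h8
    rw [if_pos hD, if_pos hD] at h8
    refine ⟨?_, h8⟩
    obtain ⟨D, hD1, -, hD3⟩ := hD
    have hmem : i' ∈ Z t ∨ i' ∈ (P t).biUnion id := by
      rcases Finset.mem_insert.1 hD1 with rfl | hD1
      · exact Or.inl hD3
      · exact Or.inr (Finset.mem_biUnion.2 ⟨D, hD1, hD3⟩)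
    have n1 : lin (h i') (x t) ≠ 0 := by
      have := ((hP t).un i').1 hmem
      intro h0
      rw [h0, zero_pow (by omega), mul_zero, mul_zero] at this
      exact this rfl
    have n2 : lin (h i') (x s) ≠ 0 := by
      rw [← h6, ← h7] at hmem
      have := ((hP s).un i').1 hmem
      intro h0
      rw [h0, zero_pow (by omega), mul_zero, mul_zero] at this
      exact this rfl
    rw [div_eq_div_iff (by exact_mod_cast n2) (by exact_mod_cast n1)] at h8
    exact_mod_cast h8
  rcases Finset.eq_empty_or_nonempty (P t) with hPt | ⟨D, hD⟩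
  swap
  · -- a vanishing block
    refine le_trans ?_ (Nat.le_add_right _ _)
    obtain ⟨i0, hi0⟩ := ((hP t).blk D hD).1
    have hne : ∀ s ∈ (B.filter fun s => key s = key t), lin (h i0) (x s) ≠ 0 := by
      intro s hs
      obtain ⟨h1, h2, h3, -⟩ := hcl s hs
      have h4 : i0 ∈ (P s).biUnion id := by
        rw [h3]
        exact Finset.mem_biUnion.2 ⟨D, hD, hi0⟩
      have := ((hP s).un i0).1 (Or.inr h4)
      intro h0
      rw [h0, zero_pow (by omega), mul_zero, mul_zero] at this
      exact this rfl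
    refine hyper (fun i => if i ∈ D then (a i : ℚ) * ((lin (h i) (x t) : ℚ) /
      (lin (h i0) (x t) : ℚ)) ^ N else 0) i0 ?_ 0 _ fun s hs => ?_
    · rw [if_pos hi0]
      have h1 : (lin (h i0) (x t) : ℚ) ≠ 0 := by
        exact_mod_cast hne t (Finset.mem_filter.2 ⟨ht, rfl⟩)
      rw [div_self h1, one_pow, mul_one]
      exact_mod_cast ha i0
    · obtain ⟨h1, h2, h3, h4⟩ := hcl s hs
      refine ⟨hs1 s h1, ?_⟩
      have h5 := ((hP s).blk D (h3 ▸ hD)).2.1
      have h6 : (lin (h i0) (x s) : ℚ) ^ N ≠ 0 := pow_ne_zero _ (by exact_mod_cast hne s hs)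
      apply mul_right_cancel₀ h6
      rw [zero_mul, Finset.sum_mul]
      have h7 : ((∑ i ∈ D, a i * (s i * lin (h i) (x s) ^ N) : ℤ) : ℚ) = 0 := by
        exact_mod_cast h5
      refine Eq.trans ?_ h7
      push_cast
      rw [← Finset.sum_filter_add_sum_filter_not Finset.univ (· ∈ D)]
      rw [Finset.filter_mem_eq_inter, Finset.univ_inter]
      rw [show ∑ x_1 with x_1 ∉ D, (if x_1 ∈ D then (a x_1 : ℚ) * ((lin (h x_1) (x t) : ℚ) /
        (lin (h i0) (x t) : ℚ)) ^ N else 0) * (s x_1 : ℚ) * (lin (h i0) (x s) : ℚ) ^ N = 0 from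
        Finset.sum_eq_zero fun i hi => by
          rw [if_neg (Finset.mem_filter.1 hi).2, zero_mul, zero_mul], add_zero]
      refine Finset.sum_congr rfl fun i hi => ?_
      rw [if_pos hi, ← (h4 i i0 ⟨D, Finset.mem_insert_of_mem hD, hi, hi0⟩).2, div_pow]
      field_simp
  · -- no vanishing block
    refine le_trans ?_ (Nat.le_add_left _ _)
    have hZ0 : ∀ s ∈ (B.filter fun s => key s = key t), ∀ i, i ∈ Z t ↔ lin (h i) (x s) ≠ 0 := by
      intro s hs i
      obtain ⟨h1, h2, h3, -⟩ := hcl s hs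
      have h4 := (hP s).un i
      rw [h2, h3, hPt] at h4
      simp only [Finset.biUnion_empty, Finset.notMem_empty, or_false] at h4
      rw [h4]
      constructor
      · intro h5 h0
        rw [h0, zero_pow (by omega), mul_zero, mul_zero] at h5
        exact h5 rfl
      · intro h5
        exact mul_ne_zero (ha i) (mul_ne_zero (hs2 s h1 i) (pow_ne_zero _ h5))
    have htt : t ∈ B.filter fun s => key s = key t := Finset.mem_filter.2 ⟨ht, rfl⟩
    obtain ⟨i0, hi0⟩ : ∃ i0, i0 ∈ Z t := by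
      by_contra hcon
      push Not at hcon
      apply (hx t ht).ne
      refine hg.zero hnm fun i => ?_
      by_contra h1
      exact hcon i ((hZ0 t htt i).2 h1)
    -- `x s = ± x t`
    have hxs : ∀ s ∈ (B.filter fun s => key s = key t), x s = x t ∨ x s = - x t := by
      intro s hs
      obtain ⟨h1, h2, h3, h4⟩ := hcl s hs
      have n1 := (hZ0 t htt i0).1 hi0
      refine Prim.eq (hx s h1) (hx t ht) (p := lin (h i0) (x s)) (q := lin (h i0) (x t)) n1 ?_
      have h5 : (fun j => lin (h i0) (x t) * x s j - lin (h i0) (x s) * x t j) = 0 := by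
        refine hg.zero hnm fun i => ?_
        rw [lin_smul_sub]
        by_cases hi : i ∈ Z t
        · have := (h4 i i0 ⟨Z t, Finset.mem_insert_self _ _, hi, hi0⟩).1
          linarith
        · have e1 : lin (h i) (x s) = 0 := by
            by_contra h6
            exact hi ((hZ0 s hs i).2 h6)
          have e2 : lin (h i) (x t) = 0 := by
            by_contra h6
            exact hi ((hZ0 t htt i).2 h6)
          rw [e1, e2]
          ring
      intro j
      have := congrFun h5 j
      simp only [Pi.zero_apply] at this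
      linarith
    -- the normalised equation
    have hnorm : ∀ s ∈ (B.filter fun s => key s = key t), ∃ (σ z' : ℤ), σ ≠ 0 ∧ |σ| ≤ (S0 : ℤ) ∧
        (σ * b) ^ (r - 1) * ∑ i, a i * (s i * lin (h i) (x t) ^ N) = z' ^ r := by
      intro s hs
      obtain ⟨h1, -, -, -⟩ := hcl s hs
      have e0 := heq s h1
      obtain ⟨σ, hσ0, hσ1, hσ⟩ : ∃ σ : ℤ, σ ≠ 0 ∧ |σ| ≤ (S0 : ℤ) ∧
          ((∑ i, a i * (s i * lin (h i) (x t) ^ N) : ℤ) : ℚ) = ((σ * b : ℤ) : ℚ) * z s ^ r := by
        rcases hxs s hs with e1 | e1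
        · refine ⟨s0 s, hs0 s h1, hs0b s h1, ?_⟩
          rw [← e1]
          have e2 : (∑ i, a i * (s i * lin (h i) (x s) ^ N) : ℤ) = spF a h N s (x s) := rfl
          rw [e2, e0]
          push_cast
          ring
        · refine ⟨(-1) ^ N * s0 s, mul_ne_zero (pow_ne_zero _ (by norm_num)) (hs0 s h1), ?_, ?_⟩
          · rw [abs_mul, abs_pow, abs_neg, abs_one, one_pow, one_mul]
            exact hs0b s h1
          · have e2 : (∑ i, a i * (s i * lin (h i) (x s) ^ N) : ℤ) = spF a h N s (x s) := rfl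
            rw [e1] at e2
            have e3 : (∑ i, a i * (s i * lin (h i) (-x t) ^ N) : ℤ) =
                (-1) ^ N * ∑ i, a i * (s i * lin (h i) (x t) ^ N) := by
              rw [Finset.mul_sum]
              refine Finset.sum_congr rfl fun i _ => ?_
              rw [lin_neg', neg_pow]
              ring
            rw [e3, ← e1] at e2
            have e4 : (∑ i, a i * (s i * lin (h i) (x t) ^ N) : ℤ) =
                (-1) ^ N * spF a h N s (x s) := by
              rw [← e2, ← mul_assoc, ← mul_pow]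
              norm_num
            rw [e4]
            push_cast
            rw [e0]
            push_cast
            ring
      obtain ⟨z', hz'⟩ := exists_int_root hr hσ
      exact ⟨σ, z', hσ0, hσ1, hz'⟩
    choose! σ z' hσ0 hσ1 hσz using hnorm
    -- for fixed `σ`
    have hfix : ∀ s₁ : ℤ, s₁ ≠ 0 → |s₁| ≤ (S0 : ℤ) →
        ((B.filter fun s => key s = key t).filter fun s => σ s = s₁).card ≤
          (W + 3) * (2 * T + 1) ^ (m - 1) := by
      intro s₁ hs₁ hs₁'
      obtain ⟨G, hG⟩ : ∃ G, G = (B.filter fun s => key s = key t).filter fun s => σ s = s₁ :=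
        ⟨_, rfl⟩
      rw [← hG]
      have hGm : ∀ s ∈ G, s ∈ B.filter (fun s => key s = key t) ∧ σ s = s₁ := by
        intro s hs
        rw [hG] at hs
        exact Finset.mem_filter.1 hs
      have himg : (G.image fun s => z' s ^ r).card ≤ W + 3 := by
        have h1 : (G.image fun s => z' s ^ r) ⊆
            ((G.filter fun s => 2 ≤ |z' s|).image fun s => z' s ^ r) ∪ {0, 1, -1} := by
          intro w hw
          obtain ⟨s, hs, rfl⟩ := Finset.mem_image.1 hw
          by_cases h2 : 2 ≤ |z' s|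
          · exact Finset.mem_union_left _ (Finset.mem_image_of_mem _
              (Finset.mem_filter.2 ⟨hs, h2⟩))
          · refine Finset.mem_union_right _ ?_
            have h3 : z' s = 0 ∨ z' s = 1 ∨ z' s = -1 := by
              have h4 : |z' s| ≤ 1 := by omega
              rw [abs_le] at h4
              omega
            rcases h3 with h3 | h3 | h3
            · rw [h3, zero_pow (by omega)]; simp
            · rw [h3, one_pow]; simp
            · rw [h3]
              rcases Nat.even_or_odd r with h5 | h5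
              · rw [h5.neg_one_pow]; simp
              · rw [h5.neg_one_pow]; simp
        refine (Finset.card_le_card h1).trans ((Finset.card_union_le _ _).trans ?_)
        refine Nat.add_le_add (hW (x t) s₁ (hxX t ht) hs₁ hs₁' _ fun w hw => ?_)
          Finset.card_le_three
        obtain ⟨s, hs, rfl⟩ := Finset.mem_image.1 hw
        obtain ⟨h2, h3⟩ := Finset.mem_filter.1 hs
        obtain ⟨h4, h5⟩ := hGm s h2
        refine ⟨s, hs1 s (hcl s h4).1, z' s, h3, rfl, ?_⟩
        rw [← h5]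
        exact hσz s h4
      refine le_trans (Finset.card_le_mul_card_image (f := fun s => z' s ^ r) G ((2 * T + 1) ^ (m - 1)) fun w hw => ?_) ?_
      swap
      · rw [mul_comm]
        exact Nat.mul_le_mul_right _ himg
      refine hyper (fun i => ((s₁ * b) ^ (r - 1) : ℚ) * ((a i : ℚ) * (lin (h i) (x t) : ℚ) ^ N)) i0
        ?_ (w : ℚ) _ fun s hs => ?_
      · have h2 : (lin (h i0) (x t) : ℚ) ≠ 0 := by exact_mod_cast (hZ0 t htt i0).1 hi0
        have h3 : ((s₁ : ℚ) * (b : ℚ)) ≠ 0 :=
          mul_ne_zero (by exact_mod_cast hs₁) (by exact_mod_cast hb)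
        exact mul_ne_zero (pow_ne_zero _ h3) (mul_ne_zero (by exact_mod_cast ha i0)
          (pow_ne_zero _ h2))
      · obtain ⟨h2, h3⟩ := Finset.mem_filter.1 hs
        obtain ⟨h4, h5⟩ := hGm s h2
        refine ⟨hs1 s (hcl s h4).1, ?_⟩
        have h6 := hσz s h4
        rw [h5, h3] at h6
        rw [← h6]
        push_cast
        rw [Finset.mul_sum]
        refine Finset.sum_congr rfl fun i _ => ?_
        ring
    have hsum : (B.filter fun s => key s = key t).card ≤
        ∑ s₁ ∈ Finset.Icc (-(S0 : ℤ)) S0,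
          ((B.filter fun s => key s = key t).filter fun s => σ s = s₁).card := by
      refine le_of_eq (Finset.card_eq_sum_card_fiberwise fun s hs => ?_)
      rw [Finset.mem_coe, Finset.mem_Icc, ← abs_le]
      exact hσ1 s hs
    refine hsum.trans ?_
    have hterm : ∀ s₁ ∈ Finset.Icc (-(S0 : ℤ)) S0,
        ((B.filter fun s => key s = key t).filter fun s => σ s = s₁).card ≤
          (W + 3) * (2 * T + 1) ^ (m - 1) := by
      intro s₁ hs₁
      rw [Finset.mem_Icc, ← abs_le] at hs₁
      by_cases h0 : s₁ = 0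
      · have h1 : ((B.filter fun s => key s = key t).filter fun s => σ s = s₁) = ∅ := by
          rw [Finset.eq_empty_iff_forall_notMem]
          intro s hs
          obtain ⟨h2, h3⟩ := Finset.mem_filter.1 hs
          exact hσ0 s h2 (h3.trans h0)
        rw [h1, Finset.card_empty]
        exact Nat.zero_le _
      · exact hfix s₁ h0 hs₁
    refine (Finset.sum_le_card_nsmul _ _ _ hterm).trans (le_of_eq ?_)
    rw [Int.card_Icc, smul_eq_mul]
    congr 1
    omega

end Pool.Agent.N741.HB.Rnd
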