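import Mathlib

/-!
# Roots of unity of bounded degree
-/

set_option autoImplicit false

namespace Pool.Agent.N741.HB

theorem dvd_of_totient_le {D N : ℕ} (hN : N ≠ 0) (h : N.totient ≤ D) :
    N ∣ ((D + 1).factorial) ^ (D + 1) := by
  rw [Nat.dvd_iff_prime_pow_dvd_dvd]
  intro p k hp hk
  rcases Nat.eq_zero_or_pos k with h0 | h0
  · rw [h0, pow_zero]
    exact one_dvd _
  have h1 : (p ^ k).totient ≤ D :=
    (Nat.le_of_dvd (Nat.totient_pos.2 (Nat.pos_of_ne_zero hN)) (Nat.totient_dvd_of_dvd hk)).trans h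
  rw [Nat.totient_prime_pow hp h0] at h1
  have hp1 : 1 ≤ p - 1 := by have := hp.two_le; omega
  have hpp : 1 ≤ p ^ (k - 1) := Nat.one_le_pow _ _ hp.pos
  have h2 : p - 1 ≤ D := (Nat.le_mul_of_pos_left _ hpp).trans h1
  have h3 : p ^ (k - 1) ≤ D := (Nat.le_mul_of_pos_right _ hp1).trans h1
  have h4 : k - 1 < D + 1 := by
    have h5 : k - 1 < 2 ^ (k - 1) := Nat.lt_two_pow_self
    have h6 : 2 ^ (k - 1) ≤ p ^ (k - 1) := Nat.pow_le_pow_left hp.two_le _
    omega
  have h5 : p ∣ (D + 1).factorial := Nat.dvd_factorial hp.pos (by omega)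
  exact (pow_dvd_pow_of_dvd h5 k).trans (pow_dvd_pow _ (by omega))

/-- a root of unity of degree at most `D` has bounded order -/
theorem root_unity_bdd {ζ : ℂ} {N D : ℕ} (hN : N ≠ 0) (h : ζ ^ N = 1)
    (hD : (minpoly ℚ ζ).natDegree ≤ D) : ζ ^ (((D + 1).factorial) ^ (D + 1)) = 1 := by
  have h1 : IsPrimitiveRoot ζ (orderOf ζ) := IsPrimitiveRoot.orderOf ζ
  have h2 : 0 < orderOf ζ := orderOf_pos_iff.2 (isOfFinOrder_iff_pow_eq_one.2
    ⟨N, Nat.pos_of_ne_zero hN, h⟩)
  have h3 := Polynomial.cyclotomic_eq_minpoly_rat h1 h2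
  rw [← h3, Polynomial.natDegree_cyclotomic] at hD
  exact orderOf_dvd_iff_pow_eq_one.1 (dvd_of_totient_le h2.ne' hD)

theorem natDegree_div {α β : ℂ} {κ : ℕ} (hα : IsIntegral ℚ α) (hβ : IsIntegral ℚ β)
    (h1 : (minpoly ℚ α).natDegree ≤ κ) (h2 : (minpoly ℚ β).natDegree ≤ κ) :
    (minpoly ℚ (α / β)).natDegree ≤ κ * κ := by
  have e1 : FiniteDimensional ℚ (IntermediateField.adjoin ℚ {α}) :=
    IntermediateField.adjoin.finiteDimensional hα
  have e2 : FiniteDimensional ℚ (IntermediateField.adjoin ℚ {β}) :=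
    IntermediateField.adjoin.finiteDimensional hβ
  set E := IntermediateField.adjoin ℚ {α} ⊔ IntermediateField.adjoin ℚ {β} with hE
  have e3 : FiniteDimensional ℚ E := IntermediateField.finiteDimensional_sup _ _
  have e4 : Module.finrank ℚ E ≤ κ * κ := by
    refine (IntermediateField.finrank_sup_le _ _).trans (Nat.mul_le_mul ?_ ?_)
    · rw [IntermediateField.adjoin.finrank hα]
      exact h1
    · rw [IntermediateField.adjoin.finrank hβ]
      exact h2
  have hmem : α / β ∈ E := by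
    refine div_mem ?_ ?_
    · exact (le_sup_left : IntermediateField.adjoin ℚ {α} ≤ E)
        (IntermediateField.mem_adjoin_simple_self ℚ α)
    · exact (le_sup_right : IntermediateField.adjoin ℚ {β} ≤ E)
        (IntermediateField.mem_adjoin_simple_self ℚ β)
  have e5 : minpoly ℚ (⟨α / β, hmem⟩ : E) = minpoly ℚ (α / β) :=
    (minpoly.algebraMap_eq (algebraMap E ℂ).injective (⟨α / β, hmem⟩ : E)).symm
  rw [← e5]
  exact (minpoly.natDegree_le _).trans e4

end Pool.Agent.N741.HB
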