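import Mathlib
import Pool.Agent.N741.HB.Thm2
import Pool.Agent.N741.HB.Stm4
import Pool.Agent.N273.HC.DetV
import Pool.Agent.N776.HC.RelF
import Pool.Agent.N130.HC.RelZ
import Pool.Agent.N426.HC.Gda
import Pool.Agent.N130.HC.IrrA
import Pool.Agent.N868.HC.StarA
import Pool.Agent.N130.HC.RtA
import Pool.Agent.N441.HC.H2
import Pool.Agent.N130.HC.Coord
import Pool.Agent.N438.HC.CoreH
import Pool.Agent.N868.HC.BlkA
import Pool.Agent.N264.HC.Code2
import Pool.Agent.N887.HC.Sol
import Pool.Agent.N945.HC.CstP
import Pool.Agent.N323.HC.Cst0
import Pool.Agent.N814.HC.CovA2

/-!
# Algebraic points of bounded degree: the theorems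

Determinant method (helper273), algebraic integers (helper776), equations of bounded degree,
irreducibility, the passage to the function field, coordinates (helper130), function field data
(helper426), mild equations and blocks (helper868), heights on function fields (helper441), core
theorem (helper438), coordinates in number fields (helper264, helper887), constant ratios
(helper945, helper323), linear sections (helper814).
-/

set_option autoImplicit false

namespace Pool.Agent.N741.HC

open Pool.Agent.N741.HB

theorem irrA : S_irrA := N130.HC.irrA N966.HB.ker

theorem rtA : S_rtA := N130.HC.rtA (N130.HC.relZ (N776.HC.relF N273.HC.detV))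
  (N868.HC.starA N20.HB.start irrA) root irrA N572.HB.van

/-- **The core theorem for algebraic points.** -/
theorem coreH : S_coreH := N438.HC.coreH N426.HC.gda irrA rtA
  (N441.HC.algH (N618.HB.dir N966.HB.can)) N130.HC.coord N572.HB.van

theorem cstP : S_cstP := N945.HC.cstP (N868.HC.blkA coreH)

/-- **Linear sections through all algebraic points of bounded degree.** -/
theorem covA : S_covA := N814.HC.covA (N887.HC.sol N264.HC.code) cstP (N323.HC.cst0 cstP)

end Pool.Agent.N741.HC
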