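import Mathlib
import Pool.Agent.N741.HB.Thm3
import Pool.Agent.N741.HB.Stm5
import Pool.Agent.N741.HB.RootU
import Pool.Agent.N999.HK.SolP
import Pool.Agent.N519.HK.MonK
import Pool.Agent.N713.HK.Ult
import Pool.Agent.N717.HK.Rk2
import Pool.Agent.N42.HK.Dio
import Pool.Agent.N887.HK.Rk

/-!
# Sums of products of powers over all number fields of bounded degree: the theorems

Coordinates of the solutions (helper999), heights on the monomials in the ultraproduct (helper519),
the ultraproduct of many solutions (helper713), equations of Fermat type (helper717), vectors of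
bounded height (helper42), classes (helper887).
-/

set_option autoImplicit false

namespace Pool.Agent.N741.HK

open Pool.Agent.N741.HB Pool.Agent.N741.HC

theorem ult : S_ult := N713.HK.ult (N999.HK.solP N264.HC.code) (N519.HK.monK coreH)

/-- **Few solutions of equations of Fermat type.** -/
theorem rk2 : S_rk2 := N717.HK.rk2 ult

/-- **Few classes of solutions.** -/
theorem rk : S_rk := N887.HK.rk ult N42.HK.dio

/-- degrees of the values of an embedding -/
theorem deg {K : Type} [Field K] [NumberField K] (σ : K →+* ℂ) {κ : ℕ}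
    (h : Module.finrank ℚ K ≤ κ) (a : K) :
    IsIntegral ℚ (σ a) ∧ (minpoly ℚ (σ a)).natDegree ≤ κ := by
  have hi : IsIntegral ℚ a := IsIntegral.of_finite ℚ _
  let _ : Algebra K ℂ := σ.toAlgebra
  have hst : IsScalarTower ℚ K ℂ := IsScalarTower.of_algebraMap_eq' (RingHom.ext_rat _ _)
  have e2 : σ a = algebraMap K ℂ a := rfl
  rw [e2]
  refine ⟨hi.algebraMap, ?_⟩
  rw [minpoly.algebraMap_eq (algebraMap K ℂ).injective]
  exact (minpoly.natDegree_le _).trans h

/-- the roots of bounded degree of an equation `t ^ p = c` -/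
theorem roots_card {κ p : ℕ} (hp : 1 ≤ p) {c : ℂ} (hc : c ≠ 0) (S : Finset ℂ)
    (hS : ∀ t ∈ S, IsIntegral ℚ t ∧ (minpoly ℚ t).natDegree ≤ κ ∧ t ^ p = c) :
    S.card ≤ ((κ * κ + 1).factorial) ^ (κ * κ + 1) := by
  classical
  obtain ⟨NU, hNU⟩ : ∃ NU, NU = ((κ * κ + 1).factorial) ^ (κ * κ + 1) := ⟨_, rfl⟩
  have hNU0 : 0 < NU := by rw [hNU]; exact pow_pos (Nat.factorial_pos _) _
  rw [← hNU]
  rcases Finset.eq_empty_or_nonempty S with h0 | ⟨t0, ht0⟩
  · rw [h0, Finset.card_empty]
    exact Nat.zero_le _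
  have hne : ∀ t ∈ S, t ≠ 0 := by
    rintro t ht rfl
    have := (hS 0 ht).2.2
    rw [zero_pow (by omega)] at this
    exact hc this.symm
  have h1 : S.card ≤ (Polynomial.nthRoots NU (1 : ℂ)).toFinset.card := by
    refine Finset.card_le_card_of_injOn (fun t => t / t0) (fun t ht => ?_) ?_
    · rw [Finset.mem_coe, Multiset.mem_toFinset, Polynomial.mem_nthRoots hNU0, hNU]
      refine root_unity_bdd (N := p) (by omega) ?_
        (natDegree_div (hS t ht).1 (hS t0 ht0).1 (hS t ht).2.1 (hS t0 ht0).2.1)
      rw [div_pow, (hS t ht).2.2, (hS t0 ht0).2.2, div_self hc]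
    · intro t ht t' ht' hh
      have h2 : t / t0 = t' / t0 := hh
      rwa [div_left_inj' (hne t0 ht0)] at h2
  exact h1.trans ((Multiset.toFinset_card_le _).trans (Polynomial.card_nthRoots _ _))

end Pool.Agent.N741.HK
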